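import Mathlib
import Pool.Agent.Lib.MP_ec260d_ntB.Q.QDefs
import Pool.Agent.Lib.MP_ec260d_ntD.F.Defs
import Pool.Agent.Lib.MP_ec260d_ntD.L.IL
import Pool.Agent.Lib.MP_ec260d_ntD.R.Defs

/-!
# Definitions for the assembly of theorem D
-/

namespace Pool.Agent.Lib.MP_ec260d_ntD

open Set MeasureTheory
open Pool.Agent.Lib.MP_ec260d_ntB

/-- the tolerance for the gap `x` -/
noncomputable def tolD (A' T x : ℝ) : ℝ := A' * Real.sqrt (Real.log (2 + min x (Real.log T)))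

/-- the properties of a set `G` of good heights in `[T, C₂ T]` -/
structure GoodD (k : ℕ) (δ δ' W T A B C₂ : ℝ) (G : Set ℝ) : Prop where
  sub : G ⊆ Icc T (C₂ * T)
  one : ∀ t₁ ∈ G, ∀ t₂ ∈ G, t₁ ≤ t₂ →
    |NN t₂ - NN t₁ - (LL t₂ - LL t₁) - (YY δ W T t₂ - YY δ W T t₁)| ≤ A
  osc : ∀ t ∈ G, ∀ s : ℝ, |s - t| ≤ (2 * B + 4) * hT T → |YY δ W T s - YY δ W T t| ≤ A
  flat : ∀ t ∈ G, ∀ s : ℝ, |s - t| ≤ (2 * B + 4) * hT T →
    |YY δ W T s - ∑ j ∈ Finset.range (JJ T), YB δ' W T j s| ≤ A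
  blk : ∀ t ∈ G, ∀ s : ℝ, |s - t| ≤ (2 * B + 4) * hT T → ∀ j ∈ Finset.range (JJ T),
    |YB δ' W T j s| ≤ dd δ' j / (100 * ((k : ℝ) + 1))

/-- displacement: for the gap `g` (number of ordinates) and the tolerance `ρ` -/
def DispD (δ W T A g ρ t : ℝ) : Prop :=
  ∀ s : ℝ, s = Ph (g + ρ) t ∨ s = Ph (g - ρ) t →
    |NN s - NN t - (LL s - LL t) - (YY δ W T s - YY δ W T t)| ≤ A ∧
      |YY δ W T s - YY δ W T t| ≤ ρ / 4

/-- the position of the `i`-th point for the base point `t` and the integer displacements `e` -/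
noncomputable def posD {k : ℕ} (T : ℝ) (cl : Fin (k + 1) → Fin (k + 1)) (Λ al : Fin (k + 1) → ℝ) (e : Fin k → ℤ)
    (i : Fin (k + 1)) (t : ℝ) : ℝ :=
  (al i + hT T * pos (fun l => (e l : ℝ)) i) + Λ (cl i) * t

/-- the set of the base points `t` for which the increments of the prime sums fit to the displacements `e` -/
def EvD (k : ℕ) (δ' W T K : ℝ) (cl : Fin (k + 1) → Fin (k + 1)) (Λ al : Fin (k + 1) → ℝ)
    (e : Fin k → ℤ) : Set ℝ :=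
  {t : ℝ | (∀ i : Fin k, |(∑ j ∈ Finset.range (JJ T), (YB δ' W T j (posD T cl Λ al e i.succ t) -
      YB δ' W T j (posD T cl Λ al e i.castSucc t))) + e i| ≤ K) ∧
    ∀ j ∈ Finset.range (JJ T), ∀ i : Fin (k + 1),
      |YB δ' W T j (posD T cl Λ al e i t)| ≤ dd δ' j / (100 * ((k : ℝ) + 1))}

/-- robust form of `FarOK` -/
def FarR (η l r u : ℝ) : Prop := ∀ u' : ℝ, |u' - u| ≤ r → FarOK η l u'

/-- the data of a short interval starting at `a`: classes `cl`, slopes `Λ`, constants `al` -/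
structure IntD (k : ℕ) (T κ τ η a H : ℝ) (m : Fin (k + 1) → ℝ) (cl : Fin (k + 1) → Fin (k + 1))
    (Λ al : Fin (k + 1) → ℝ) : Prop where
  cls : ∀ i i' i'' : Fin (k + 1), i ≤ i' → i' ≤ i'' → cl i = cl i'' → cl i' = cl i
  al0 : al 0 = 0
  lm0 : Λ (cl 0) = 1
  lm : ∀ i, 1 / 2 ≤ Λ (cl i) ∧ Λ (cl i) ≤ 1
  ala : ∀ i, al i + Λ (cl i) * a = Ph (m i) a
  lin : ∀ t, a ≤ t → t ≤ a + H + 1 → ∀ i, |Ph (m i) t - (al i + Λ (cl i) * t)| ≤ hT T / 10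
  nr : NR k cl Λ (T ^ κ) τ
  far : ∀ i i' : Fin (k + 1), cl i = cl i' → 5 / 2 + 1 / 100 ≤ |al i - al i'| →
    FarR η (Real.log T) (1 / 200) |al i - al i'|

end Pool.Agent.Lib.MP_ec260d_ntD
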