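import Mathlib
import Pool.Agent.Lib.MP_ec260d_ntD.L.IL
import Pool.Agent.Lib.MP_ec260d_ntD.R.Res

/-!
# JOB Q/NRSet: non-resonance for most heights (about 150 lines)

Let `Im` be the image of `cl` (`= {c | cl c = c}` by `hid`), `n + 1` its cardinality, `n ≤ k`, `r : Fin (n + 1) → Fin (k + 1)` an injective enumeration (`Finset.orderEmbOfFin`).  If `NR` fails at `a` there are `A, B` with `A ≠ B`, `A c = B c = 1` outside of `Im`, and `|∑ (log A c - log B c) slp (m c) a| < T^(-κ₂)`.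
Then `A' = A ∘ r`, `B' = B ∘ r` satisfy the conditions in `res` (with `n` and the shifts `m ∘ r`): `A' ≠ B'` since `A = B = 1` outside of `Im`, and the sums are equal (`Finset.sum_subset`, `Finset.sum_map`).  `8 (n + 3)^2 κ ≤ 8 (k + 3)^2 κ`.  `T₀` = the maximum over `n ≤ k`.
-/

namespace Pool.Agent.Lib.MP_ec260d_ntD

open Set MeasureTheory

theorem nr_set (k : ℕ) (C₁ κ : ℝ) (hC₁ : 0 ≤ C₁) (hκ : 0 < κ) : ∃ T₀ : ℝ, 2 ≤ T₀ ∧ ∀ T : ℝ, T₀ ≤ T →
    ∀ m : Fin (k + 1) → ℝ, (∀ i, 0 ≤ m i ∧ m i ≤ C₁ * (T * Real.log T)) →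
      ∀ cl : Fin (k + 1) → Fin (k + 1), (∀ i, cl (cl i) = cl i) →
        (∀ c c', cl c = c → cl c' = c' → c ≠ c' → T ^ (1 - κ) ≤ |m c - m c'|) →
        volume {a : ℝ | a ∈ Icc T (2 * T) ∧
          ¬ NR k cl (fun c => slp (m c) a) (T ^ κ) (T ^ (-(8 * ((k : ℝ) + 3) ^ 2 * κ)))} ≤
          ENNReal.ofReal (T ^ (1 - κ)) := by
  classical
  have h0 : ∀ n : Fin (k + 1), ∃ T₀ : ℝ, 2 ≤ T₀ ∧ ∀ T : ℝ, T₀ ≤ T → ∀ m : Fin ((n : ℕ) + 1) → ℝ,
      (∀ c, 0 ≤ m c ∧ m c ≤ C₁ * (T * Real.log T)) →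
      (∀ c c', c ≠ c' → T ^ (1 - κ) ≤ |m c - m c'|) →
        volume {a : ℝ | a ∈ Icc T (2 * T) ∧ ∃ A B : Fin ((n : ℕ) + 1) → ℕ,
          (∀ c, 1 ≤ A c ∧ 1 ≤ B c ∧ (A c : ℝ) ≤ T ^ κ ∧ (B c : ℝ) ≤ T ^ κ) ∧ A ≠ B ∧
          |∑ c, (Real.log (A c) - Real.log (B c)) * slp (m c) a| ≤
            T ^ (-(8 * ((k : ℝ) + 3) ^ 2 * κ))} ≤
          ENNReal.ofReal (T ^ (1 - κ)) := by
    intro n
    refine res (n : ℕ) C₁ κ (8 * ((k : ℝ) + 3) ^ 2 * κ) hC₁ hκ ?_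
    have h1 : ((n : ℕ) : ℝ) ≤ k := by
      have := n.isLt
      exact_mod_cast (by omega : (n : ℕ) ≤ k)
    have h2 : (0 : ℝ) ≤ ((n : ℕ) : ℝ) := Nat.cast_nonneg _
    have h3 : (((n : ℕ) : ℝ) + 3) ^ 2 ≤ ((k : ℝ) + 3) ^ 2 :=
      pow_le_pow_left₀ (by linarith) (by linarith) 2
    have h4 : 8 * (((n : ℕ) : ℝ) + 3) ^ 2 ≤ 8 * ((k : ℝ) + 3) ^ 2 := by linarith
    exact mul_le_mul_of_nonneg_right h4 hκ.le
  choose S hS hres using h0
  have hSn : ∀ n, 0 ≤ S n := fun n => by linarith [hS n]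
  have hle : ∀ n, S n ≤ ∑ n, S n := fun n =>
    Finset.single_le_sum (fun i _ => hSn i) (Finset.mem_univ n)
  refine ⟨∑ n, S n, (hS 0).trans (hle 0), ?_⟩
  intro T hT m hm cl hid hsep
  obtain ⟨I, hI⟩ : ∃ I : Finset (Fin (k + 1)), I = Finset.univ.image cl := ⟨_, rfl⟩
  have hmem : ∀ i, cl i ∈ I := fun i => by
    rw [hI]
    exact Finset.mem_image_of_mem _ (Finset.mem_univ i)
  have hfix : ∀ c ∈ I, cl c = c := by
    intro c hc
    rw [hI, Finset.mem_image] at hc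
    obtain ⟨i, -, rfl⟩ := hc
    exact hid i
  have hpos : 0 < I.card := Finset.card_pos.2 ⟨cl 0, hmem 0⟩
  have hcard : I.card ≤ k + 1 := by
    have h1 := Finset.card_le_univ I
    rwa [Fintype.card_fin] at h1
  obtain ⟨n, hn⟩ : ∃ n, I.card = n + 1 := ⟨I.card - 1, by omega⟩
  have hnk : n < k + 1 := by omega
  have hr := hres ⟨n, hnk⟩ T ((hle _).trans hT) (fun c => m (I.orderEmbOfFin hn c))
    (fun c => hm _) (fun c c' hcc => hsep _ _ (hfix _ (Finset.orderEmbOfFin_mem I hn c))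
      (hfix _ (Finset.orderEmbOfFin_mem I hn c'))
      (fun h => hcc ((I.orderEmbOfFin hn).injective h)))
  refine (measure_mono ?_).trans hr
  rintro a ⟨ha, hNR⟩
  refine ⟨ha, ?_⟩
  unfold NR at hNR
  push Not at hNR
  obtain ⟨A, B, hAB, hout, hne, hlt⟩ := hNR
  have hout' : ∀ c, c ∉ I → A c = 1 ∧ B c = 1 := fun c hc =>
    hout c fun i hi => hc (hi ▸ hmem i)
  refine ⟨fun c => A (I.orderEmbOfFin hn c), fun c => B (I.orderEmbOfFin hn c),
    fun c => hAB _, ?_, ?_⟩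
  · intro h
    obtain ⟨c, hc⟩ := Function.ne_iff.1 hne
    have hcI : c ∈ I := by
      by_contra h1
      obtain ⟨h2, h3⟩ := hout' c h1
      exact hc (h2.trans h3.symm)
    have h1 : c ∈ Set.range (I.orderEmbOfFin hn) := by
      rw [Finset.range_orderEmbOfFin]
      exact hcI
    obtain ⟨j, rfl⟩ := h1
    exact hc (congrFun h j)
  · have h1 : ∑ c, (Real.log (A c) - Real.log (B c)) * slp (m c) a =
        ∑ c ∈ I, (Real.log (A c) - Real.log (B c)) * slp (m c) a := by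
      symm
      refine Finset.sum_subset (Finset.subset_univ I) fun c _ hc => ?_
      obtain ⟨h2, h3⟩ := hout' c hc
      rw [h2, h3, sub_self, zero_mul]
    have h2 : ∑ c ∈ I, (Real.log (A c) - Real.log (B c)) * slp (m c) a =
        ∑ j, (Real.log (A (I.orderEmbOfFin hn j)) - Real.log (B (I.orderEmbOfFin hn j))) *
          slp (m (I.orderEmbOfFin hn j)) a := by
      conv_lhs => rw [← Finset.map_orderEmbOfFin_univ I hn]
      rw [Finset.sum_map]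
      rfl
    rw [h1, h2] at hlt
    exact hlt.le

end Pool.Agent.Lib.MP_ec260d_ntD
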