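import Mathlib
import Pool.Agent.Lib.MP_ec260d_ntD.F.FSet2
import Pool.Agent.Lib.MP_ec260d_ntD.Q.DDefs
import Pool.Agent.Lib.MP_ec260d_ntD.Q.NRSet

/-!
# JOB Q/BadS: the set of the bad heights (about 120 lines)

`κ₂ = 8 (k + 3)^2 κ`.  The set in question is contained in the union of the set of `nr_set` (measure `≤ T^(1 - κ) ≤ (ε/2) T` for large `T`) and of the `(k + 1)^2` sets of `far_set2` for the pairs `(m i, m i')` with `m i ≤ m i'` (with `ε/(2 (k + 1)^2)` in place of `ε`; for a pair with `m i' < m i` take the empty set): `¬ FarR η l (1/100) u` means that there is `u''` with `|u'' - u| ≤ 1/100` and `¬ FarOK η l u''`.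
(`measure_union_le`, `measure_iUnion_fintype_le` or a sum over `Finset.univ : Finset (Fin (k+1) × Fin (k+1))` by `measure_biUnion_finset_le`; `ENNReal.ofReal_add`.)
-/

namespace Pool.Agent.Lib.MP_ec260d_ntD

open Set MeasureTheory

theorem bad_set (k : ℕ) (C₁ κ η ε : ℝ) (hC₁ : 0 ≤ C₁) (hκ : 0 < κ) (hη : 0 < η) (hε : 0 < ε) :
    ∃ T₀ : ℝ, 20 ≤ T₀ ∧ ∀ T : ℝ, T₀ ≤ T →
    ∀ m : Fin (k + 1) → ℝ, (∀ i, 0 ≤ m i ∧ m i ≤ C₁ * (T * Real.log T)) →
      ∀ cl : Fin (k + 1) → Fin (k + 1), (∀ i, cl (cl i) = cl i) →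
        (∀ c c', cl c = c → cl c' = c' → c ≠ c' → T ^ (1 - κ) ≤ |m c - m c'|) →
        volume {t : ℝ | t ∈ Icc T (2 * T) ∧
          ¬ (NR k cl (fun c => slp (m c) t) (T ^ κ) (T ^ (-(8 * ((k : ℝ) + 3) ^ 2 * κ))) ∧
            ∀ i i' : Fin (k + 1), cl i = cl i' → m i ≤ m i' → 5 / 2 ≤ Ph (m i') t - Ph (m i) t →
              FarR η (Real.log T) (1 / 100) (Ph (m i') t - Ph (m i) t))} ≤
          ENNReal.ofReal (ε * T) := by
  obtain ⟨T₁, hT₁, h1⟩ := nr_set k C₁ κ hC₁ hκ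
  have hk0 : (0 : ℝ) < (k : ℝ) + 1 := by positivity
  have hε' : 0 < ε / (2 * ((k : ℝ) + 1) ^ 2) := by positivity
  obtain ⟨T₂, hT₂, h2⟩ := far_set2 η (ε / (2 * ((k : ℝ) + 1) ^ 2)) C₁ hη hε' hC₁
  have h3 : ∀ᶠ T : ℝ in Filter.atTop, T ^ (-κ) < ε / 2 :=
    (tendsto_rpow_neg_atTop hκ).eventually (gt_mem_nhds (by positivity))
  obtain ⟨T₃, h3⟩ := Filter.eventually_atTop.1 h3
  refine ⟨max T₁ (max T₂ T₃), hT₂.trans ((le_max_left _ _).trans (le_max_right _ _)), ?_⟩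
  intro T hT m hm cl hid hsep
  have hTa : T₁ ≤ T := (le_max_left _ _).trans hT
  have hTb : T₂ ≤ T := ((le_max_left _ _).trans (le_max_right _ _)).trans hT
  have hTc : T₃ ≤ T := ((le_max_right _ _).trans (le_max_right _ _)).trans hT
  have hT0 : 0 < T := by linarith
  have j1 := h1 T hTa m hm cl hid hsep
  have j3 : T ^ (1 - κ) ≤ ε / 2 * T := by
    have e1 : T ^ (1 - κ) = T * T ^ (-κ) := by
      rw [sub_eq_add_neg, Real.rpow_add hT0, Real.rpow_one]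
    rw [e1]
    have := (h3 T hTc).le
    have := mul_le_mul_of_nonneg_left this hT0.le
    linarith
  set P : Fin (k + 1) × Fin (k + 1) → Set ℝ := fun p =>
    {t : ℝ | m p.1 ≤ m p.2 ∧ t ∈ Icc T (2 * T) ∧ 5 / 2 ≤ Ph (m p.2) t - Ph (m p.1) t ∧
        ∃ u'' : ℝ, |u'' - (Ph (m p.2) t - Ph (m p.1) t)| ≤ 1 / 100 ∧ ¬ FarOK η (Real.log T) u''} with hP
  have hPm : ∀ p, volume (P p) ≤ ENNReal.ofReal (ε / (2 * ((k : ℝ) + 1) ^ 2) * T) := by
    intro p
    by_cases hp : m p.1 ≤ m p.2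
    · refine le_trans (measure_mono ?_) (h2 T hTb (m p.1) (m p.2) (hm p.1).1 hp (hm p.2).2)
      rintro t ⟨-, ht⟩
      exact ht
    · have : P p = ∅ := by
        rw [Set.eq_empty_iff_forall_notMem]
        rintro t ⟨ht, -⟩
        exact hp ht
      rw [this, measure_empty]
      exact bot_le
  have hsub : {t : ℝ | t ∈ Icc T (2 * T) ∧
          ¬ (NR k cl (fun c => slp (m c) t) (T ^ κ) (T ^ (-(8 * ((k : ℝ) + 3) ^ 2 * κ))) ∧
            ∀ i i' : Fin (k + 1), cl i = cl i' → m i ≤ m i' → 5 / 2 ≤ Ph (m i') t - Ph (m i) t →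
              FarR η (Real.log T) (1 / 100) (Ph (m i') t - Ph (m i) t))} ⊆
      {a : ℝ | a ∈ Icc T (2 * T) ∧
          ¬ NR k cl (fun c => slp (m c) a) (T ^ κ) (T ^ (-(8 * ((k : ℝ) + 3) ^ 2 * κ)))} ∪
        ⋃ p ∈ (Finset.univ : Finset (Fin (k + 1) × Fin (k + 1))), P p := by
    rintro t ⟨ht, hno⟩
    by_cases hnr : NR k cl (fun c => slp (m c) t) (T ^ κ) (T ^ (-(8 * ((k : ℝ) + 3) ^ 2 * κ)))
    · right
      by_contra hcon
      refine hno ⟨hnr, fun i i' hcl hmm h52 u' hu' => ?_⟩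
      by_contra hbad
      apply hcon
      simp only [Set.mem_iUnion]
      exact ⟨(i, i'), Finset.mem_univ _, hmm, ht, h52, u', hu', hbad⟩
    · left
      exact ⟨ht, hnr⟩
  have hsum : volume (⋃ p ∈ (Finset.univ : Finset (Fin (k + 1) × Fin (k + 1))), P p) ≤
      ENNReal.ofReal (ε / 2 * T) := by
    refine (measure_biUnion_finset_le _ _).trans ?_
    refine (Finset.sum_le_sum fun p _ => hPm p).trans ?_
    rw [Finset.sum_const, nsmul_eq_mul, Finset.card_univ, Fintype.card_prod, Fintype.card_fin,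
      ← ENNReal.ofReal_natCast, ← ENNReal.ofReal_mul (by positivity)]
    apply ENNReal.ofReal_le_ofReal
    push_cast
    have : ((k : ℝ) + 1) * ((k : ℝ) + 1) * (ε / (2 * ((k : ℝ) + 1) ^ 2) * T) = ε / 2 * T := by
      field_simp
    exact this.le
  refine (measure_mono hsub).trans ((measure_union_le _ _).trans ?_)
  have j4 : ENNReal.ofReal (T ^ (1 - κ)) ≤ ENNReal.ofReal (ε / 2 * T) := ENNReal.ofReal_le_ofReal j3
  refine (add_le_add (j1.trans j4) hsum).trans ?_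
  rw [← ENNReal.ofReal_add (by positivity) (by positivity)]
  apply ENNReal.ofReal_le_ofReal
  linarith

end Pool.Agent.Lib.MP_ec260d_ntD
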