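import Mathlib
import Pool.Agent.Lib.MP_ec260d_ntD.Q.DDefs
import Pool.Agent.Lib.MP_ec260d_ntD.V.IV

/-!
# JOB Q/EvBallD: the local density bound for the grid sets (about 200 lines)

`δ₁ = min 1 (δ₁ of lball k κ)`.  For `δ', W`: `vlow k δ' W` gives `c₀, η, M₀, T₀'`; `lball` with `c₀` gives `C₀', T₀''`.  Put `al' i = al i + hT T * pos e i`, so that `posD T cl Λ al e i t = al' i + Λ (cl i) * t`; apply `lball` with `al'`, `L i = gapL T cl al' i`, `y i = -(e i)`; the set of `lball` is `EvD .. ∩ Icc a' b'`.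
Hypotheses of `vlow` for `al'`: (1) `IntD.cls`.  (2) for `cl i.castSucc = cl i.succ`: `al i.succ - al i.castSucc = Ph (m i.succ) a - Ph (m i.castSucc) a` (`IntD.ala`) `≥ 2/3 hT g`, `g = m i.succ - m i.castSucc`, and `pos e i.succ - pos e i.castSucc = e i`, `|e i| ≤ R i ≤ g/8`: `al' i.succ - al' i.castSucc ≥ hT T * g/2 ≥ hT T * M₀` if `M₁ ≥ 2 M₀`.
(3) `||al' i - al' i'| - |al i - al i'|| ≤ hT T * ∑ |e l| ≤ 1/400`; so `3 ≤ |al' i - al' i'|` implies `5/2 + 1/100 ≤ |al i - al i'|` and `IntD.far` (`FarR` with radius `1/200`) gives `FarOK η (log T) |al' i - al' i'|`.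
Lower bound of the weights: in one class `gapL = log (min (≥ g/2) (log T)) ≥ log (min g (log T)/2) ≥ (1/4) log (2 + min g (log T))` (for `min g (log T) ≥ 8`), between classes `gapL = log (log T) ≥ (1/4) log (2 + log T)`.  So `(sqrt (gapL))⁻¹ ≤ 2 (sqrt (log (2 + min g (log T))))⁻¹`; `C₀ = 2^k C₀'`.
-/

namespace Pool.Agent.Lib.MP_ec260d_ntD

open Set MeasureTheory
open Pool.Agent.Lib.MP_ec260d_ntB

private theorem EvBallD_pos {k : ℕ} (v : Fin k → ℝ) (i : Fin k) :
    pos v i.succ = pos v i.castSucc + v i := by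
  unfold pos
  have h1 : ∀ l : Fin k, (if (l : ℕ) < ((i.succ : Fin (k + 1)) : ℕ) then v l else 0) =
      (if (l : ℕ) < ((i.castSucc : Fin (k + 1)) : ℕ) then v l else 0) +
        (if l = i then v l else 0) := by
    intro l
    rw [Fin.val_succ, Fin.val_castSucc]
    by_cases h2 : (l : ℕ) < i
    · rw [if_pos (by omega), if_pos h2,
        if_neg (fun h => by rw [h] at h2; exact lt_irrefl _ h2), add_zero]
    · by_cases h3 : l = i
      · rw [if_pos (by rw [h3]; omega), if_neg h2, if_pos h3, zero_add]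
      · have h4 : (l : ℕ) ≠ i := fun h => h3 (Fin.ext h)
        rw [if_neg (by omega), if_neg h2, if_neg h3, add_zero]
  rw [Finset.sum_congr rfl fun l _ => h1 l, Finset.sum_add_distrib, Finset.sum_ite_eq',
    if_pos (Finset.mem_univ i)]

private theorem EvBallD_abs {k : ℕ} (v : Fin k → ℝ) (i i' : Fin (k + 1)) :
    |pos v i - pos v i'| ≤ ∑ l, |v l| := by
  unfold pos
  rw [← Finset.sum_sub_distrib]
  refine (Finset.abs_sum_le_sum_abs _ _).trans (Finset.sum_le_sum fun l _ => ?_)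
  split_ifs
  · rw [sub_self, abs_zero]
    exact abs_nonneg _
  · rw [sub_zero]
  · rw [zero_sub, abs_neg]
  · rw [sub_self, abs_zero]
    exact abs_nonneg _

private theorem EvBallD_log {x y : ℝ} (hx : 4 ≤ x) (hy : x / 2 ≤ y) :
    1 / 4 * Real.log (2 + x) ≤ Real.log y := by
  have h1 : 2 + x ≤ (x / 2) ^ 4 := by
    nlinarith [sq_nonneg (x - 4), sq_nonneg (x * x - 16), mul_self_nonneg (x * (x - 4))]
  have h2 : Real.log (2 + x) ≤ 4 * Real.log (x / 2) := by
    have h3 := Real.log_le_log (by linarith) h1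
    rw [Real.log_pow] at h3
    exact_mod_cast h3
  have h3 : Real.log (x / 2) ≤ Real.log y := Real.log_le_log (by linarith) hy
  linarith

private theorem EvBallD_sqrt {p q : ℝ} (hp : 0 < p) (h : 1 / 4 * p ≤ q) :
    (Real.sqrt q)⁻¹ ≤ 2 * (Real.sqrt p)⁻¹ := by
  have hsp : 0 < Real.sqrt p := Real.sqrt_pos.2 hp
  have h1 : 1 / 2 * Real.sqrt p ≤ Real.sqrt q := by
    apply Real.le_sqrt_of_sq_le
    rw [mul_pow, Real.sq_sqrt hp.le]
    linarith
  have h2 : 0 < 1 / 2 * Real.sqrt p := by positivity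
  have h3 := inv_anti₀ h2 h1
  refine h3.trans (le_of_eq ?_)
  rw [mul_inv, one_div, inv_inv]

theorem ev_ballD (k : ℕ) (κ : ℝ) (hκ : 0 < κ) : ∃ δ₁ : ℝ, 0 < δ₁ ∧ ∀ δ' : ℝ, 0 < δ' → δ' ≤ δ₁ → ∀ W : ℝ, 1 ≤ W →
    ∃ C₀ η M₁ T₀ : ℝ, 0 < C₀ ∧ 0 < η ∧ η ≤ 1 ∧ 3 ≤ M₁ ∧ 20 ≤ T₀ ∧ ∀ T : ℝ, T₀ ≤ T →
      ∀ (τ a H : ℝ) (m : Fin (k + 1) → ℝ) (cl : Fin (k + 1) → Fin (k + 1)) (Λ al : Fin (k + 1) → ℝ),
        IntD k T κ τ η a H m cl Λ al → 0 < τ → τ ≤ 1 → (∀ l : Fin k, M₁ ≤ m l.succ - m l.castSucc) →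
        (∀ l : Fin k, 2 / 3 * (hT T * (m l.succ - m l.castSucc)) ≤ Ph (m l.succ) a - Ph (m l.castSucc) a) →
        ∀ R : Fin k → ℝ, (∀ l : Fin k, R l ≤ (m l.succ - m l.castSucc) / 8) → hT T * ∑ l, R l ≤ 1 / 400 →
          ∀ e : Fin k → ℤ, (∀ l, |(e l : ℝ)| ≤ R l) → ∀ K : ℝ, 1 ≤ K → ∀ a' b' : ℝ, a' ≤ b' →
            (volume (EvD k δ' W T K cl Λ al e ∩ Icc a' b')).toReal ≤
              C₀ * K ^ k * (∏ l : Fin k, (Real.sqrt (Real.log (2 + min (m l.succ - m l.castSucc) (Real.log T))))⁻¹) *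
                (b' - a') + T ^ κ / τ := by
  obtain ⟨δL, hδL, hl⟩ := lball k κ hκ
  refine ⟨min 1 δL, lt_min one_pos hδL, fun δ' hδ' hδ'1 W hW => ?_⟩
  obtain ⟨c₀, η, M₀, T₁, hc₀, hη, hη1, hM₀, hT₁, hv⟩ :=
    vlow k δ' W hδ' (hδ'1.trans (min_le_left _ _)) hW
  obtain ⟨C₀, T₂, hC₀, hT₂, hl'⟩ := hl δ' hδ' (hδ'1.trans (min_le_right _ _)) W hW c₀ hc₀
  refine ⟨2 ^ k * C₀, η, 2 * M₀, max (max T₁ T₂) (max 20 (Real.exp 8)), by positivity, hη, hη1,
    by linarith, (le_max_left _ _).trans (le_max_right _ _), ?_⟩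
  intro T hTT0 τ a H m cl Λ al hI hτ hτ1 hm hph R hR hRs e he K hK a' b' hab
  have hTT1 : T₁ ≤ T := ((le_max_left _ _).trans (le_max_left _ _)).trans hTT0
  have hTT2 : T₂ ≤ T := ((le_max_right _ _).trans (le_max_left _ _)).trans hTT0
  have hTe : Real.exp 8 ≤ T := ((le_max_right _ _).trans (le_max_right _ _)).trans hTT0
  have hTpos : 0 < T := lt_of_lt_of_le (Real.exp_pos _) hTe
  have hlog : 8 ≤ Real.log T := (Real.le_log_iff_exp_le hTpos).2 hTe
  have hh : 0 < hT T := by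
    unfold hT
    have := Real.pi_pos
    positivity
  -- the shifted constants
  obtain ⟨al', hal'⟩ : ∃ al' : Fin (k + 1) → ℝ, al' = fun i => al i + hT T * pos (fun l => (e l : ℝ)) i :=
    ⟨_, rfl⟩
  have hal : ∀ i, al' i = al i + hT T * pos (fun l => (e l : ℝ)) i := fun i => by rw [hal']
  have hgap : ∀ l : Fin k, cl l.castSucc = cl l.succ →
      hT T * ((m l.succ - m l.castSucc) / 2) ≤ al' l.succ - al' l.castSucc := by
    intro l hcl
    have h1 := hI.ala l.succ
    have h2 := hI.ala l.castSucc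
    rw [hcl] at h2
    have h3 := hph l
    have h4 := EvBallD_pos (fun l => (e l : ℝ)) l
    have h5 := (abs_le.1 ((he l).trans (hR l))).1
    have h6 : hT T * (-((m l.succ - m l.castSucc) / 8)) ≤ hT T * (e l : ℝ) :=
      mul_le_mul_of_nonneg_left h5 hh.le
    have h7 := hm l
    have h8 : 0 ≤ hT T * (m l.succ - m l.castSucc) := mul_nonneg hh.le (by linarith)
    rw [hal, hal, h4]
    nlinarith
  have hL : ∀ l : Fin k, 1 / 4 * Real.log (2 + min (m l.succ - m l.castSucc) (Real.log T)) ≤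
      gapL T cl al' l := by
    intro l
    have h7 := hm l
    have hx : 4 ≤ min (m l.succ - m l.castSucc) (Real.log T) :=
      le_min (by linarith) (by linarith)
    unfold gapL
    split_ifs with hcl
    · refine EvBallD_log hx (le_min ?_ ?_)
      · rw [le_div_iff₀ hh]
        have h1 := hgap l hcl
        have h2 : min (m l.succ - m l.castSucc) (Real.log T) / 2 ≤
            (m l.succ - m l.castSucc) / 2 := by
          have := min_le_left (m l.succ - m l.castSucc) (Real.log T)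
          linarith
        have h3 := mul_le_mul_of_nonneg_right h2 hh.le
        linarith
      · have := min_le_right (m l.succ - m l.castSucc) (Real.log T)
        linarith
    · refine EvBallD_log hx ?_
      have := min_le_right (m l.succ - m l.castSucc) (Real.log T)
      linarith
  have hlp : ∀ l : Fin k, 0 < Real.log (2 + min (m l.succ - m l.castSucc) (Real.log T)) := by
    intro l
    have h7 := hm l
    have hx : 4 ≤ min (m l.succ - m l.castSucc) (Real.log T) :=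
      le_min (by linarith) (by linarith)
    exact Real.log_pos (by linarith)
  have hsum : hT T * ∑ l, |(e l : ℝ)| ≤ 1 / 400 :=
    (mul_le_mul_of_nonneg_left (Finset.sum_le_sum fun l _ => he l) hh.le).trans hRs
  have hdif : ∀ i i' : Fin (k + 1), |(al' i - al' i') - (al i - al i')| ≤ 1 / 400 := by
    intro i i'
    have h1 : (al' i - al' i') - (al i - al i') =
        hT T * (pos (fun l => (e l : ℝ)) i - pos (fun l => (e l : ℝ)) i') := by
      rw [hal, hal]
      ring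
    rw [h1, abs_mul, abs_of_pos hh]
    exact (mul_le_mul_of_nonneg_left (EvBallD_abs _ i i') hh.le).trans hsum
  have hVF := hv T hTT1 cl al' hI.cls (by
      intro i hcl
      have h1 := hgap i hcl
      have h2 := hm i
      have h3 : hT T * M₀ ≤ hT T * ((m i.succ - m i.castSucc) / 2) :=
        mul_le_mul_of_nonneg_left (by linarith) hh.le
      linarith) (by
      intro i i' hcl h3
      have h1 := hdif i i'
      have h2 : |(|al' i - al' i'| - |al i - al i'|)| ≤ 1 / 400 :=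
        (abs_abs_sub_abs_le _ _).trans h1
      have h4 := abs_le.1 h2
      refine hI.far i i' hcl (by linarith [h4.2]) _ (h2.trans (by norm_num)))
  have hmain := hl' T hTT2 cl Λ al' τ hτ hτ1 hI.nr (fun i => gapL T cl al' i)
    (fun i => by linarith [hL i, hlp i]) hVF a' b' hab (fun i => -(e i : ℝ)) K hK
  have hset : EvD k δ' W T K cl Λ al e ∩ Icc a' b' = {t : ℝ | t ∈ Icc a' b' ∧
            (∀ i : Fin k, |(∑ j ∈ Finset.range (JJ T), (YB δ' W T j (al' i.succ + Λ (cl i.succ) * t) -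
              YB δ' W T j (al' i.castSucc + Λ (cl i.castSucc) * t))) - (fun i => -(e i : ℝ)) i| ≤ K) ∧
            ∀ j ∈ Finset.range (JJ T), ∀ i : Fin (k + 1),
              |YB δ' W T j (al' i + Λ (cl i) * t)| ≤ dd δ' j / (100 * ((k : ℝ) + 1))} := by
    ext t
    have hpos : ∀ i, posD T cl Λ al e i t = al' i + Λ (cl i) * t := by
      intro i
      unfold posD
      rw [hal]
    unfold EvD
    simp only [mem_inter_iff, mem_setOf_eq, hpos, sub_neg_eq_add]
    constructor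
    · rintro ⟨⟨h1, h2⟩, h3⟩
      exact ⟨h3, h1, h2⟩
    · rintro ⟨h3, h1, h2⟩
      exact ⟨⟨h1, h2⟩, h3⟩
  rw [hset]
  refine hmain.trans (add_le_add ?_ le_rfl)
  refine mul_le_mul_of_nonneg_right ?_ (by linarith)
  have h1 : ∏ i : Fin k, (Real.sqrt (gapL T cl al' i))⁻¹ ≤
      ∏ l : Fin k, (2 * (Real.sqrt (Real.log (2 + min (m l.succ - m l.castSucc)
        (Real.log T))))⁻¹) :=
    Finset.prod_le_prod (fun i _ => inv_nonneg.2 (Real.sqrt_nonneg _))
      fun i _ => EvBallD_sqrt (hlp i) (hL i)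
  rw [Finset.prod_mul_distrib, Finset.prod_const, Finset.card_univ, Fintype.card_fin] at h1
  have h2 : 0 ≤ C₀ * K ^ k := by positivity
  calc C₀ * K ^ k * ∏ i : Fin k, (Real.sqrt (gapL T cl al' i))⁻¹ ≤
        C₀ * K ^ k * (2 ^ k * ∏ l : Fin k, (Real.sqrt (Real.log (2 +
          min (m l.succ - m l.castSucc) (Real.log T))))⁻¹) := mul_le_mul_of_nonneg_left h1 h2
    _ = 2 ^ k * C₀ * K ^ k * ∏ l : Fin k, (Real.sqrt (Real.log (2 +
          min (m l.succ - m l.castSucc) (Real.log T))))⁻¹ := by ring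

end Pool.Agent.Lib.MP_ec260d_ntD
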