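import Mathlib
import Pool.Agent.Lib.MP_ec260d_ntB.Q.OrdF
import Pool.Agent.Lib.MP_ec260d_ntD.P.PhA
import Pool.Agent.Lib.MP_ec260d_ntD.Q.DDefs

/-!
# JOB Q/DispL: displacement of the ordinates, in the coordinate `LL` (about 100 lines)

Put `x = ordinate n`, `x' = ordinate (n + m')`.  Upper bound: `s = Ph (m' + ρ) t`, `LL s = LL t + m' + ρ` (`LL_ph`).  `DispD`: `NN s ≥ NN t + (m' + ρ) - ρ/4 - A ≥ n - B + m' + (3/4) ρ - A ≥ n + m'`; so `x' ≤ s` (if `s < x'` then `zeroCount s < n + m'` by `lt_ord`, `NN s = zeroCount s`).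
`LL x' ≤ LL s` (`LL_lt`; `x' ≥ x ≥ 2π e` by hypothesis and `ord_mono`) `= LL t + m' + ρ ≤ LL x + 2B + m' + ρ`.
Lower bound: `s = Ph (m' - ρ) t`: `NN s ≤ n + B + m' - ρ + ρ/4 + A < n + m'`, so `s ≤ x'` (otherwise `x' < s` and `n + m' ≤ zeroCount s` by `ord_lt`), `LL x' ≥ LL s = LL t + m' - ρ ≥ LL x - 2B + m' - ρ`.
-/

namespace Pool.Agent.Lib.MP_ec260d_ntD

open Set
open Pool.Agent.Lib.MP_ec260d_ntB
open Pool.Agent.Lib.MP_ec260d_nt (ordinate)

theorem disp_L (δ W T A B ρ t : ℝ) (n m' : ℕ) (hA : 1 ≤ A) (hB : 1 ≤ B) (hn : 1 ≤ n)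
    (hρ : 8 * (A + B + 1) ≤ ρ) (hρg : ρ ≤ m') (ht : 2 * Real.pi * Real.exp 1 ≤ t)
    (hx : 2 * Real.pi * Real.exp 1 ≤ ordinate n)
    (hd : DispD δ W T A m' ρ t) (hL : |LL t - LL (ordinate n)| ≤ 2 * B) (hN : |NN t - n| ≤ B) :
    |LL (ordinate (n + m')) - LL (ordinate n) - m'| ≤ ρ + 2 * B := by
  have hρ0 : 0 ≤ ρ := by linarith
  have hm0 : (0 : ℝ) ≤ m' := Nat.cast_nonneg _
  have hnm : 1 ≤ n + m' := by omega
  have hxx : ordinate n ≤ ordinate (n + m') := ord_mono hn (Nat.le_add_right _ _)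
  have hx' : 2 * Real.pi * Real.exp 1 ≤ ordinate (n + m') := hx.trans hxx
  rw [abs_le] at hL hN
  -- upper bound
  have hup : LL (ordinate (n + m')) ≤ LL t + (m' + ρ) := by
    obtain ⟨h1, h2⟩ := hd (Ph (m' + ρ) t) (Or.inl rfl)
    have h3 : LL (Ph (m' + ρ) t) = LL t + (m' + ρ) := LL_ph (by linarith) ht
    rw [abs_le] at h1 h2
    have h4 : (n : ℝ) + m' ≤ NN (Ph (m' + ρ) t) := by
      rw [h3] at h1
      linarith [h1.1, h1.2, h2.1, h2.2, hN.1, hN.2]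
    have h5 : ordinate (n + m') ≤ Ph (m' + ρ) t := by
      by_contra hc
      have h6 := lt_ord hnm (not_le.1 hc)
      have h7 : NN (Ph (m' + ρ) t) < (n : ℝ) + m' := by
        unfold NN
        exact_mod_cast h6
      linarith
    rw [← h3]
    rcases h5.eq_or_lt with h6 | h6
    · rw [h6]
    · exact (LL_lt hx' h6).le
  -- lower bound
  have hlo : LL t + (m' - ρ) ≤ LL (ordinate (n + m')) := by
    obtain ⟨h1, h2⟩ := hd (Ph (m' - ρ) t) (Or.inr rfl)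
    have h3 : LL (Ph (m' - ρ) t) = LL t + (m' - ρ) := LL_ph (by linarith) ht
    have h8 : t ≤ Ph (m' - ρ) t := ph_ge (by linarith) ht
    rw [abs_le] at h1 h2
    have h4 : NN (Ph (m' - ρ) t) < (n : ℝ) + m' := by
      rw [h3] at h1
      linarith [h1.1, h1.2, h2.1, h2.2, hN.1, hN.2]
    have h5 : Ph (m' - ρ) t ≤ ordinate (n + m') := by
      by_contra hc
      have h6 := ord_lt hnm (not_le.1 hc)
      have h7 : (n : ℝ) + m' ≤ NN (Ph (m' - ρ) t) := by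
        unfold NN
        exact_mod_cast h6
      linarith
    rw [← h3]
    rcases h5.eq_or_lt with h6 | h6
    · rw [h6]
    · exact (LL_lt (ht.trans h8) h6).le
  rw [abs_le]
  constructor <;> linarith [hL.1, hL.2]

end Pool.Agent.Lib.MP_ec260d_ntD
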