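import Mathlib
import Pool.Agent.Lib.MP_ec260d_ntD.Q.DDefs

/-!
# JOB Q/EventD: the increments of the prime sums at the grid points (about 100 lines)

As `Event.lean` of theorem B.  `|p i - τ i| ≤ |p i - x i| + |x i - τ i| ≤ (B + 2) h ≤ (2B + 4) h`, so by `osc` and `flat` `|∑_j YB (p i) - YY (τ i)| ≤ 2A`, and `blk` gives the second claim.
By `one` (`τ i.castSucc ≤ τ i.succ`): `YY (τ (i+1)) - YY (τ i) = NN (τ (i+1)) - NN (τ i) - (LL (τ (i+1)) - LL (τ i)) + O(A) = (m (i+1) - m i) - (LL (x (i+1)) - LL (x i)) + O(A + 2B + 4B)`.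
With `|LL (x (i+1)) - LL (x i) - (m (i+1) - m i) - e i| ≤ 4` the total error is `4A + A + 6B + 4`.
-/

namespace Pool.Agent.Lib.MP_ec260d_ntD

open Set
open Pool.Agent.Lib.MP_ec260d_ntB

private theorem EventD_lin (A B YB1 YB0 Y1 Y0 N1 N0 L1 L0 K1 K0 m1 m0 M e : ℝ)
    (a1 : |YB1 - Y1| ≤ 2 * A) (a0 : |YB0 - Y0| ≤ 2 * A)
    (b : |N1 - N0 - (L1 - L0) - (Y1 - Y0)| ≤ A)
    (c1 : |N1 - (M + m1)| ≤ B) (c0 : |N0 - (M + m0)| ≤ B)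
    (d1 : |L1 - K1| ≤ 2 * B) (d0 : |L0 - K0| ≤ 2 * B)
    (f : |(K1 - K0 - (m1 - m0)) - e| ≤ 4) :
    |(YB1 - YB0) + e| ≤ 5 * A + 6 * B + 4 := by
  rw [abs_le] at *
  constructor <;> linarith [a1.1, a1.2, a0.1, a0.2, b.1, b.2, c1.1, c1.2, c0.1, c0.2, d1.1, d1.2,
    d0.1, d0.2, f.1, f.2]

theorem event_D (k : ℕ) (δ δ' W T A B C₂ : ℝ) (G : Set ℝ) (hG : GoodD k δ δ' W T A B C₂ G)
    (hh : 0 < hT T) (hA : 1 ≤ A) (hB : 1 ≤ B) (N : ℝ) (m : Fin (k + 1) → ℝ) (x τ p : Fin (k + 1) → ℝ)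
    (e : Fin k → ℤ) (hτ : ∀ i, τ i ∈ G) (hx : ∀ i, |τ i - x i| ≤ B * hT T)
    (hN : ∀ i, |NN (τ i) - (N + m i)| ≤ B) (hL : ∀ i, |LL (τ i) - LL (x i)| ≤ 2 * B)
    (hp : ∀ i, |x i - p i| ≤ 2 * hT T) (hord : ∀ i : Fin k, τ i.castSucc ≤ τ i.succ)
    (he : ∀ i : Fin k, |(LL (x i.succ) - LL (x i.castSucc) - (m i.succ - m i.castSucc)) - e i| ≤ 4) :
    (∀ i : Fin k, |(∑ j ∈ Finset.range (JJ T), (YB δ' W T j (p i.succ) - YB δ' W T j (p i.castSucc))) +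
      e i| ≤ 5 * A + 6 * B + 4) ∧
    ∀ j ∈ Finset.range (JJ T), ∀ i : Fin (k + 1), |YB δ' W T j (p i)| ≤ dd δ' j / (100 * ((k : ℝ) + 1)) := by
  have hnear : ∀ i, |p i - τ i| ≤ (2 * B + 4) * hT T := by
    intro i
    have h1 := hx i
    have h2 := hp i
    have h3 : 0 ≤ B * hT T := mul_nonneg (by linarith) hh.le
    rw [abs_le] at *
    constructor <;> nlinarith [h1.1, h1.2, h2.1, h2.2]
  have hY : ∀ i, |(∑ j ∈ Finset.range (JJ T), YB δ' W T j (p i)) - YY δ W T (τ i)| ≤ 2 * A := by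
    intro i
    have h1 := hG.osc (τ i) (hτ i) _ (hnear i)
    have h2 := hG.flat (τ i) (hτ i) _ (hnear i)
    rw [abs_le] at *
    constructor <;> linarith [h1.1, h1.2, h2.1, h2.2]
  refine ⟨fun i => ?_, fun j hj i => hG.blk (τ i) (hτ i) _ (hnear i) j hj⟩
  rw [Finset.sum_sub_distrib]
  exact EventD_lin A B _ _ _ _ _ _ _ _ _ _ _ _ N _ (hY i.succ) (hY i.castSucc)
    (hG.one _ (hτ i.castSucc) _ (hτ i.succ) (hord i)) (hN i.succ) (hN i.castSucc) (hL i.succ)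
    (hL i.castSucc) (he i)

end Pool.Agent.Lib.MP_ec260d_ntD
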