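import Mathlib
import Pool.Agent.Lib.MP_ec260d_ntB.Q.PolyLip

/-!
# JOB Q/HypD: a relation and the grid point (about 150 lines)

As `Hyp.lean` of theorem B (copy its proof).  Put `y*_l = (d (l+1) - d l)/R l`, `y^e_l = e l/R l`.  `pos (fun l => R l * y*_l) i = d i - d 0 = d i` (telescoping; `d 0 = 0` as `al 0 = 0`, `lm 0 = 1`), so by `hq` at `x 0`: `ev (qe q (x 0)) y* = eval x P = 0` (`al i + lm i * x 0 + h * d i = x i`).
`|y*_l| ≤ 1`, `|y^e_l| ≤ 1`, `|y*_l - y^e_l| ≤ 4/R l ≤ 4/R₀`.  With `C` from `poly_lip`: `‖ev (qe q (x 0)) y^e‖ ≤ C sqrt(nr (qe q (x 0))) * 4k/R₀` and `sqrt(nr (qe q (x 0))) ≤ (1 + η₂) sqrt(nr (qe q t))`, `‖ev (qe q t - qe q (x 0)) y^e‖ ≤ C η₂ sqrt(nr (qe q t))`.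
Choose `η₂ = min 1 (η/(4C))`, `R₀ ≥ 32 C (k+1)/η`.
-/

namespace Pool.Agent.Lib.MP_ec260d_ntD

open Set
open Pool.Agent.Lib.MP_ec260d_ntB

private theorem HypD_pos_succ {k : ℕ} (v : Fin k → ℝ) (j : Fin k) :
    pos v j.succ = pos v j.castSucc + v j := by
  unfold pos
  have h1 : ∀ l : Fin k, (if (l : ℕ) < ((j.succ : Fin (k + 1)) : ℕ) then v l else 0) =
      (if (l : ℕ) < ((j.castSucc : Fin (k + 1)) : ℕ) then v l else 0) + (if l = j then v l else 0) := by
    intro l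
    rw [Fin.val_succ, Fin.val_castSucc]
    by_cases h2 : (l : ℕ) < j
    · rw [if_pos (by omega), if_pos h2, if_neg (fun h => by rw [h] at h2; exact lt_irrefl _ h2),
        add_zero]
    · by_cases h3 : l = j
      · rw [if_pos (by rw [h3]; omega), if_neg h2, if_pos h3, zero_add]
      · have h4 : (l : ℕ) ≠ j := fun h => h3 (Fin.ext h)
        rw [if_neg (by omega), if_neg h2, if_neg h3, add_zero]
  rw [Finset.sum_congr rfl fun l _ => h1 l, Finset.sum_add_distrib, Finset.sum_ite_eq']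
  rw [if_pos (Finset.mem_univ j)]

private theorem HypD_pos {k : ℕ} (v : Fin k → ℝ) (f : Fin (k + 1) → ℝ)
    (h : ∀ l : Fin k, v l = f l.succ - f l.castSucc) (i : Fin (k + 1)) :
    pos v i = f i - f 0 := by
  induction i using Fin.induction with
  | zero =>
    unfold pos
    rw [sub_self]
    refine Finset.sum_eq_zero fun l _ => ?_
    rw [if_neg]
    exact Nat.not_lt_zero _
  | succ j ih =>
    rw [HypD_pos_succ, ih, h j]
    ring

private theorem HypD_nr {k D : ℕ} (a b : (Fin k → Fin (D + 1)) → ℂ) :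
    nr a ≤ 2 * nr (a - b) + 2 * nr b := by
  unfold nr
  rw [Finset.mul_sum, Finset.mul_sum, ← Finset.sum_add_distrib]
  refine Finset.sum_le_sum fun α _ => ?_
  have h1 : ‖a α‖ ≤ ‖(a - b) α‖ + ‖b α‖ := by
    have h2 : a α = (a - b) α + b α := by
      rw [Pi.sub_apply]
      ring
    calc ‖a α‖ = ‖(a - b) α + b α‖ := by rw [← h2]
      _ ≤ _ := norm_add_le _ _
  nlinarith [norm_nonneg (a α), norm_nonneg ((a - b) α), norm_nonneg (b α),
    sq_nonneg (‖(a - b) α‖ - ‖b α‖), mul_self_le_mul_self (norm_nonneg (a α)) h1]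

private theorem HypD_nr_nonneg {k D : ℕ} (a : (Fin k → Fin (D + 1)) → ℂ) : 0 ≤ nr a :=
  Finset.sum_nonneg fun _ _ => sq_nonneg _

theorem hyp_D (k D : ℕ) (η : ℝ) (hη : 0 < η) : ∃ η₂ R₀ : ℝ, 0 < η₂ ∧ 1 ≤ R₀ ∧
    ∀ (P : MvPolynomial (Fin (k + 1)) ℂ) (h : ℝ) (R : Fin k → ℝ) (al lm : Fin (k + 1) → ℝ)
      (q : (Fin k → Fin (D + 1)) → Polynomial ℂ), 0 < h → (∀ l, R₀ ≤ R l) → al 0 = 0 → lm 0 = 1 →
      (∀ (t : ℝ) (y : Fin k → ℝ), MvPolynomial.eval (fun i : Fin (k + 1) =>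
          ((al i + lm i * t + h * pos (fun l => R l * y l) i : ℝ) : ℂ)) P = ev (qe q t) y) →
      ∀ (x d : Fin (k + 1) → ℝ) (t : ℝ) (e : Fin k → ℤ),
        (∀ i, x i = al i + lm i * x 0 + h * d i) →
        MvPolynomial.eval (fun i => ((x i : ℝ) : ℂ)) P = 0 →
        nr (qe q (x 0) - qe q t) ≤ η₂ ^ 2 * nr (qe q t) →
        (∀ l : Fin k, |d l.succ - d l.castSucc| ≤ R l) →
        (∀ l : Fin k, |(e l : ℝ)| ≤ R l) →
        (∀ l : Fin k, |d l.succ - d l.castSucc - e l| ≤ 4) →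
        ‖ev (qe q t) (fun l => (e l : ℝ) / R l)‖ ≤ η * Real.sqrt (nr (qe q t)) := by
  obtain ⟨C, hC, hlip⟩ := poly_lip k D
  have hC0 : 0 < C := by linarith
  have hk0 : (0 : ℝ) ≤ k := Nat.cast_nonneg k
  refine ⟨min 1 (η / (4 * C)), 1 + 32 * C * (k + 1) / η, lt_min one_pos (by positivity), ?_, ?_⟩
  · have : 0 ≤ 32 * C * (k + 1) / η := by positivity
    linarith
  intro P h R al lm q hh hR hal hlm hq x d t e hxe hP hslow hx hv hclose
  obtain ⟨η₂, hη₂⟩ : ∃ a, a = min 1 (η / (4 * C)) := ⟨_, rfl⟩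
  rw [← hη₂] at hslow
  have hη₂0 : 0 < η₂ := by
    rw [hη₂]
    exact lt_min one_pos (by positivity)
  have hη₂1 : η₂ ≤ 1 := by
    rw [hη₂]
    exact min_le_left _ _
  have hη₂2 : η₂ ≤ η / (4 * C) := by
    rw [hη₂]
    exact min_le_right _ _
  have hR0 : ∀ l, 0 < R l := fun l => by
    have h1 : 0 ≤ 32 * C * (k + 1) / η := by positivity
    have h2 := hR l
    linarith
  have hR16 : ∀ l, 32 * C * (k + 1) / η ≤ R l := fun l => by
    have h2 := hR l
    linarith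
  have hd0 : d 0 = 0 := by
    have h1 := hxe 0
    rw [hal, hlm] at h1
    have h2 : h * d 0 = 0 := by linarith
    rcases mul_eq_zero.1 h2 with h3 | h3
    · exact absurd h3 hh.ne'
    · exact h3
  obtain ⟨ys, hys⟩ : ∃ ys : Fin k → ℝ, ∀ l, ys l = (d l.succ - d l.castSucc) / R l :=
    ⟨_, fun _ => rfl⟩
  obtain ⟨yv, hyv⟩ : ∃ yv : Fin k → ℝ, yv = fun l => (e l : ℝ) / R l := ⟨_, rfl⟩
  rw [← hyv]
  have hyv' : ∀ l, yv l = (e l : ℝ) / R l := fun l => by rw [hyv]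
  -- step 1
  have h1 : ev (qe q (x 0)) ys = 0 := by
    rw [← hq (x 0) ys, ← hP]
    congr 2
    funext i
    have h2 := HypD_pos (fun l => R l * ys l) d (fun l => by
      rw [hys l, mul_div_cancel₀ _ (hR0 l).ne']) i
    rw [h2, hd0, sub_zero, ← hxe i]
  -- step 2
  have hy1 : ∀ l, |ys l| ≤ 2 := by
    intro l
    rw [hys, abs_div, abs_of_pos (hR0 l), div_le_iff₀ (hR0 l)]
    have := hx l
    have := hR0 l
    linarith
  have hy2 : ∀ l, |yv l| ≤ 2 := by
    intro l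
    rw [hyv', abs_div, abs_of_pos (hR0 l), div_le_iff₀ (hR0 l)]
    have := hv l
    have := hR0 l
    linarith
  have hy3 : ∀ l, |yv l - ys l| ≤ η / (8 * C * (k + 1)) := by
    intro l
    have h2 : yv l - ys l = -(d l.succ - d l.castSucc - e l) / R l := by
      rw [hys, hyv']
      field_simp
      ring
    rw [h2, abs_div, abs_neg, abs_of_pos (hR0 l), div_le_iff₀ (hR0 l)]
    have h3 := hclose l
    have h4 := hR16 l
    have h5 : 4 = η / (8 * C * (k + 1)) * (32 * C * (k + 1) / η) := by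
      field_simp
      norm_num
    calc |d l.succ - d l.castSucc - e l| ≤ 4 := h3
      _ = η / (8 * C * (k + 1)) * (32 * C * (k + 1) / η) := h5
      _ ≤ η / (8 * C * (k + 1)) * R l := mul_le_mul_of_nonneg_left h4 (by positivity)
  -- step 3
  obtain ⟨s, hs⟩ : ∃ s, s = Real.sqrt (nr (qe q t)) := ⟨_, rfl⟩
  have hs0 : 0 ≤ s := by
    rw [hs]
    exact Real.sqrt_nonneg _
  have hss : nr (qe q t) = s ^ 2 := by
    rw [hs, Real.sq_sqrt (HypD_nr_nonneg _)]
  have h4 : Real.sqrt (nr (qe q (x 0))) ≤ 2 * s := by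
    refine Real.sqrt_le_iff.2 ⟨by linarith, ?_⟩
    have h5 := HypD_nr (qe q (x 0)) (qe q t)
    rw [hss] at h5 hslow
    have h6 : η₂ ^ 2 * s ^ 2 ≤ 1 * s ^ 2 := by
      refine mul_le_mul_of_nonneg_right ?_ (sq_nonneg s)
      nlinarith
    nlinarith
  have h5 : Real.sqrt (nr (qe q (x 0) - qe q t)) ≤ η₂ * s := by
    refine Real.sqrt_le_iff.2 ⟨by positivity, ?_⟩
    rw [hss] at hslow
    nlinarith
  have h6 : ‖ev (qe q (x 0)) yv‖ ≤ C * (2 * s) * (η / (8 * C)) := by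
    have h7 := (hlip (qe q (x 0)) yv ys hy2 hy1).2
    rw [h1, sub_zero] at h7
    refine h7.trans ?_
    have h8 : ∑ i, |yv i - ys i| ≤ η / (8 * C) := by
      have h9 : ∑ i, |yv i - ys i| ≤ ∑ _i : Fin k, η / (8 * C * (k + 1)) :=
        Finset.sum_le_sum fun i _ => hy3 i
      refine h9.trans ?_
      rw [Finset.sum_const, Finset.card_univ, Fintype.card_fin, nsmul_eq_mul]
      have h10 : (k : ℝ) * (η / (8 * C * (k + 1))) = (η / (8 * C)) * (k / (k + 1)) := by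
        field_simp
      rw [h10]
      have h11 : (k : ℝ) / (k + 1) ≤ 1 := by
        rw [div_le_one (by linarith)]
        linarith
      calc η / (8 * C) * (k / (k + 1)) ≤ η / (8 * C) * 1 :=
            mul_le_mul_of_nonneg_left h11 (by positivity)
        _ = _ := mul_one _
    have h9 : 0 ≤ ∑ i, |yv i - ys i| := Finset.sum_nonneg fun _ _ => abs_nonneg _
    calc C * Real.sqrt (nr (qe q (x 0))) * ∑ i, |yv i - ys i|
        ≤ C * (2 * s) * ∑ i, |yv i - ys i| :=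
          mul_le_mul_of_nonneg_right (mul_le_mul_of_nonneg_left h4 hC0.le) h9
      _ ≤ C * (2 * s) * (η / (8 * C)) := mul_le_mul_of_nonneg_left h8 (by positivity)
  have h7 : ‖ev (qe q (x 0) - qe q t) yv‖ ≤ C * (η₂ * s) :=
    ((hlip (qe q (x 0) - qe q t) yv yv hy2 hy2).1).trans (mul_le_mul_of_nonneg_left h5 hC0.le)
  have h8 : ev (qe q t) yv = ev (qe q (x 0)) yv - ev (qe q (x 0) - qe q t) yv := by
    unfold ev
    rw [← Finset.sum_sub_distrib]
    refine Finset.sum_congr rfl fun α _ => ?_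
    rw [Pi.sub_apply]
    ring
  rw [h8, ← hs]
  refine (norm_sub_le _ _).trans ?_
  have h9 : C * (2 * s) * (η / (8 * C)) = η / 4 * s := by
    field_simp
    ring
  have h10 : C * (η₂ * s) ≤ η / 4 * s := by
    have h11 : C * η₂ ≤ η / 4 := by
      calc C * η₂ ≤ C * (η / (4 * C)) := mul_le_mul_of_nonneg_left hη₂2 hC0.le
        _ = η / 4 := by field_simp
    calc C * (η₂ * s) = C * η₂ * s := by ring
      _ ≤ η / 4 * s := mul_le_mul_of_nonneg_right h11 hs0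
  have h11 : 0 ≤ η * s := by positivity
  linarith

end Pool.Agent.Lib.MP_ec260d_ntD
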