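import Mathlib
import Pool.Agent.Lib.MP_ec260d_ntB.Q.PolyFam

/-!
# JOB Q/PolyFamD: the polynomial in the local coordinates, with slopes (about 150 lines)

Reduce to `poly_fam` (theorem B): let `P' ∈ ℂ[X_0, .., X_k]` be `P` with `X_i` replaced by `al i + (lm i - 1) X_0 + X_i` for `i ≥ 1` and `X_0` by `X_0` (for `i = 0` the same formula, as `al 0 = 0`, `lm 0 = 1`).  This substitution is an algebra automorphism which does not increase the total degree, so `P' ≠ 0` (inverse: `X_i ↦ X_i - al i - (lm i - 1) X_0`) and `P'.totalDegree ≤ D`.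
`poly_fam` for `P'` with `g = 0` (`g = fun _ => 0`): `eval (fun i => t + h * pos (fun l => 0 + R l * y l) i) P' = ev (qe q t) y`, and the left side is `eval` of `P` at `al i + (lm i - 1) t + (t + h pos (..) i)` (the coordinate `0` of the point is `t` since `pos v 0 = 0`).
-/

namespace Pool.Agent.Lib.MP_ec260d_ntD

open Pool.Agent.Lib.MP_ec260d_ntB

private noncomputable def PolyFamD_L {k : ℕ} (a b : Fin (k + 1) → ℂ) (i : Fin (k + 1)) :
    MvPolynomial (Fin (k + 1)) ℂ :=
  MvPolynomial.C (a i) + MvPolynomial.C (b i) * MvPolynomial.X 0 + MvPolynomial.X i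

private theorem PolyFamD_deg {k : ℕ} (a b : Fin (k + 1) → ℂ) (i : Fin (k + 1)) :
    (PolyFamD_L a b i).totalDegree ≤ 1 := by
  unfold PolyFamD_L
  refine (MvPolynomial.totalDegree_add _ _).trans (max_le ?_ ?_)
  · refine (MvPolynomial.totalDegree_add _ _).trans (max_le ?_ ?_)
    · rw [MvPolynomial.totalDegree_C]
      exact Nat.zero_le _
    · refine (MvPolynomial.totalDegree_mul _ _).trans ?_
      rw [MvPolynomial.totalDegree_C, MvPolynomial.totalDegree_X]
  · rw [MvPolynomial.totalDegree_X]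

private theorem PolyFamD_deg2 {k D : ℕ} (P : MvPolynomial (Fin (k + 1)) ℂ)
    (hD : P.totalDegree ≤ D) (a b : Fin (k + 1) → ℂ) :
    (MvPolynomial.aeval (PolyFamD_L a b) P).totalDegree ≤ D := by
  rw [MvPolynomial.aeval_def, MvPolynomial.eval₂_eq']
  refine MvPolynomial.totalDegree_finsetSum_le fun m hm => ?_
  refine (MvPolynomial.totalDegree_mul _ _).trans ?_
  rw [MvPolynomial.algebraMap_eq, MvPolynomial.totalDegree_C, zero_add]
  refine (MvPolynomial.totalDegree_finsetProd _ _).trans ?_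
  have h1 : ∑ i, m i ≤ P.totalDegree := by
    have h2 := MvPolynomial.le_totalDegree hm
    rwa [Finsupp.sum_fintype _ _ (fun _ => rfl)] at h2
  refine le_trans ?_ (h1.trans hD)
  refine Finset.sum_le_sum fun i _ => ?_
  refine (MvPolynomial.totalDegree_pow _ _).trans ?_
  have h3 := PolyFamD_deg a b i
  nlinarith

private theorem PolyFamD_inv {k : ℕ} (a b : Fin (k + 1) → ℂ) (ha : a 0 = 0) (hb : b 0 = 0)
    (i : Fin (k + 1)) :
    MvPolynomial.aeval (PolyFamD_L (fun j => - a j) (fun j => - b j)) (PolyFamD_L a b i) =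
      MvPolynomial.X i := by
  have h0 : PolyFamD_L (fun j => - a j) (fun j => - b j) 0 = MvPolynomial.X 0 := by
    unfold PolyFamD_L
    show MvPolynomial.C (- a 0) + MvPolynomial.C (- b 0) * MvPolynomial.X 0 +
      MvPolynomial.X 0 = _
    rw [ha, hb, neg_zero, MvPolynomial.C_0, zero_mul, zero_add, zero_add]
  have h1 : MvPolynomial.aeval (PolyFamD_L (fun j => - a j) (fun j => - b j))
      (PolyFamD_L a b i) = MvPolynomial.C (a i) + MvPolynomial.C (b i) *
        PolyFamD_L (fun j => - a j) (fun j => - b j) 0 +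
        PolyFamD_L (fun j => - a j) (fun j => - b j) i := by
    rw [PolyFamD_L, map_add, map_add, map_mul, MvPolynomial.aeval_X, MvPolynomial.aeval_X,
      MvPolynomial.aeval_C, MvPolynomial.aeval_C]
    rfl
  rw [h1, h0]
  unfold PolyFamD_L
  rw [MvPolynomial.C_neg, MvPolynomial.C_neg]
  ring

private theorem PolyFamD_ne {k : ℕ} (P : MvPolynomial (Fin (k + 1)) ℂ) (hP : P ≠ 0)
    (a b : Fin (k + 1) → ℂ) (ha : a 0 = 0) (hb : b 0 = 0) :
    MvPolynomial.aeval (PolyFamD_L a b) P ≠ 0 := by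
  intro h0
  apply hP
  have h2 : (MvPolynomial.aeval (PolyFamD_L (fun j => - a j) (fun j => - b j))).comp
      (MvPolynomial.aeval (PolyFamD_L a b)) =
      AlgHom.id ℂ (MvPolynomial (Fin (k + 1)) ℂ) := by
    refine MvPolynomial.algHom_ext fun i => ?_
    rw [AlgHom.comp_apply, MvPolynomial.aeval_X, PolyFamD_inv a b ha hb]
    rfl
  have h3 := congrArg (fun f : MvPolynomial (Fin (k + 1)) ℂ →ₐ[ℂ] MvPolynomial (Fin (k + 1)) ℂ =>
    f P) h2
  simp only [AlgHom.comp_apply, h0, map_zero] at h3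
  exact h3.symm

private theorem PolyFamD_eval {k : ℕ} (P : MvPolynomial (Fin (k + 1)) ℂ)
    (a b x : Fin (k + 1) → ℂ) :
    MvPolynomial.eval x (MvPolynomial.aeval (PolyFamD_L a b) P) =
      MvPolynomial.eval (fun i => a i + b i * x 0 + x i) P := by
  have h2 : (MvPolynomial.aeval x).comp (MvPolynomial.aeval (PolyFamD_L a b)) =
      MvPolynomial.aeval (fun i => a i + b i * x 0 + x i) := by
    refine MvPolynomial.algHom_ext fun i => ?_
    rw [AlgHom.comp_apply, MvPolynomial.aeval_X, MvPolynomial.aeval_X, PolyFamD_L, map_add,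
      map_add, map_mul, MvPolynomial.aeval_X, MvPolynomial.aeval_X, MvPolynomial.aeval_C,
      MvPolynomial.aeval_C]
    rfl
  have h3 := congrArg (fun f : MvPolynomial (Fin (k + 1)) ℂ →ₐ[ℂ] ℂ => f P) h2
  simp only [AlgHom.comp_apply] at h3
  rw [← MvPolynomial.coe_aeval_eq_eval, ← MvPolynomial.coe_aeval_eq_eval]
  exact h3

theorem poly_famD (k D : ℕ) (P : MvPolynomial (Fin (k + 1)) ℂ) (hP : P ≠ 0) (hD : P.totalDegree ≤ D)
    (h : ℝ) (hh : 0 < h) (R : Fin k → ℝ) (hR : ∀ i, 0 < R i) (al lm : Fin (k + 1) → ℝ) (h0 : al 0 = 0)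
    (h1 : lm 0 = 1) :
    ∃ q : (Fin k → Fin (D + 1)) → Polynomial ℂ, (∀ α, (q α).natDegree ≤ D) ∧ (∃ α, q α ≠ 0) ∧
      ∀ (t : ℝ) (y : Fin k → ℝ),
        MvPolynomial.eval (fun i : Fin (k + 1) =>
          ((al i + lm i * t + h * pos (fun l => R l * y l) i : ℝ) : ℂ)) P = ev (qe q t) y := by
  have h2 := PolyFamD_ne P hP (fun i => ((al i : ℝ) : ℂ)) (fun i => ((lm i - 1 : ℝ) : ℂ))
    (by rw [h0, Complex.ofReal_zero]) (by rw [h1, sub_self, Complex.ofReal_zero])
  have h3 := PolyFamD_deg2 P hD (fun i => ((al i : ℝ) : ℂ)) (fun i => ((lm i - 1 : ℝ) : ℂ))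
  obtain ⟨q, hq1, hq2, hq3⟩ := poly_fam k D _ h2 h3 h hh (fun _ => 0) R hR
  refine ⟨q, hq1, hq2, fun t y => ?_⟩
  rw [← hq3 t y, PolyFamD_eval]
  have h4 : (fun i : Fin (k + 1) => ((al i + lm i * t + h * pos (fun l => R l * y l) i : ℝ) : ℂ)) =
      fun i : Fin (k + 1) => ((al i : ℝ) : ℂ) + ((lm i - 1 : ℝ) : ℂ) *
        ((t + h * pos (fun l => 0 + R l * y l) (0 : Fin (k + 1)) : ℝ) : ℂ) +
          ((t + h * pos (fun l => 0 + R l * y l) i : ℝ) : ℂ) := by
    have h5 : pos (fun l => 0 + R l * y l) (0 : Fin (k + 1)) = 0 := by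
      unfold pos
      refine Finset.sum_eq_zero fun l _ => ?_
      rw [if_neg]
      exact Nat.not_lt_zero _
    have h6 : (fun l => 0 + R l * y l) = fun l => R l * y l := funext fun l => zero_add _
    funext i
    rw [h5, h6, mul_zero, add_zero]
    push_cast
    ring
  rw [h4]

end Pool.Agent.Lib.MP_ec260d_ntD
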