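import Mathlib
import Pool.Agent.Lib.MP_ec260d_ntB.Q.Slow
import Pool.Agent.Lib.MP_ec260d_ntB.Q.UnionB

/-!
# JOB Q/SlowI: `slow` and `union_b` on an arbitrary interval `[a, a + H]` (about 180 lines)

Both by translation: put `q' α = (q α).comp (X + C (a - H))`, so that `qe q' (x) = qe q (x + a - H)`, natDegree unchanged, `q' α ≠ 0` iff `q α ≠ 0`; `t ∈ [a, a + H]` iff `x = t - a + H ∈ [H, 2H]`.  Apply `slow` with `T = H` to `q'`; translation invariance of `volume` (`measure_preimage_add_right` or similar).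
`union_I`: apply `union_b` with `T = H`, `g = 0`, `q'` and `Ev' v = {x | x + a - H ∈ Ev v}`.
-/

namespace Pool.Agent.Lib.MP_ec260d_ntD

open MeasureTheory Set
open Pool.Agent.Lib.MP_ec260d_ntB

private noncomputable def SlowI_q {k D : ℕ} (q : (Fin k → Fin (D + 1)) → Polynomial ℂ) (c : ℝ) :
    (Fin k → Fin (D + 1)) → Polynomial ℂ :=
  fun α => (q α).comp (Polynomial.X + Polynomial.C (c : ℂ))

private theorem SlowI_qe {k D : ℕ} (q : (Fin k → Fin (D + 1)) → Polynomial ℂ) (c x : ℝ) :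
    qe (SlowI_q q c) x = qe q (x + c) := by
  funext α
  unfold qe SlowI_q
  rw [Polynomial.eval_comp, Polynomial.eval_add, Polynomial.eval_X, Polynomial.eval_C,
    Complex.ofReal_add]

private theorem SlowI_deg {k D : ℕ} (q : (Fin k → Fin (D + 1)) → Polynomial ℂ) (c : ℝ)
    (hq : ∀ α, (q α).natDegree ≤ D) (α : Fin k → Fin (D + 1)) :
    (SlowI_q q c α).natDegree ≤ D := by
  unfold SlowI_q
  refine Polynomial.natDegree_comp_le.trans ?_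
  rw [Polynomial.natDegree_X_add_C, mul_one]
  exact hq α

private theorem SlowI_ne {k D : ℕ} (q : (Fin k → Fin (D + 1)) → Polynomial ℂ) (c : ℝ)
    (hne : ∃ α, q α ≠ 0) : ∃ α, SlowI_q q c α ≠ 0 := by
  obtain ⟨α, hα⟩ := hne
  refine ⟨α, fun h0 => hα ?_⟩
  unfold SlowI_q at h0
  have h1 := congrArg (fun p : Polynomial ℂ => p.comp (Polynomial.X - Polynomial.C (c : ℂ))) h0
  simp only [Polynomial.comp_assoc, Polynomial.add_comp, Polynomial.X_comp, Polynomial.C_comp,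
    sub_add_cancel, Polynomial.comp_X, Polynomial.zero_comp] at h1
  exact h1

theorem slow_I (k D : ℕ) (ε η : ℝ) (hε : 0 < ε) (hη : 0 < η) : ∃ H₀ : ℝ, 2 ≤ H₀ ∧ ∀ H : ℝ, H₀ ≤ H → ∀ a : ℝ,
    ∀ q : (Fin k → Fin (D + 1)) → Polynomial ℂ, (∀ α, (q α).natDegree ≤ D) → (∃ α, q α ≠ 0) →
      volume {t : ℝ | t ∈ Icc a (a + H) ∧
        (qe q t = 0 ∨ ∃ s : ℝ, |s - t| ≤ 1 ∧ η ^ 2 * nr (qe q t) < nr (qe q s - qe q t))} ≤
          ENNReal.ofReal (ε * H) := by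
  obtain ⟨T₀, hT₀, hs⟩ := slow k D ε η hε hη
  refine ⟨T₀, hT₀, fun H hH a q hq hne => ?_⟩
  have h1 := hs H hH (SlowI_q q (a - H)) (SlowI_deg q _ hq) (SlowI_ne q _ hne)
  have h2 : {x : ℝ | x ∈ Icc H (2 * H) ∧
      (qe (SlowI_q q (a - H)) x = 0 ∨ ∃ s : ℝ, |s - x| ≤ 1 ∧
        η ^ 2 * nr (qe (SlowI_q q (a - H)) x) <
          nr (qe (SlowI_q q (a - H)) s - qe (SlowI_q q (a - H)) x))} =
      (fun x : ℝ => x + (a - H)) ⁻¹' {t : ℝ | t ∈ Icc a (a + H) ∧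
        (qe q t = 0 ∨ ∃ s : ℝ, |s - t| ≤ 1 ∧ η ^ 2 * nr (qe q t) < nr (qe q s - qe q t))} := by
    ext x
    simp only [mem_preimage, mem_setOf_eq, mem_Icc, SlowI_qe]
    constructor
    · rintro ⟨⟨hx1, hx2⟩, h⟩
      refine ⟨⟨by linarith, by linarith⟩, ?_⟩
      rcases h with h | ⟨s, hs1, hs2⟩
      · exact Or.inl h
      · refine Or.inr ⟨s + (a - H), ?_, hs2⟩
        have h3 : s + (a - H) - (x + (a - H)) = s - x := by ring
        rw [h3]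
        exact hs1
    · rintro ⟨⟨hx1, hx2⟩, h⟩
      refine ⟨⟨by linarith, by linarith⟩, ?_⟩
      rcases h with h | ⟨s, hs1, hs2⟩
      · exact Or.inl h
      · refine Or.inr ⟨s - (a - H), ?_, ?_⟩
        · have h3 : s - (a - H) - x = s - (x + (a - H)) := by ring
          rw [h3]
          exact hs1
        · rw [sub_add_cancel]
          exact hs2
  rw [h2, measure_preimage_add_right] at h1
  exact h1

theorem union_I (k D : ℕ) (a H η ε₃ c₁ e : ℝ) (hH : 0 < H) (hη : 0 ≤ η) (hε : 0 ≤ ε₃) (hc : 0 ≤ c₁) (he : 0 ≤ e)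
    (R : Fin k → ℝ) (hR : ∀ i, 1 ≤ R i) (q : (Fin k → Fin (D + 1)) → Polynomial ℂ)
    (hq : ∀ α, (q α).natDegree ≤ D) (hne : ∃ α, q α ≠ 0)
    (hcount : ∀ c : (Fin k → Fin (D + 1)) → ℂ, c ≠ 0 →
      ∀ F : Finset (Fin k → ℤ), (∀ v ∈ F, (∀ i, |(v i : ℝ)| ≤ R i) ∧
          ‖ev c (fun i => (v i : ℝ) / R i)‖ ≤ η * Real.sqrt (nr c)) →
        (F.card : ℝ) ≤ ε₃ * ∏ i, R i)
    (Ev : (Fin k → ℤ) → Set ℝ)
    (hEv : ∀ v : Fin k → ℤ, (∀ i, |(v i : ℝ)| ≤ R i) → ∀ a' b' : ℝ, a ≤ a' → a' ≤ b' → b' ≤ a + H →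
      (volume (Ev v ∩ Icc a' b')).toReal ≤ c₁ * (b' - a') + e) :
    (volume {t : ℝ | t ∈ Icc a (a + H) ∧ ∃ v : Fin k → ℤ, (∀ i, |(v i : ℝ)| ≤ R i) ∧
      ‖ev (qe q t) (fun i => (v i : ℝ) / R i)‖ ≤ η * Real.sqrt (nr (qe q t)) ∧ t ∈ Ev v}).toReal ≤
      c₁ * (H * (ε₃ * ∏ i, R i)) + (2 * D + 1) * e * ∏ i, (2 * R i + 1) := by
  have hcount' : ∀ c : (Fin k → Fin (D + 1)) → ℂ, c ≠ 0 →
      ∀ F : Finset (Fin k → ℤ), (∀ v ∈ F, (∀ i, |(v i : ℝ) - (fun _ : Fin k => (0 : ℝ)) i| ≤ R i) ∧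
          ‖ev c (fun i => ((v i : ℝ) - (fun _ : Fin k => (0 : ℝ)) i) / R i)‖ ≤
            η * Real.sqrt (nr c)) →
        (F.card : ℝ) ≤ ε₃ * ∏ i, R i := by
    intro c hc' F hF
    refine hcount c hc' F fun v hv => ?_
    have h1 := hF v hv
    simp only [sub_zero] at h1
    exact h1
  have hpre : ∀ S : Set ℝ, volume ((fun x : ℝ => x + (a - H)) ⁻¹' S) = volume S := fun S =>
    measure_preimage_add_right volume (a - H) S
  have hEv' : ∀ v : Fin k → ℤ, (∀ i, |(v i : ℝ) - (fun _ : Fin k => (0 : ℝ)) i| ≤ R i) →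
      ∀ a' b' : ℝ, H ≤ a' → a' ≤ b' → b' ≤ 2 * H →
      (volume ((fun v : Fin k → ℤ => (fun x : ℝ => x + (a - H)) ⁻¹' (Ev v)) v ∩
        Icc a' b')).toReal ≤ c₁ * (b' - a') + e := by
    intro v hv a' b' ha' hab hb'
    have h1 := hEv v (fun i => by
      have h2 := hv i
      simp only [sub_zero] at h2
      exact h2) (a' + (a - H)) (b' + (a - H)) (by linarith) (by linarith) (by linarith)
    have h3 : (fun x : ℝ => x + (a - H)) ⁻¹' (Ev v) ∩ Icc a' b' =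
        (fun x : ℝ => x + (a - H)) ⁻¹' (Ev v ∩ Icc (a' + (a - H)) (b' + (a - H))) := by
      ext x
      simp only [mem_inter_iff, mem_preimage, mem_Icc, add_le_add_iff_right]
    have h4 : b' + (a - H) - (a' + (a - H)) = b' - a' := by ring
    rw [h4] at h1
    show (volume ((fun x : ℝ => x + (a - H)) ⁻¹' (Ev v) ∩ Icc a' b')).toReal ≤ _
    rw [h3, hpre]
    exact h1
  have h1 := union_b k D H η ε₃ c₁ e hH hη hε hc he (fun _ => 0) R hR (SlowI_q q (a - H))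
    (SlowI_deg q _ hq) (SlowI_ne q _ hne) hcount'
    (fun v => (fun x : ℝ => x + (a - H)) ⁻¹' (Ev v)) hEv'
  have h2 : {x : ℝ | x ∈ Icc H (2 * H) ∧ ∃ v : Fin k → ℤ,
      (∀ i, |(v i : ℝ) - (fun _ : Fin k => (0 : ℝ)) i| ≤ R i) ∧
      ‖ev (qe (SlowI_q q (a - H)) x)
        (fun i => ((v i : ℝ) - (fun _ : Fin k => (0 : ℝ)) i) / R i)‖ ≤
          η * Real.sqrt (nr (qe (SlowI_q q (a - H)) x)) ∧
      x ∈ (fun v : Fin k → ℤ => (fun x : ℝ => x + (a - H)) ⁻¹' (Ev v)) v} =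
      (fun x : ℝ => x + (a - H)) ⁻¹' {t : ℝ | t ∈ Icc a (a + H) ∧ ∃ v : Fin k → ℤ,
        (∀ i, |(v i : ℝ)| ≤ R i) ∧
        ‖ev (qe q t) (fun i => (v i : ℝ) / R i)‖ ≤ η * Real.sqrt (nr (qe q t)) ∧ t ∈ Ev v} := by
    ext x
    simp only [mem_preimage, mem_setOf_eq, mem_Icc, SlowI_qe, sub_zero]
    constructor
    · rintro ⟨⟨hx1, hx2⟩, h⟩
      exact ⟨⟨by linarith, by linarith⟩, h⟩
    · rintro ⟨⟨hx1, hx2⟩, h⟩
      exact ⟨⟨by linarith, by linarith⟩, h⟩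
  rw [h2, hpre] at h1
  exact h1

end Pool.Agent.Lib.MP_ec260d_ntD
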