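import Mathlib
import Pool.Agent.Lib.MP_ec260d_ntB.Q.CubeCount
import Pool.Agent.Lib.MP_ec260d_ntD.P.PhB
import Pool.Agent.Lib.MP_ec260d_ntD.Q.EvBallD
import Pool.Agent.Lib.MP_ec260d_ntD.Q.NiceEvD
import Pool.Agent.Lib.MP_ec260d_ntD.Q.PolyFamD
import Pool.Agent.Lib.MP_ec260d_ntD.Q.SlowI

/-!
# JOB Q/BlockI: one short interval (about 350 lines)

`δb` from `ev_ballD k κ`.  Given the other constants: `C₀, ηF, M₂` from `ev_ballD` with `δ', W`.  `K = 5A + 6B + 4`.  `ε₃ > 0` with `C₀ K^k (3A')^k ε₃ ≤ ε'/4`.  `η, R₁` from `cube_count k D ε₃`; `η₂, R₀` from `nice_evD k D η`, its `T₀`; `slow_I k D (ε'/4) η₂` gives `H₀`.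
`M₁ ≥ M₂` such that for real `x ≥ M₁`: `24 A' sqrt (log (2 + x)) ≤ x` and `max R₀ R₁ ≤ 3 A' sqrt (log (2 + x))`; for `T ≥ T₀`: `log T ≥ M₁`, so with `g l = m l.succ - m l.castSucc ≥ M₁`, `ρ l = tolD A' T (g l) = A' sqrt (log (2 + min (g l) (log T)))`: `min (g l) (log T) ≥ M₁`, hence `24 ρ l ≤ min (g l) (log T) ≤ g l`, `max R₀ R₁ ≤ 3 ρ l =: R l`, `R l ≤ g l/8`.
`κ₂ = 8 (k+3)^2 κ`, `H = T^(2κ₂)`, `τ = T^(-κ₂)/2`.  `q` from `poly_famD` with `h = hT T`, `R`, `al`, `lm i = Λ (cl i)` (`IntD.al0`, `lm0`).  `S₀` = the set of `slow_I` on `[a, a + H]` (`H ≥ H₀`), measure `≤ (ε'/4) H`.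
`S₁` = the set of `union_I` with `Ev e = EvD k δ' W T K cl Λ al e`, `c₁ = C₀ K^k ∏ (sqrt (log (2 + min (g l) (log T))))⁻¹`, `e = T^κ/τ = 2 T^(κ + κ₂)`; `hEv` from `ev_ballD` (`hgap` from `ph_gap` at `a ∈ [T, 2T]`; `hT T * ∑ R l ≤ k * 2π/log T * 3A' sqrt (log (2 + log T)) ≤ 1/400` for large `T`), `hcount` from `cube_count` with `g = 0`.
`∏ R l * ∏ (sqrt (log (2 + min ..)))⁻¹ = (3A')^k`, so `volume S₁ ≤ C₀ K^k (3A')^k ε₃ H + (2D+1) 2 T^(κ+κ₂) (6 A' sqrt (log (2 + log T)) + 1)^k ≤ (ε'/2) H` for large `T` (`κ + κ₂ < 2 κ₂`).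
A point `t` of the set in the statement which is not in `S₀` satisfies the slow variation bound with `s = ordinate n` (`|s - t| ≤ hT T ≤ 1`) and `nice_evD` gives `t ∈ S₁`.  So the measure is `≤ (3ε'/4) H`.  (`volume S₁` is finite as `S₁ ⊆ Icc a (a + H)`; convert `toReal` bounds to `ENNReal.ofReal`.)
-/

namespace Pool.Agent.Lib.MP_ec260d_ntD

open Set MeasureTheory
open Pool.Agent.Lib.MP_ec260d_ntB
open Pool.Agent.Lib.MP_ec260d_nt (ordinate)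

private theorem BlockI_M (A' M₂ R₀ R₁ : ℝ) (hA' : 1 ≤ A') (hR₀ : 0 ≤ R₀) (hR₁ : 0 ≤ R₁) :
    ∃ M : ℝ, 1 ≤ M ∧ ∀ x : ℝ, M ≤ x → M₂ ≤ x ∧ 1 ≤ x ∧
      24 * (A' * Real.sqrt (Real.log (2 + x))) ≤ x ∧
      R₀ ≤ 3 * (A' * Real.sqrt (Real.log (2 + x))) ∧
      R₁ ≤ 3 * (A' * Real.sqrt (Real.log (2 + x))) := by
  have hb : ∀ R : ℝ, 0 ≤ R → ∀ x : ℝ, Real.exp (R ^ 2) ≤ x →
      R ≤ 3 * (A' * Real.sqrt (Real.log (2 + x))) := by
    intro R hR x hx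
    have h1 : R ^ 2 ≤ Real.log (2 + x) := by
      rw [Real.le_log_iff_exp_le (by linarith [Real.exp_pos (R ^ 2)])]
      linarith
    have h2 : R ≤ Real.sqrt (Real.log (2 + x)) := Real.le_sqrt_of_sq_le h1
    have h3 : Real.sqrt (Real.log (2 + x)) ≤ A' * Real.sqrt (Real.log (2 + x)) :=
      le_mul_of_one_le_left (Real.sqrt_nonneg _) hA'
    linarith [Real.sqrt_nonneg (Real.log (2 + x))]
  refine ⟨max (max M₂ 2) (max (1152 * A' ^ 2) (max (Real.exp (R₀ ^ 2)) (Real.exp (R₁ ^ 2)))),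
    le_trans (by norm_num) (le_trans (le_max_right M₂ 2) (le_max_left _ _)), fun x hx => ?_⟩
  have h1 : M₂ ≤ x := le_trans (le_trans (le_max_left _ _) (le_max_left _ _)) hx
  have h3 : 2 ≤ x := le_trans (le_trans (le_max_right _ _) (le_max_left _ _)) hx
  have h4 : 1152 * A' ^ 2 ≤ x := le_trans (le_trans (le_max_left _ _) (le_max_right _ _)) hx
  have h5 : Real.exp (R₀ ^ 2) ≤ x := le_trans (le_trans (le_trans (le_max_left _ _)
    (le_max_right _ _)) (le_max_right _ _)) hx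
  have h6 : Real.exp (R₁ ^ 2) ≤ x := le_trans (le_trans (le_trans (le_max_right _ _)
    (le_max_right _ _)) (le_max_right _ _)) hx
  refine ⟨h1, by linarith, ?_, hb R₀ hR₀ x h5, hb R₁ hR₁ x h6⟩
  have h7 : Real.sqrt (Real.log (2 + x)) ≤ Real.sqrt (2 * x) := by
    refine Real.sqrt_le_sqrt ?_
    have := Real.log_le_self (x := 2 + x) (by linarith)
    linarith
  have h8 : 24 * A' * Real.sqrt (2 * x) ≤ x := by
    refine abs_le_of_sq_le_sq' ?_ (by linarith) |>.2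
    rw [mul_pow, Real.sq_sqrt (by linarith)]
    nlinarith
  calc 24 * (A' * Real.sqrt (Real.log (2 + x))) = 24 * A' * Real.sqrt (Real.log (2 + x)) := by ring
    _ ≤ 24 * A' * Real.sqrt (2 * x) := mul_le_mul_of_nonneg_left h7 (by linarith)
    _ ≤ x := h8

private theorem BlockI_large (k D : ℕ) (ε κ κ₂ A' H₀ M : ℝ) (hε : 0 < ε) (hκ : κ < κ₂)
    (hκ₂ : 0 < κ₂) (hA' : 0 ≤ A') : ∀ᶠ T : ℝ in Filter.atTop,
      1 ≤ T ∧ 7 ≤ Real.log T ∧ M ≤ Real.log T ∧ H₀ ≤ T ^ (2 * κ₂) ∧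
      hT T * (k * (3 * (A' * Real.sqrt (Real.log (2 + Real.log T))))) ≤ 1 / 400 ∧
      (2 * (D : ℝ) + 1) * (T ^ κ / (T ^ (-κ₂) / 2)) * (Real.log T + 1) ^ k ≤
        ε / 4 * T ^ (2 * κ₂) := by
  have e1 : ∀ᶠ T : ℝ in Filter.atTop, max (max 7 M)
      (2 * (400 * (2 * Real.pi * (k * (3 * A')))) ^ 2) ≤ Real.log T :=
    Real.tendsto_log_atTop.eventually_ge_atTop _
  have e2 : ∀ᶠ T : ℝ in Filter.atTop, (1 : ℝ) ≤ T := Filter.eventually_ge_atTop _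
  have e3 : ∀ᶠ T : ℝ in Filter.atTop, H₀ ≤ T ^ (2 * κ₂) :=
    (tendsto_rpow_atTop (by linarith)).eventually_ge_atTop _
  have e4 : ∀ᶠ T : ℝ in Filter.atTop, ‖(Real.log T) ^ (k : ℝ)‖ ≤
      (ε / 4 / ((2 * (D : ℝ) + 1) * 2 * 2 ^ k)) * ‖T ^ (κ₂ - κ)‖ :=
    (isLittleO_log_rpow_rpow_atTop (k : ℝ) (by linarith : (0 : ℝ) < κ₂ - κ)).bound (by positivity)
  filter_upwards [e1, e2, e3, e4] with T h1 h2 h3 h4
  have hlog : 7 ≤ Real.log T := le_trans (le_trans (le_max_left _ _) (le_max_left _ _)) h1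
  have hM : M ≤ Real.log T := le_trans (le_trans (le_max_right _ _) (le_max_left _ _)) h1
  have hc : 2 * (400 * (2 * Real.pi * (k * (3 * A')))) ^ 2 ≤ Real.log T :=
    le_trans (le_max_right _ _) h1
  have hT0 : 0 < T := by linarith
  refine ⟨h2, hlog, hM, h3, ?_, ?_⟩
  · have hpi := Real.pi_pos
    obtain ⟨c, hcd⟩ : ∃ c : ℝ, c = 2 * Real.pi * (k * (3 * A')) := ⟨_, rfl⟩
    have hc0 : 0 ≤ c := by rw [hcd]; positivity
    rw [← hcd] at hc
    have h7 : Real.sqrt (Real.log (2 + Real.log T)) ≤ Real.sqrt (2 * Real.log T) := by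
      refine Real.sqrt_le_sqrt ?_
      have := Real.log_le_self (x := 2 + Real.log T) (by linarith)
      linarith
    have h8 : 400 * c * Real.sqrt (2 * Real.log T) ≤ Real.log T := by
      refine abs_le_of_sq_le_sq' ?_ (by linarith) |>.2
      rw [mul_pow, Real.sq_sqrt (by linarith)]
      nlinarith
    have h9 : hT T * (k * (3 * (A' * Real.sqrt (Real.log (2 + Real.log T))))) =
        c * Real.sqrt (Real.log (2 + Real.log T)) / Real.log T := by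
      unfold hT
      rw [hcd]
      ring
    rw [h9, div_le_iff₀ (by linarith)]
    have h10 := mul_le_mul_of_nonneg_left h7 hc0
    linarith
  · rw [Real.norm_of_nonneg (Real.rpow_nonneg (by linarith) _), Real.rpow_natCast,
      Real.norm_of_nonneg (Real.rpow_nonneg hT0.le _)] at h4
    have h5 : (Real.log T + 1) ^ k ≤ 2 ^ k * Real.log T ^ k := by
      rw [← mul_pow]
      refine pow_le_pow_left₀ (by linarith) ?_ k
      linarith
    have h6 : T ^ κ / (T ^ (-κ₂) / 2) = 2 * T ^ (κ + κ₂) := by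
      rw [Real.rpow_neg hT0.le, Real.rpow_add hT0]
      have : T ^ κ₂ ≠ 0 := (Real.rpow_pos_of_pos hT0 _).ne'
      field_simp
    have h7 : T ^ (κ + κ₂) * T ^ (κ₂ - κ) = T ^ (2 * κ₂) := by
      rw [← Real.rpow_add hT0]
      congr 1
      ring
    have hD0 : 0 < (2 * (D : ℝ) + 1) * 2 * 2 ^ k := by positivity
    have hy : 0 ≤ T ^ (κ + κ₂) := Real.rpow_nonneg hT0.le _
    rw [h6]
    calc (2 * (D : ℝ) + 1) * (2 * T ^ (κ + κ₂)) * (Real.log T + 1) ^ k ≤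
          (2 * (D : ℝ) + 1) * (2 * T ^ (κ + κ₂)) * (2 ^ k * Real.log T ^ k) :=
            mul_le_mul_of_nonneg_left h5 (by positivity)
      _ = ((2 * (D : ℝ) + 1) * 2 * 2 ^ k) * T ^ (κ + κ₂) * Real.log T ^ k := by ring
      _ ≤ ((2 * (D : ℝ) + 1) * 2 * 2 ^ k) * T ^ (κ + κ₂) *
            ((ε / 4 / ((2 * (D : ℝ) + 1) * 2 * 2 ^ k)) * T ^ (κ₂ - κ)) :=
            mul_le_mul_of_nonneg_left h4 (by positivity)
      _ = (((2 * (D : ℝ) + 1) * 2 * 2 ^ k) * (ε / 4 / ((2 * (D : ℝ) + 1) * 2 * 2 ^ k))) *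
            (T ^ (κ + κ₂) * T ^ (κ₂ - κ)) := by ring
      _ = ε / 4 * T ^ (2 * κ₂) := by rw [h7, mul_div_cancel₀ _ hD0.ne']

theorem block_I (k D : ℕ) (κ : ℝ) (hκ : 0 < κ) (hκ1 : 200 * ((k : ℝ) + 3) ^ 2 * κ ≤ 1) :
    ∃ δb : ℝ, 0 < δb ∧ ∀ δ' : ℝ, 0 < δ' → δ' ≤ δb → ∀ δ W A A' B C₁ C₂ C₃ ε' : ℝ, 1 ≤ W → 1 ≤ A → 1 ≤ B →
      200 * (A + B + 1) ≤ A' → 0 ≤ C₁ → 1 ≤ C₃ → C₃ ≤ C₂ → 0 < ε' →
      ∃ ηF M₁ T₀ : ℝ, 0 < ηF ∧ ηF ≤ 1 ∧ 1 ≤ M₁ ∧ 20 ≤ T₀ ∧ ∀ T : ℝ, T₀ ≤ T →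
        ∀ (m : Fin (k + 1) → ℕ) (cl : Fin (k + 1) → Fin (k + 1)) (Λ al : Fin (k + 1) → ℝ) (a : ℝ),
          T ≤ a → a + T ^ (2 * (8 * ((k : ℝ) + 3) ^ 2 * κ)) + 1 ≤ 2 * T → m 0 = 0 →
          (∀ l : Fin k, (m l.castSucc : ℝ) + M₁ ≤ m l.succ) → (∀ i, (m i : ℝ) ≤ C₁ * (T * Real.log T)) →
          (∀ t : ℝ, T ≤ t → t ≤ 2 * T → ∀ i, Ph (m i) t ≤ C₃ * T) →
          IntD k T κ (T ^ (-(8 * ((k : ℝ) + 3) ^ 2 * κ)) / 2) ηF a (T ^ (2 * (8 * ((k : ℝ) + 3) ^ 2 * κ)))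
            (fun i => (m i : ℝ)) cl Λ al →
          ∀ G : Set ℝ, GoodD k δ δ' W T A B C₂ G →
            (∀ t ∈ G, t ≤ C₃ * T → ∀ l : Fin k, DispD δ W T A ((m l.succ : ℝ) - m l.castSucc)
              (tolD A' T ((m l.succ : ℝ) - m l.castSucc)) t) →
            ∀ P : MvPolynomial (Fin (k + 1)) ℂ, P ≠ 0 → P.totalDegree ≤ D →
              volume {t : ℝ | t ∈ Icc a (a + T ^ (2 * (8 * ((k : ℝ) + 3) ^ 2 * κ))) ∧
                ∃ n : ℕ, 1 ≤ n ∧ Nice k T B m G n ∧ t ≤ ordinate n ∧ ordinate n ≤ t + hT T ∧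
                  (∀ i, ordinate (n + m i) + 1 ≤ C₃ * T) ∧
                  MvPolynomial.eval (fun i => ((ordinate (n + m i) : ℝ) : ℂ)) P = 0} ≤
                ENNReal.ofReal (ε' * T ^ (2 * (8 * ((k : ℝ) + 3) ^ 2 * κ))) := by
  classical
  obtain ⟨δb, hδb, hball0⟩ := ev_ballD k κ hκ
  refine ⟨δb, hδb, ?_⟩
  intro δ' hδ' hδb' δ W A A' B C₁ C₂ C₃ ε' hW hA hB hA' hC₁ hC₃ hC₃₂ hε'
  obtain ⟨C₀, ηF, M₂, Te, hC₀, hηF, hηF1, hM₂, hTe, hball⟩ := hball0 δ' hδ' hδb' W hW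
  have hA'1 : 1 ≤ A' := by linarith
  obtain ⟨κ₂, hκ₂d⟩ : ∃ κ₂ : ℝ, κ₂ = 8 * ((k : ℝ) + 3) ^ 2 * κ := ⟨_, rfl⟩
  rw [← hκ₂d]
  have hκκ₂ : κ < κ₂ := by
    rw [hκ₂d]
    have h1 : (9 : ℝ) ≤ ((k : ℝ) + 3) ^ 2 := by
      have : (0 : ℝ) ≤ k := Nat.cast_nonneg k
      nlinarith
    nlinarith
  have hκ₂ : 0 < κ₂ := by linarith
  obtain ⟨K, hKd⟩ : ∃ K : ℝ, K = 5 * A + 6 * B + 4 := ⟨_, rfl⟩
  have hK : 1 ≤ K := by linarith
  obtain ⟨ε₃, hε₃, hε₃'⟩ : ∃ ε₃ : ℝ, 0 < ε₃ ∧ C₀ * K ^ k * (3 * A') ^ k * ε₃ ≤ ε' / 4 := by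
    have hc : 0 < C₀ * K ^ k * (3 * A') ^ k := by positivity
    refine ⟨ε' / 4 / (C₀ * K ^ k * (3 * A') ^ k), by positivity, le_of_eq ?_⟩
    rw [mul_div_cancel₀ _ hc.ne']
  obtain ⟨η, R₁, hη, hη1, hR₁, hcount⟩ := cube_count k D ε₃ hε₃
  obtain ⟨η₂, R₀, hη₂, hR₀, hnice0⟩ := nice_evD k D η hη
  obtain ⟨Tn, hTn, hnice⟩ := hnice0 δ δ' W A A' B C₂ C₃ hA hB hA' hC₃ hC₃₂
  obtain ⟨H₀, hH₀, hslow⟩ := slow_I k D (ε' / 4) η₂ (by positivity) hη₂
  obtain ⟨Tp, hTp, hph⟩ := ph_gap C₁ hC₁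
  obtain ⟨M, hM1, hM⟩ := BlockI_M A' M₂ R₀ R₁ hA'1 (by linarith) (by linarith)
  obtain ⟨T₀, hT₀⟩ := Filter.eventually_atTop.1 ((Filter.eventually_ge_atTop Te).and
    ((Filter.eventually_ge_atTop Tn).and ((Filter.eventually_ge_atTop Tp).and
      (BlockI_large k D ε' κ κ₂ A' H₀ M hε' hκκ₂ hκ₂ (by linarith)))))
  refine ⟨ηF, M, max T₀ 20, hηF, hηF1, hM1, le_max_right _ _, ?_⟩
  intro T hTT m cl Λ al a haT haH hm0 hmM hmC hPh hI G hG hGd P hP hPD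
  obtain ⟨hTe', hTn', hTp', hT1, hlog, hMlog, hHH, hsm1, hsm2⟩ :=
    hT₀ T (le_trans (le_max_left _ _) hTT)
  have hT20 : 20 ≤ T := le_trans (le_max_right _ _) hTT
  have hT0 : 0 < T := by linarith
  obtain ⟨H, hHd⟩ : ∃ H : ℝ, H = T ^ (2 * κ₂) := ⟨_, rfl⟩
  rw [← hHd] at haH hHH hsm2 hI ⊢
  have hH0 : 0 < H := by linarith
  have hhd : hT T = 2 * Real.pi / Real.log T := rfl
  have hpi : 3 ≤ Real.pi := Real.pi_gt_three.le
  have hpi2 : Real.pi < 3.15 := Real.pi_lt_d2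
  have hh0 : 0 < hT T := by rw [hhd]; positivity
  have hh1 : hT T ≤ 1 := by
    rw [hhd, div_le_one (by linarith)]
    linarith
  obtain ⟨τ, hτd⟩ : ∃ τ : ℝ, τ = T ^ (-κ₂) / 2 := ⟨_, rfl⟩
  rw [← hτd] at hI hsm2
  have hτ0 : 0 < τ := by rw [hτd]; positivity
  have hτ1 : τ ≤ 1 := by
    have h1 : T ^ (-κ₂) ≤ 1 := Real.rpow_le_one_of_one_le_of_nonpos hT1 (by linarith)
    rw [hτd]
    linarith
  -- the gaps
  obtain ⟨g, hgd⟩ : ∃ g : Fin k → ℝ, ∀ l, g l = (m l.succ : ℝ) - m l.castSucc := ⟨_, fun l => rfl⟩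
  have hgM : ∀ l, M ≤ g l := by
    intro l
    have h1 := hmM l
    rw [hgd]
    linarith
  obtain ⟨x, hxd⟩ : ∃ x : Fin k → ℝ, ∀ l, x l = min (g l) (Real.log T) := ⟨_, fun l => rfl⟩
  have hxM : ∀ l, M ≤ x l := fun l => by
    rw [hxd]
    exact le_min (hgM l) hMlog
  have hxg : ∀ l, x l ≤ g l := fun l => by
    rw [hxd]
    exact min_le_left _ _
  have hxl : ∀ l, x l ≤ Real.log T := fun l => by
    rw [hxd]
    exact min_le_right _ _
  have htol : ∀ l, tolD A' T (g l) = A' * Real.sqrt (Real.log (2 + x l)) := fun l => by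
    unfold tolD
    rw [hxd]
  obtain ⟨ρ, hρd⟩ : ∃ ρ : Fin k → ℝ, ∀ l, ρ l = A' * Real.sqrt (Real.log (2 + x l)) :=
    ⟨_, fun l => rfl⟩
  have htol' : ∀ l : Fin k, tolD A' T ((m l.succ : ℝ) - m l.castSucc) = ρ l := fun l => by
    rw [← hgd, htol, hρd]
  have hρ24 : ∀ l, 24 * ρ l ≤ x l := fun l => by
    rw [hρd]
    exact (hM _ (hxM l)).2.2.1
  have hρR₀ : ∀ l, R₀ ≤ 3 * ρ l := fun l => by
    rw [hρd]
    exact (hM _ (hxM l)).2.2.2.1
  have hρR₁ : ∀ l, R₁ ≤ 3 * ρ l := fun l => by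
    rw [hρd]
    exact (hM _ (hxM l)).2.2.2.2
  have hRpos : ∀ l, 0 < 3 * ρ l := fun l => by
    have := hρR₀ l
    linarith
  have hρlog : ∀ l, ρ l ≤ A' * Real.sqrt (Real.log (2 + Real.log T)) := by
    intro l
    rw [hρd]
    refine mul_le_mul_of_nonneg_left (Real.sqrt_le_sqrt ?_) (by linarith)
    have h1 := (hM _ (hxM l)).2.1
    have h2 := hxl l
    exact Real.log_le_log (by linarith) (by linarith)
  have hmono : Monotone m := Fin.monotone_iff_le_succ.2 fun i => by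
    have h1 := hmM i
    have h2 : ((m i.castSucc : ℕ) : ℝ) ≤ m i.succ := by linarith
    exact_mod_cast h2
  obtain ⟨q, hqD, hqne, hq⟩ := poly_famD k D P hP hPD (hT T) hh0 (fun l => 3 * ρ l) hRpos al
    (fun i => Λ (cl i)) hI.al0 hI.lm0
  -- the sets
  set S₀ : Set ℝ := {t : ℝ | t ∈ Icc a (a + H) ∧ (qe q t = 0 ∨ ∃ s : ℝ, |s - t| ≤ 1 ∧
    η₂ ^ 2 * nr (qe q t) < nr (qe q s - qe q t))} with hS₀
  set S₁ : Set ℝ := {t : ℝ | t ∈ Icc a (a + H) ∧ ∃ v : Fin k → ℤ,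
    (∀ i, |(v i : ℝ)| ≤ 3 * ρ i) ∧
    ‖ev (qe q t) (fun i => (v i : ℝ) / (3 * ρ i))‖ ≤
      η * Real.sqrt (nr (qe q t)) ∧ t ∈ EvD k δ' W T K cl Λ al v} with hS₁
  have hv0 : volume S₀ ≤ ENNReal.ofReal (ε' / 4 * H) := hslow H hHH a q hqD hqne
  have hlogp : ∀ l : Fin k, 0 < Real.log (2 + x l) := fun l => by
    have h1 := (hM _ (hxM l)).2.1
    exact Real.log_pos (by linarith)
  have hv1 := union_I k D a H η ε₃ (C₀ * K ^ k * ∏ l : Fin k, (Real.sqrt (Real.log (2 + x l)))⁻¹)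
    (T ^ κ / τ) hH0 hη.le hε₃.le
    (mul_nonneg (by positivity) (Finset.prod_nonneg fun i _ => inv_nonneg.2 (Real.sqrt_nonneg _)))
    (div_nonneg (Real.rpow_nonneg hT0.le _) hτ0.le) (fun l => 3 * ρ l)
    (fun l => le_trans hR₀ (hρR₀ l)) q hqD hqne
    (by
      intro c hc F hF
      have h1 := hcount (fun l => 3 * ρ l) (fun l => hρR₁ l) (fun _ => 0) c hc F
      simp only [sub_zero] at h1
      exact h1 hF)
    (fun v => EvD k δ' W T K cl Λ al v) (by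
      intro v hv a' b' ha' hab' hb'
      have h1 := hball T hTe' τ a H (fun i => (m i : ℝ)) cl Λ al hI hτ0 hτ1
        (fun l => by
          have h2 := (hM _ (hxM l)).1
          have h3 := hxg l
          rw [hgd] at h3
          linarith)
        (fun l => by
          have h2 : ((m l.castSucc : ℕ) : ℝ) ≤ m l.succ := by
            exact_mod_cast hmono (Fin.castSucc_le_succ l)
          exact (hph T hTp' (m l.castSucc) (m l.succ) a (Nat.cast_nonneg _) h2 (hmC _) haT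
            (by linarith)).1)
        (fun l => 3 * ρ l)
        (fun l => by
          have h2 := hρ24 l
          have h3 := hxg l
          rw [hgd] at h3
          show 3 * ρ l ≤ ((m l.succ : ℝ) - m l.castSucc) / 8
          linarith)
        (by
          have h2 : ∑ l : Fin k, 3 * ρ l ≤
              k * (3 * (A' * Real.sqrt (Real.log (2 + Real.log T)))) := by
            have h3 : ∑ l : Fin k, 3 * ρ l ≤
                ∑ _l : Fin k, 3 * (A' * Real.sqrt (Real.log (2 + Real.log T))) :=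
              Finset.sum_le_sum fun l _ => by
                have := hρlog l
                linarith
            rw [Finset.sum_const, Finset.card_univ, Fintype.card_fin, nsmul_eq_mul] at h3
            exact h3
          exact (mul_le_mul_of_nonneg_left h2 hh0.le).trans hsm1)
        v hv K hK a' b' hab'
      have h2 : ∀ l : Fin k, min ((m l.succ : ℝ) - m l.castSucc) (Real.log T) = x l := fun l => by
        rw [hxd, hgd]
      simp only [h2] at h1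
      exact h1)
  have hprod : C₀ * K ^ k * (∏ l : Fin k, (Real.sqrt (Real.log (2 + x l)))⁻¹) *
      (H * (ε₃ * ∏ l, (3 * ρ l))) = C₀ * K ^ k * (3 * A') ^ k * ε₃ * H := by
    have h1 : (∏ l : Fin k, (Real.sqrt (Real.log (2 + x l)))⁻¹) * ∏ l, (3 * ρ l) =
        (3 * A') ^ k := by
      rw [← Finset.prod_mul_distrib]
      have h2 : ∀ l : Fin k, (Real.sqrt (Real.log (2 + x l)))⁻¹ * (3 * ρ l) = 3 * A' := by
        intro l
        have h5 : 0 < Real.sqrt (Real.log (2 + x l)) := Real.sqrt_pos.2 (hlogp l)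
        rw [hρd]
        field_simp
      rw [Finset.prod_congr rfl fun i _ => h2 i, Finset.prod_const, Finset.card_univ,
        Fintype.card_fin]
    calc C₀ * K ^ k * (∏ l : Fin k, (Real.sqrt (Real.log (2 + x l)))⁻¹) *
          (H * (ε₃ * ∏ l, (3 * ρ l)))
        = C₀ * K ^ k * ((∏ l : Fin k, (Real.sqrt (Real.log (2 + x l)))⁻¹) *
            ∏ l, (3 * ρ l)) * ε₃ * H := by ring
      _ = C₀ * K ^ k * (3 * A') ^ k * ε₃ * H := by rw [h1]
  have hprod2 : ∏ l : Fin k, (2 * (3 * ρ l) + 1) ≤ (Real.log T + 1) ^ k := by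
    calc ∏ l : Fin k, (2 * (3 * ρ l) + 1) ≤ ∏ _l : Fin k, (Real.log T + 1) := by
          refine Finset.prod_le_prod (fun i _ => ?_) fun i _ => ?_
          · have := hRpos i
            linarith
          · have h1 := hρ24 i
            have h2 := hxl i
            have h3 := hRpos i
            linarith
      _ = (Real.log T + 1) ^ k := by
          rw [Finset.prod_const, Finset.card_univ, Fintype.card_fin]
  have hv1' : (volume S₁).toReal ≤ ε' / 2 * H := by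
    refine le_trans hv1 ?_
    rw [hprod]
    have h1 : (2 * (D : ℝ) + 1) * (T ^ κ / τ) * ∏ l : Fin k, (2 * (3 * ρ l) + 1) ≤
        (2 * (D : ℝ) + 1) * (T ^ κ / τ) * (Real.log T + 1) ^ k :=
      mul_le_mul_of_nonneg_left hprod2 (mul_nonneg (by positivity)
        (div_nonneg (Real.rpow_nonneg hT0.le _) hτ0.le))
    have h2 : C₀ * K ^ k * (3 * A') ^ k * ε₃ * H ≤ ε' / 4 * H :=
      mul_le_mul_of_nonneg_right hε₃' hH0.le
    linarith
  have hfin : volume S₁ ≠ ⊤ := by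
    refine ne_top_of_le_ne_top (b := volume (Icc a (a + H))) ?_ (measure_mono fun t ht => ht.1)
    rw [Real.volume_Icc]
    exact ENNReal.ofReal_ne_top
  have hv1'' : volume S₁ ≤ ENNReal.ofReal (ε' / 2 * H) := by
    rw [← ENNReal.ofReal_toReal hfin]
    exact ENNReal.ofReal_le_ofReal hv1'
  have hsub : {t : ℝ | t ∈ Icc a (a + H) ∧
      ∃ n : ℕ, 1 ≤ n ∧ Nice k T B m G n ∧ t ≤ ordinate n ∧ ordinate n ≤ t + hT T ∧
        (∀ i, ordinate (n + m i) + 1 ≤ C₃ * T) ∧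
        MvPolynomial.eval (fun i => ((ordinate (n + m i) : ℝ) : ℂ)) P = 0} ⊆ S₀ ∪ S₁ := by
    rintro t ⟨htI, n, hn1, hn2, hn3, hn4, hn5, hn6⟩
    by_cases h1 : t ∈ S₀
    · exact Or.inl h1
    · refine Or.inr ⟨htI, ?_⟩
      have h2 : nr (qe q (ordinate n) - qe q t) ≤ η₂ ^ 2 * nr (qe q t) := by
        by_contra h3
        refine h1 ⟨htI, Or.inr ⟨ordinate n, ?_, not_le.1 h3⟩⟩
        rw [abs_of_nonneg (by linarith)]
        linarith
      have h4 := hnice T hTn' κ τ ηF a H m cl Λ al haT hI hm0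
        (fun l => hmono (Fin.castSucc_le_succ l))
        (fun l => by
          rw [htol']
          have a1 := hρ24 l
          have a2 := hxg l
          rw [hgd] at a2
          have a3 := hRpos l
          exact ⟨by linarith, hρR₀ l⟩) G hG hGd P q
        (by
          intro s y
          rw [← hq s y]
          simp only [htol']) n t hn1 hn2 htI.1 hn3 hn4 htI.2 hn5
        (fun i => hPh (ordinate n) (by linarith [htI.1]) (by linarith [htI.2]) i) hn6 h2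
      obtain ⟨e, he1, he2, he3⟩ := h4
      simp only [htol'] at he1 he2
      refine ⟨e, he1, he2, ?_⟩
      rw [hKd]
      exact he3
  refine (measure_mono hsub).trans ((measure_union_le _ _).trans ((add_le_add hv0 hv1'').trans ?_))
  rw [← ENNReal.ofReal_add (by positivity) (by positivity)]
  refine ENNReal.ofReal_le_ofReal ?_
  have : 0 ≤ ε' * H := by positivity
  linarith

end Pool.Agent.Lib.MP_ec260d_ntD
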