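import Mathlib

/-!
# JOB Q/Cls: classes of indices and the choice of the scale (about 150 lines)

`cls_exists`: call `l : Fin k` a boundary if `X < m l.succ - m l.castSucc` (then the gap is `≥ Y`).  Let `cl i` be the smallest index `i' ≤ i` such that there is no boundary `l` with `i' ≤ l < i` (as numbers).  Two indices `i ≤ i'` have the same class iff there is no boundary between them; `cl 0 = 0`; `cl (cl i) = cl i`.
`m i - m (cl i)` is a sum of at most `k` gaps `≤ X`.  If `cl i ≠ cl i'`, `i < i'`, there is a boundary `l` between them, and `m i' - m i ≥ m l.succ - m l.castSucc ≥ Y` by monotonicity.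
(Definition by `Fin.induction`: `cl 0 = 0`, `cl l.succ = cl l.castSucc` if the gap is `≤ X` and `cl l.succ = l.succ` otherwise, is convenient.)
`pig`: otherwise for each `j ≤ k` there is `l_j : Fin k` with `T^(1 - A₀ κ_j) < g (l_j) < T^(1 - κ_j)`, `κ_j = κ₀/A₀^j`; by the pigeonhole principle (`Fintype.exists_ne_map_eq_of_card_lt`) `l_j = l_j'` for some `j < j' ≤ k`; but `A₀ κ_j' ≤ κ_j`, so `g < T^(1 - κ_j) ≤ T^(1 - A₀ κ_j') < g`.
-/

namespace Pool.Agent.Lib.MP_ec260d_ntD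

/-- the first index of the class -/
private noncomputable def Cls_cl (k : ℕ) (m : Fin (k + 1) → ℝ) (X : ℝ) (i : Fin (k + 1)) : Fin (k + 1) :=
  Fin.induction (motive := fun _ => Fin (k + 1)) 0
    (fun l c => @ite _ (m l.succ - m l.castSucc ≤ X) (Classical.propDecidable _) c l.succ) i

private theorem Cls_zero (k : ℕ) (m : Fin (k + 1) → ℝ) (X : ℝ) : Cls_cl k m X 0 = 0 := rfl

private theorem Cls_succ_le (k : ℕ) (m : Fin (k + 1) → ℝ) (X : ℝ) (l : Fin k)
    (h : m l.succ - m l.castSucc ≤ X) : Cls_cl k m X l.succ = Cls_cl k m X l.castSucc := by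
  unfold Cls_cl
  rw [Fin.induction_succ]
  exact if_pos h

private theorem Cls_succ_gt (k : ℕ) (m : Fin (k + 1) → ℝ) (X : ℝ) (l : Fin k)
    (h : ¬ m l.succ - m l.castSucc ≤ X) : Cls_cl k m X l.succ = l.succ := by
  unfold Cls_cl
  rw [Fin.induction_succ]
  exact if_neg h

private theorem Cls_le (k : ℕ) (m : Fin (k + 1) → ℝ) (X : ℝ) (i : Fin (k + 1)) :
    Cls_cl k m X i ≤ i := by
  induction i using Fin.induction with
  | zero => exact le_of_eq (Cls_zero k m X)
  | succ l ih =>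
    by_cases h : m l.succ - m l.castSucc ≤ X
    · rw [Cls_succ_le k m X l h]
      exact ih.trans (Fin.castSucc_lt_succ).le
    · rw [Cls_succ_gt k m X l h]

private theorem Cls_idem (k : ℕ) (m : Fin (k + 1) → ℝ) (X : ℝ) (i : Fin (k + 1)) :
    Cls_cl k m X (Cls_cl k m X i) = Cls_cl k m X i := by
  induction i using Fin.induction with
  | zero => rw [Cls_zero, Cls_zero]
  | succ l ih =>
    by_cases h : m l.succ - m l.castSucc ≤ X
    · rw [Cls_succ_le k m X l h]
      exact ih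
    · rw [Cls_succ_gt k m X l h, Cls_succ_gt k m X l h]

private theorem Cls_mono (k : ℕ) (m : Fin (k + 1) → ℝ) (X : ℝ) : Monotone (Cls_cl k m X) := by
  rw [Fin.monotone_iff_le_succ]
  intro l
  by_cases h : m l.succ - m l.castSucc ≤ X
  · rw [Cls_succ_le k m X l h]
  · rw [Cls_succ_gt k m X l h]
    exact (Cls_le k m X _).trans (Fin.castSucc_lt_succ).le

private theorem Cls_dist (k : ℕ) (m : Fin (k + 1) → ℝ) (X : ℝ) (hX : 0 ≤ X) (i : Fin (k + 1)) :
    m i ≤ m (Cls_cl k m X i) + (i : ℕ) * X := by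
  induction i using Fin.induction with
  | zero => rw [Cls_zero]; simp
  | succ l ih =>
    by_cases h : m l.succ - m l.castSucc ≤ X
    · rw [Cls_succ_le k m X l h]
      rw [Fin.val_castSucc] at ih
      rw [Fin.val_succ]
      push_cast
      linarith
    · rw [Cls_succ_gt k m X l h]
      have : (0 : ℝ) ≤ ((l.succ : Fin (k + 1)) : ℕ) * X := by positivity
      linarith

private theorem Cls_gap (k : ℕ) (m : Fin (k + 1) → ℝ) (X Y : ℝ) (hm : Monotone m)
    (hgap : ∀ l : Fin k, m l.succ - m l.castSucc ≤ X ∨ Y ≤ m l.succ - m l.castSucc)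
    (i i' : Fin (k + 1)) (hi : i ≤ i') (hne : Cls_cl k m X i ≠ Cls_cl k m X i') :
    Y ≤ m i' - m i := by
  induction i' using Fin.induction with
  | zero =>
    have : i = 0 := Fin.le_zero_iff.1 hi
    exact absurd (by rw [this]) hne
  | succ l ih =>
    have hil : i ≠ l.succ := fun h => hne (by rw [h])
    have hil2 : i ≤ l.castSucc := by
      have h1 : i < l.succ := lt_of_le_of_ne hi hil
      rw [Fin.le_def, Fin.val_castSucc]
      rw [Fin.lt_def, Fin.val_succ] at h1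
      omega
    by_cases h : m l.succ - m l.castSucc ≤ X
    · rw [Cls_succ_le k m X l h] at hne
      have h1 := ih hil2 hne
      have h2 : m l.castSucc ≤ m l.succ := hm (Fin.castSucc_lt_succ).le
      linarith
    · rcases hgap l with h1 | h1
      · exact absurd h1 h
      · have h2 : m i ≤ m l.castSucc := hm hil2
        linarith

theorem cls_exists (k : ℕ) (m : Fin (k + 1) → ℝ) (X Y : ℝ) (hX : 0 ≤ X) (hm : Monotone m)
    (hgap : ∀ l : Fin k, m l.succ - m l.castSucc ≤ X ∨ Y ≤ m l.succ - m l.castSucc) :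
    ∃ cl : Fin (k + 1) → Fin (k + 1),
      (∀ i i' i'' : Fin (k + 1), i ≤ i' → i' ≤ i'' → cl i = cl i'' → cl i' = cl i) ∧
      (∀ i, cl (cl i) = cl i) ∧ cl 0 = 0 ∧
      (∀ i, m (cl i) ≤ m i ∧ m i ≤ m (cl i) + k * X) ∧
      (∀ i i', cl i ≠ cl i' → Y ≤ |m i - m i'|) := by
  refine ⟨Cls_cl k m X, ?_, Cls_idem k m X, Cls_zero k m X, ?_, ?_⟩
  · intro i i' i'' h1 h2 h3
    exact le_antisymm ((Cls_mono k m X h2).trans (le_of_eq h3.symm)) (Cls_mono k m X h1)
  · intro i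
    refine ⟨hm (Cls_le k m X i), (Cls_dist k m X hX i).trans ?_⟩
    have h1 : ((i : ℕ) : ℝ) ≤ k := by exact_mod_cast Nat.lt_succ_iff.1 i.2
    have h2 : ((i : ℕ) : ℝ) * X ≤ k * X := mul_le_mul_of_nonneg_right h1 hX
    linarith
  · intro i i' hne
    rcases le_total i i' with h | h
    · rw [abs_sub_comm]
      exact (Cls_gap k m X Y hm hgap i i' h hne).trans (le_abs_self _)
    · exact (Cls_gap k m X Y hm hgap i' i h hne.symm).trans (le_abs_self _)

theorem pig (k : ℕ) (A₀ κ₀ T : ℝ) (hA : 1 ≤ A₀) (hκ : 0 < κ₀) (hT : 1 < T) (g : Fin k → ℝ) :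
    ∃ j : ℕ, j ≤ k ∧ ∀ l, g l ≤ T ^ (1 - A₀ * (κ₀ / A₀ ^ j)) ∨ T ^ (1 - κ₀ / A₀ ^ j) ≤ g l := by
  by_contra hcon
  push Not at hcon
  have hch : ∀ j : Fin (k + 1), ∃ l : Fin k, T ^ (1 - A₀ * (κ₀ / A₀ ^ (j : ℕ))) < g l ∧
      g l < T ^ (1 - κ₀ / A₀ ^ (j : ℕ)) := fun j => hcon j (Nat.lt_succ_iff.1 j.2)
  choose f hf1 hf2 using hch
  obtain ⟨j, j', hne, heq⟩ := Fintype.exists_ne_map_eq_of_card_lt f (by simp)
  have key : ∀ a b : Fin (k + 1), a < b → f a = f b → False := by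
    intro a b hab hf
    have hA0 : 0 < A₀ := by linarith
    have h1 : A₀ * (κ₀ / A₀ ^ (b : ℕ)) ≤ κ₀ / A₀ ^ (a : ℕ) := by
      rw [← mul_div_assoc, div_le_div_iff₀ (pow_pos hA0 _) (pow_pos hA0 _)]
      have h2 : A₀ * A₀ ^ (a : ℕ) ≤ A₀ ^ (b : ℕ) := by
        rw [← pow_succ']
        exact pow_le_pow_right₀ hA (Nat.succ_le_of_lt (Fin.lt_def.1 hab))
      calc A₀ * κ₀ * A₀ ^ (a : ℕ) = κ₀ * (A₀ * A₀ ^ (a : ℕ)) := by ring
        _ ≤ κ₀ * A₀ ^ (b : ℕ) := mul_le_mul_of_nonneg_left h2 hκ.le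
    have h3 : T ^ (1 - κ₀ / A₀ ^ (a : ℕ)) ≤ T ^ (1 - A₀ * (κ₀ / A₀ ^ (b : ℕ))) :=
      Real.rpow_le_rpow_of_exponent_le hT.le (by linarith)
    have h4 := hf2 a
    have h5 := hf1 b
    rw [← hf] at h5
    linarith
  rcases lt_or_gt_of_ne hne with h | h
  · exact key j j' h heq
  · exact key j' j h heq.symm

end Pool.Agent.Lib.MP_ec260d_ntD
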