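import Mathlib

/-!
# JOB Q/CoverD: a covering argument (about 120 lines)

Let `J = ⌊(T - 1)/H⌋₊`, `a j = T + j H`.  For `j < J`: `T ≤ a j`, `a j + H + 1 ≤ T + J H + 1 ≤ 2 T`.  `S ⊆ (⋃ j < J, S ∩ Icc (a j) (a j + H)) ∪ Icc (T + J H) (2 T)`, and the last interval has length `T - J H ≤ H + 1` (as `(J + 1) H > T - 1`).
Let `Jb` be the set of the `j < J` with `Icc (a j) (a j + H) ⊆ Bad`.  The sets `Ico (a j) (a j + H)`, `j ∈ Jb`, are disjoint, contained in `Bad`, of measure `H`; so `card Jb * H ≤ ε' T` (`measure_biUnion_finset`).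
For `j ∉ Jb` the hypothesis gives `volume (S ∩ Icc (a j) (a j + H)) ≤ ε' H`.  Sum: `volume S ≤ card Jb * H + J * ε' H + (H + 1) ≤ ε' T + ε' T + H + 1` (`J H ≤ T`).
-/

namespace Pool.Agent.Lib.MP_ec260d_ntD

open Set MeasureTheory

theorem cover_D (T H ε' : ℝ) (hT : 1 ≤ T) (hH : 0 < H) (hε' : 0 ≤ ε') (S Bad : Set ℝ)
    (hS : S ⊆ Icc T (2 * T)) (hBad : volume Bad ≤ ENNReal.ofReal (ε' * T))
    (h : ∀ a : ℝ, T ≤ a → a + H + 1 ≤ 2 * T → (∃ t₀ : ℝ, a ≤ t₀ ∧ t₀ ≤ a + H ∧ t₀ ∉ Bad) →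
      volume (S ∩ Icc a (a + H)) ≤ ENNReal.ofReal (ε' * H)) :
    volume S ≤ ENNReal.ofReal (2 * ε' * T + H + 1) := by
  classical
  set J : ℕ := ⌊(T - 1) / H⌋₊ with hJ
  have hT0 : 0 ≤ T := by linarith
  have hJ1 : (J : ℝ) * H ≤ T - 1 := by
    have h1 : (J : ℝ) ≤ (T - 1) / H := Nat.floor_le (div_nonneg (by linarith) hH.le)
    rwa [le_div_iff₀ hH] at h1
  have hJ2 : T - 1 < ((J : ℝ) + 1) * H := by
    have h1 : (T - 1) / H < (J : ℝ) + 1 := Nat.lt_floor_add_one _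
    rwa [div_lt_iff₀ hH] at h1
  set Jb : Finset ℕ := (Finset.range J).filter
    (fun j => Icc (T + (j : ℝ) * H) (T + (j : ℝ) * H + H) ⊆ Bad) with hJb
  set Jg : Finset ℕ := (Finset.range J).filter
    (fun j => ¬ Icc (T + (j : ℝ) * H) (T + (j : ℝ) * H + H) ⊆ Bad) with hJg
  have hcov : S ⊆ (⋃ j ∈ Finset.range J, S ∩ Icc (T + (j : ℝ) * H) (T + (j : ℝ) * H + H)) ∪
      Icc (T + (J : ℝ) * H) (2 * T) := by
    intro x hx
    obtain ⟨hx1, hx2⟩ := hS hx
    by_cases hxJ : T + (J : ℝ) * H ≤ x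
    · exact Or.inr ⟨hxJ, hx2⟩
    · push Not at hxJ
      left
      have h0 : 0 ≤ (x - T) / H := div_nonneg (by linarith) hH.le
      have h1 : ((⌊(x - T) / H⌋₊ : ℕ) : ℝ) ≤ (x - T) / H := Nat.floor_le h0
      have h2 : (x - T) / H < ((⌊(x - T) / H⌋₊ : ℕ) : ℝ) + 1 := Nat.lt_floor_add_one _
      rw [le_div_iff₀ hH] at h1
      rw [div_lt_iff₀ hH] at h2
      have h3 : (x - T) / H < (J : ℝ) := by
        rw [div_lt_iff₀ hH]
        linarith
      have h4 : ⌊(x - T) / H⌋₊ < J := (Nat.floor_lt h0).2 h3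
      rw [mem_iUnion₂]
      exact ⟨_, Finset.mem_range.2 h4, hx, by linarith, by linarith⟩
  have hbad : (Jb.card : ENNReal) * ENNReal.ofReal H ≤ ENNReal.ofReal (ε' * T) := by
    refine le_trans ?_ hBad
    have h1 : volume (⋃ j ∈ Jb, Ico (T + (j : ℝ) * H) (T + (j : ℝ) * H + H)) =
        ∑ j ∈ Jb, volume (Ico (T + (j : ℝ) * H) (T + (j : ℝ) * H + H)) := by
      refine measure_biUnion_finset ?_ (fun j _ => measurableSet_Ico)
      have key : ∀ i j : ℕ, i < j → Disjoint (Ico (T + (i : ℝ) * H) (T + (i : ℝ) * H + H))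
          (Ico (T + (j : ℝ) * H) (T + (j : ℝ) * H + H)) := by
        intro i j hij
        rw [Set.disjoint_left]
        rintro x ⟨_, hx2⟩ ⟨hx3, _⟩
        have h5 : (i : ℝ) + 1 ≤ (j : ℝ) := by exact_mod_cast hij
        have h6 : ((i : ℝ) + 1) * H ≤ (j : ℝ) * H := mul_le_mul_of_nonneg_right h5 hH.le
        linarith
      intro i _ j _ hij
      rcases lt_or_gt_of_ne hij with h5 | h5
      · exact key i j h5
      · exact (key j i h5).symm
    have h2 : ∀ j ∈ Jb, volume (Ico (T + (j : ℝ) * H) (T + (j : ℝ) * H + H)) = ENNReal.ofReal H := by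
      intro j _
      rw [Real.volume_Ico]
      congr 1
      ring
    rw [Finset.sum_congr rfl h2, Finset.sum_const, nsmul_eq_mul] at h1
    rw [← h1]
    refine measure_mono (iUnion₂_subset fun j hj => ?_)
    exact Ico_subset_Icc_self.trans (Finset.mem_filter.1 hj).2
  have hb : ∀ j ∈ Jb, volume (S ∩ Icc (T + (j : ℝ) * H) (T + (j : ℝ) * H + H)) ≤ ENNReal.ofReal H := by
    intro j _
    refine (measure_mono inter_subset_right).trans ?_
    rw [Real.volume_Icc]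
    apply ENNReal.ofReal_le_ofReal
    linarith
  have hg : ∀ j ∈ Jg, volume (S ∩ Icc (T + (j : ℝ) * H) (T + (j : ℝ) * H + H)) ≤
      ENNReal.ofReal (ε' * H) := by
    intro j hj
    obtain ⟨hj1, hj2⟩ := Finset.mem_filter.1 hj
    rw [not_subset] at hj2
    obtain ⟨t, ⟨ht1, ht2⟩, ht3⟩ := hj2
    have h5 : (j : ℝ) + 1 ≤ (J : ℝ) := by exact_mod_cast Finset.mem_range.1 hj1
    have h6 : ((j : ℝ) + 1) * H ≤ (J : ℝ) * H := mul_le_mul_of_nonneg_right h5 hH.le
    have h7 : 0 ≤ (j : ℝ) * H := by positivity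
    exact h _ (by linarith) (by linarith) ⟨t, ht1, ht2, ht3⟩
  have hJgc : (Jg.card : ℝ) ≤ (J : ℝ) := by
    have h5 := Finset.card_filter_le (Finset.range J)
      (fun j : ℕ => ¬ Icc (T + (j : ℝ) * H) (T + (j : ℝ) * H + H) ⊆ Bad)
    rw [Finset.card_range] at h5
    exact_mod_cast h5
  have hsum : ∑ j ∈ Finset.range J, volume (S ∩ Icc (T + (j : ℝ) * H) (T + (j : ℝ) * H + H)) ≤
      ENNReal.ofReal (ε' * T) + ENNReal.ofReal (ε' * T) := by
    rw [← Finset.sum_filter_add_sum_filter_not (Finset.range J)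
      (fun j : ℕ => Icc (T + (j : ℝ) * H) (T + (j : ℝ) * H + H) ⊆ Bad)]
    refine add_le_add ?_ ?_
    · refine (Finset.sum_le_sum hb).trans ?_
      rw [Finset.sum_const, nsmul_eq_mul]
      exact hbad
    · refine (Finset.sum_le_sum hg).trans ?_
      rw [Finset.sum_const, nsmul_eq_mul, ← ENNReal.ofReal_natCast,
        ← ENNReal.ofReal_mul (Nat.cast_nonneg _)]
      apply ENNReal.ofReal_le_ofReal
      have h5 : (Jg.card : ℝ) * (ε' * H) ≤ (J : ℝ) * (ε' * H) :=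
        mul_le_mul_of_nonneg_right hJgc (mul_nonneg hε' hH.le)
      have h6 : ε' * ((J : ℝ) * H) ≤ ε' * T := mul_le_mul_of_nonneg_left (by linarith) hε'
      linarith [mul_left_comm (J : ℝ) ε' H]
  calc volume S ≤ volume ((⋃ j ∈ Finset.range J, S ∩ Icc (T + (j : ℝ) * H) (T + (j : ℝ) * H + H)) ∪
      Icc (T + (J : ℝ) * H) (2 * T)) := measure_mono hcov
    _ ≤ volume (⋃ j ∈ Finset.range J, S ∩ Icc (T + (j : ℝ) * H) (T + (j : ℝ) * H + H)) +
        volume (Icc (T + (J : ℝ) * H) (2 * T)) := measure_union_le _ _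
    _ ≤ (ENNReal.ofReal (ε' * T) + ENNReal.ofReal (ε' * T)) + ENNReal.ofReal (H + 1) := by
        refine add_le_add ((measure_biUnion_finset_le _ _).trans hsum) ?_
        rw [Real.volume_Icc]
        apply ENNReal.ofReal_le_ofReal
        linarith
    _ = ENNReal.ofReal (2 * ε' * T + H + 1) := by
        have h1 : 0 ≤ ε' * T := mul_nonneg hε' hT0
        rw [← ENNReal.ofReal_add h1 h1, ← ENNReal.ofReal_add (add_nonneg h1 h1) (by linarith)]
        congr 1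
        ring

end Pool.Agent.Lib.MP_ec260d_ntD
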