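import Mathlib
import Pool.Agent.Lib.MP_ec260d_ntD.I.OneC
import Pool.Agent.Lib.MP_ec260d_ntD.P.PhB
import Pool.Agent.Lib.MP_ec260d_ntD.Q.DDefs
import Pool.Agent.Lib.MP_ec260d_ntD.R.ResOne

/-!
# JOB Q/GoodSetD: the good set of heights on `[T, C₂ T]` (about 400 lines)

Model: `good_set` in `Lib/MP_ec260d_ntB/Q/GoodSet.lean`.  Let `C₂'` be given by `ph_le_C (2 C₁)`, `C₂ = 3 C₃ + 2 C₂' C₃ + ...`: for `T ≤ t ≤ C₃ T`, `0 ≤ m ≤ 2 C₁ T log T`: `Ph m t ≤ C₂' t ≤ C₂ T - 1` (apply `ph_le_C` with `T := t`: `m ≤ 2 C₁ t log t`).  `ε₁ = ε/(40 (k + 1))`.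
`one_C ε₁ C₂` gives `δ₁`; `δ = min δ₁ (1/100)`, `W = W₀`, `K` and for each large `T` the set `G₁ ⊆ [T, C₂ T]`.  `L = max (2B + 4) (Cc + 1)`, `Cc` from `ph_const C₃`.  `y_blockC k C₂ L ε₁` gives `δ₁'`; `δ' = min δ (min δ₁' δb)`.
`y_oscC, y_flatC` (with `C₂, L, ε₁`), `y_incC` (with `C = 20`), `y_absC` give constants `A₁, A₂, A₃, A₄`.  `A = K + A₁ + A₂ + 1`, `A' = max (200 (A + B + 1)) (8 (A₁ + 2 A₃ + 2 A₄))`, `ρ_l = tolD A' T (g l)`; `M₁` with `A' sqrt (log (2 + x)) ≤ x` for `x ≥ M₁` (then `0 ≤ g l - ρ_l`, `g l + ρ_l ≤ 2 g l ≤ 2 C₁ T log T`).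
Bad set (outer measures; all for `t ∈ Icc T (C₂ T)`): (1) the complement of `G₁`; (2) the sets of `y_oscC, y_flatC, y_blockC`, `y_absC`;
(3) for each `l` and sign, `m = g l ± ρ_l`: `{t ∈ Icc T (C₃ T) : Ph m t ∈ Icc T (C₂ T) \ G₁}`: the map `Ph m` satisfies `|Ph m t - Ph m t'| ≥ (1/2)|t - t'|` on `[T, C₃ T]` (`ph_deriv`, `slp m t = log (t/(2π))/omv (LL t + m) = log (t/(2π))/log (Ph m t/(2π)) ≥ 1/2` for large `T`; mean value theorem), so by `vol_expand` (ResOne.lean) the measure is `≤ 2 ε₁ T`;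
(4) far gaps `g l > log T`: the preimage under `Ph m` of the set of `y_absC`: measure `≤ 2 ε₁ T`; then `|YY (Ph m t) - YY t| ≤ 2 A₄ sqrt (log (log T)) ≤ ρ_l/4` (`ρ_l = A' sqrt (log (2 + log T))`);
(5) near gaps `g l ≤ log T`: `m ≤ 2 log T`, `|Ph m t - t - u₀| ≤ Cc hT T` with the constant `u₀ = hT T * m ≤ 4π ≤ 20` (`ph_const C₃`): the translates `{t : t + u₀ ∈ osc-bad set}` (note `t + u₀ ∈ Icc T (C₂ T)`) and the set of `y_incC` for `u₀`; then `|YY (Ph m t) - YY t| ≤ A₁ + A₃ sqrt (log (2 + u₀ log T))`, `u₀ log T = 2π m ≤ 4π g l`, `log (2 + 4π x) ≤ 4 log (2 + x)`, so it is `≤ A₁ + 2 A₃ sqrt (log (2 + g l)) ≤ ρ_l/4` (`min (g l) (log T) = g l`, `sqrt (log (2 + g l)) ≥ 1`).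
Number of sets `≤ 5 + 8 k ≤ 20 (k + 1)`, each of outer measure `≤ 2 ε₁ T`: total `≤ ε T`.  `G = G₁ \ toMeasurable volume U` as in the model.  `GoodD.one` from `G₁`, `K ≤ A`; the first bound of `DispD` from `t, Ph m t ∈ G₁` and `t ≤ Ph m t` (`ph_ge`).
-/

namespace Pool.Agent.Lib.MP_ec260d_ntD

open Set MeasureTheory
open Pool.Agent.Lib.MP_ec260d_ntB hiding y_oscC y_flatC y_blockC y_incC y_absC y_parC


private theorem gsd_e {t : ℝ} (ht : 20 ≤ t) : 2 * Real.pi * Real.exp 1 ≤ t := by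
  have h1 : Real.exp 1 < 2.7182818286 := Real.exp_one_lt_d9
  have h2 : Real.pi < 3.15 := Real.pi_lt_d2
  have h3 := Real.pi_pos
  have h4 := Real.exp_pos 1
  nlinarith

private theorem gsd_tol {A' T x : ℝ} (hA : 0 ≤ A') (hx : A' ^ 2 + 1 ≤ x) (hT : 0 ≤ Real.log T) :
    tolD A' T x ≤ x := by
  have hx1 : 1 ≤ x := by nlinarith [sq_nonneg A']
  have hm : min x (Real.log T) ≤ x := min_le_left _ _
  have hm0 : 0 ≤ min x (Real.log T) := le_min (by linarith) hT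
  have h1 : Real.log (2 + min x (Real.log T)) ≤ 1 + x := by
    have := Real.log_le_sub_one_of_pos (show (0 : ℝ) < 2 + min x (Real.log T) by linarith)
    linarith
  unfold tolD
  have h2 : A' * Real.sqrt (Real.log (2 + min x (Real.log T))) ≤ A' * Real.sqrt (1 + x) :=
    mul_le_mul_of_nonneg_left (Real.sqrt_le_sqrt h1) hA
  refine h2.trans ?_
  have h3 : A' * Real.sqrt (1 + x) = Real.sqrt (A' ^ 2 * (1 + x)) := by
    rw [Real.sqrt_mul (sq_nonneg A'), Real.sqrt_sq hA]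
  rw [h3]
  refine Real.sqrt_le_iff.2 ⟨by linarith, ?_⟩
  nlinarith [sq_nonneg A']

private theorem gsd_log {x w : ℝ} (hx : 1 ≤ x) (hw : w ≤ 4 * Real.pi * x) (hw0 : 0 ≤ w) :
    Real.sqrt (Real.log (2 + w)) ≤ 2 * Real.sqrt (Real.log (2 + x)) := by
  have hpi : Real.pi < 3.15 := Real.pi_lt_d2
  have h1 : 2 + w ≤ (2 + x) ^ 4 := by
    have h2 : 2 + w ≤ 27 * (2 + x) := by nlinarith
    have h3 : (3 : ℝ) ^ 3 ≤ (2 + x) ^ 3 := pow_le_pow_left₀ (by norm_num) (by linarith) 3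
    calc 2 + w ≤ 27 * (2 + x) := h2
      _ = 3 ^ 3 * (2 + x) := by norm_num
      _ ≤ (2 + x) ^ 3 * (2 + x) := mul_le_mul_of_nonneg_right h3 (by linarith)
      _ = (2 + x) ^ 4 := by ring
  have h2 : Real.log (2 + w) ≤ 4 * Real.log (2 + x) := by
    have h3 := Real.log_le_log (by linarith) h1
    rw [Real.log_pow] at h3
    exact_mod_cast h3
  have h4 : Real.sqrt (4 * Real.log (2 + x)) = 2 * Real.sqrt (Real.log (2 + x)) := by
    rw [Real.sqrt_mul (by norm_num)]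
    congr 1
    rw [show (4 : ℝ) = 2 ^ 2 by norm_num, Real.sqrt_sq (by norm_num)]
  rw [← h4]
  exact Real.sqrt_le_sqrt h2

private theorem gsd_one {x : ℝ} (hx : 1 ≤ x) : 1 ≤ Real.sqrt (Real.log (2 + x)) := by
  rw [Real.le_sqrt' one_pos, one_pow, Real.le_log_iff_exp_le (by linarith)]
  have h1 : Real.exp 1 < 2.7182818286 := Real.exp_one_lt_d9
  linarith

private theorem gsd_expand {m T S : ℝ} (hm : 0 ≤ m) (hT : 20 ≤ T)
    (h : ∀ t, T ≤ t → 1 / 2 ≤ slp m t) : ∀ x ∈ Icc T S, ∀ y ∈ Icc T S,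
      1 / 2 * |x - y| ≤ |Ph m x - Ph m y| := by
  have key : ∀ x y : ℝ, T ≤ x → x ≤ y → 1 / 2 * (y - x) ≤ Ph m y - Ph m x := by
    intro x y hx hxy
    rcases hxy.eq_or_lt with h1 | h1
    · rw [h1]
      simp
    · obtain ⟨ξ, hξ, h2⟩ := exists_hasDerivAt_eq_slope (Ph m) (slp m) h1
        (fun z hz => (ph_deriv hm (gsd_e (hT.trans (hx.trans hz.1)))).continuousAt.continuousWithinAt)
        (fun z hz => ph_deriv hm (gsd_e (hT.trans (hx.trans hz.1.le))))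
      have h3 := h ξ (hx.trans hξ.1.le)
      rw [h2, le_div_iff₀ (by linarith)] at h3
      exact h3
  intro x hx y hy
  rcases le_total x y with h1 | h1
  · have h2 := key x y hx.1 h1
    rw [abs_sub_comm x y, abs_sub_comm (Ph m x), abs_of_nonneg (by linarith : 0 ≤ y - x)]
    exact h2.trans (le_abs_self _)
  · have h2 := key y x hy.1 h1
    rw [abs_of_nonneg (by linarith : 0 ≤ x - y)]
    exact h2.trans (le_abs_self _)

private theorem gsd_mul {C T t : ℝ} (hC : 0 ≤ C) (hT : 1 ≤ T) (ht : T ≤ t) :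
    C * (T * Real.log T) ≤ C * (t * Real.log t) := by
  have h1 : 0 ≤ Real.log T := Real.log_nonneg hT
  have h2 : Real.log T ≤ Real.log t := Real.log_le_log (by linarith) ht
  exact mul_le_mul_of_nonneg_left (mul_le_mul ht h2 h1 (by linarith)) hC

theorem good_setD (k : ℕ) (C₁ C₃ ε δb B : ℝ) (hC₁ : 0 ≤ C₁) (hC₃ : 1 ≤ C₃) (hε : 0 < ε) (hδb : 0 < δb)
    (hB : 1 ≤ B) : ∃ C₂ δ δ' W A A' M₁ T₀ : ℝ, 3 * C₃ ≤ C₂ ∧ 0 < δ ∧ 0 < δ' ∧ δ' ≤ δb ∧ 1 ≤ W ∧ 1 ≤ A ∧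
      200 * (A + B + 1) ≤ A' ∧ 1 ≤ M₁ ∧ 20 ≤ T₀ ∧ ∀ T : ℝ, T₀ ≤ T → ∀ g : Fin k → ℝ,
        (∀ l, M₁ ≤ g l ∧ g l ≤ C₁ * (T * Real.log T)) →
        ∃ G : Set ℝ, MeasurableSet G ∧ volume (Icc T (C₂ * T) \ G) ≤ ENNReal.ofReal (ε * T) ∧
          GoodD k δ δ' W T A B C₂ G ∧
          ∀ t ∈ G, t ≤ C₃ * T → ∀ l, DispD δ W T A (g l) (tolD A' T (g l)) t := by
  classical
  have hk0 : (0 : ℝ) ≤ k := Nat.cast_nonneg k
  have h2C₁ : 0 ≤ 2 * C₁ := by linarith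
  obtain ⟨ε₁, hε₁⟩ : ∃ ε₁ : ℝ, ε₁ = ε / (40 * ((k : ℝ) + 1)) := ⟨_, rfl⟩
  have hε₁0 : 0 < ε₁ := by rw [hε₁]; positivity
  obtain ⟨C₂', T₁, hC₂', hT₁, hle⟩ := ph_le_C (2 * C₁) h2C₁
  obtain ⟨T₂, hT₂, hslp⟩ := slp_range (2 * C₁) h2C₁
  obtain ⟨Cc, T₃, hCc, hT₃, hcon⟩ := ph_const C₃ hC₃
  obtain ⟨C₂, hC₂d⟩ : ∃ C₂ : ℝ, C₂ = 3 * C₃ + C₂' * C₃ := ⟨_, rfl⟩
  have hC₂'C₃ : 0 ≤ C₂' * C₃ := mul_nonneg (by linarith) (by linarith)
  have hC₂3 : 3 * C₃ ≤ C₂ := by linarith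
  have hC₂1 : 1 ≤ C₂ := by linarith
  obtain ⟨δ₁, hδ₁, h1⟩ := one_C ε₁ C₂ hε₁0 hC₂1
  obtain ⟨δ, hδd⟩ : ∃ δ : ℝ, δ = min δ₁ (1 / 100) := ⟨_, rfl⟩
  have hδ0 : 0 < δ := by rw [hδd]; exact lt_min hδ₁ (by norm_num)
  have hδ1 : δ ≤ δ₁ := by rw [hδd]; exact min_le_left _ _
  have hδ100 : δ ≤ 1 / 100 := by rw [hδd]; exact min_le_right _ _
  obtain ⟨W, hW, h2⟩ := h1 δ hδ0 hδ1
  obtain ⟨K, Ta, hK, hTa, h3⟩ := h2 W le_rfl
  obtain ⟨L, hL⟩ : ∃ L : ℝ, L = max (2 * B + 4) (Cc + 1) := ⟨_, rfl⟩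
  have hL1 : 2 * B + 4 ≤ L := by rw [hL]; exact le_max_left _ _
  have hL2 : Cc + 1 ≤ L := by rw [hL]; exact le_max_right _ _
  have hL0 : 0 ≤ L := by linarith
  obtain ⟨δ₁', hδ₁', h4⟩ := y_blockC k C₂ L ε₁ hC₂1 hL0 hε₁0
  obtain ⟨δ', hδ'd⟩ : ∃ δ' : ℝ, δ' = min δ (min δ₁' δb) := ⟨_, rfl⟩
  have hδ'0 : 0 < δ' := by rw [hδ'd]; exact lt_min hδ0 (lt_min hδ₁' hδb)
  have hδ'δ : δ' ≤ δ := by rw [hδ'd]; exact min_le_left _ _
  have hδ'1 : δ' ≤ δ₁' := by rw [hδ'd]; exact (min_le_right _ _).trans (min_le_left _ _)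
  have hδ'b : δ' ≤ δb := by rw [hδ'd]; exact (min_le_right _ _).trans (min_le_right _ _)
  obtain ⟨Tb, hTb, h5⟩ := h4 δ' hδ'0 hδ'1 W hW
  obtain ⟨A₁, Tc, hA₁, hTc, h6⟩ := y_oscC δ W C₂ L ε₁ hδ0 hδ100 hW hC₂1 hL0 hε₁0
  obtain ⟨A₂, Td, hA₂, hTd, h7⟩ := y_flatC δ δ' W C₂ L ε₁ hδ0 hδ100 hδ'0 hδ'δ hW hC₂1 hL0 hε₁0
  obtain ⟨A₃, Te, hA₃, hTe, h8⟩ := y_incC δ W 20 C₂ ε₁ hδ0 hδ100 hW (by norm_num) hC₂1 hε₁0
  obtain ⟨A₄, Tf, hA₄, hTf, h9⟩ := y_absC δ W C₂ ε₁ hδ0 hδ100 hW hC₂1 hε₁0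
  have hpi := Real.pi_pos
  obtain ⟨A, hA⟩ : ∃ A : ℝ, A = K + A₁ + A₂ + 1 := ⟨_, rfl⟩
  obtain ⟨A', hA'⟩ : ∃ A' : ℝ, A' = max (200 * (A + B + 1)) (8 * (A₁ + 2 * A₃ + 2 * A₄)) :=
    ⟨_, rfl⟩
  have hA1 : 1 ≤ A := by rw [hA]; linarith
  have hA'1 : 200 * (A + B + 1) ≤ A' := by rw [hA']; exact le_max_left _ _
  have hA'3 : 8 * (A₁ + 2 * A₃ + 2 * A₄) ≤ A' := by rw [hA']; exact le_max_right _ _
  have hA'0 : 0 ≤ A' := by linarith
  refine ⟨C₂, δ, δ', W, A, A', A' ^ 2 + 1, T₁ + T₂ + T₃ + Ta + Tb + Tc + Td + Te + Tf, hC₂3, hδ0,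
    hδ'0, hδ'b, hW, hA1, hA'1, by linarith only [sq_nonneg A'], by linarith, ?_⟩
  intro T hTT g hg
  have hT20 : 20 ≤ T := by linarith
  have hT0 : 0 < T := by linarith
  have hlog1 : 1 ≤ Real.log T := by
    rw [Real.le_log_iff_exp_le hT0]
    have := Real.exp_one_lt_d9
    linarith
  have hlog0 : 0 < Real.log T := by linarith
  have hh0 : 0 < hT T := by
    unfold hT
    positivity
  have hhlog : hT T * Real.log T = 2 * Real.pi := by
    unfold hT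
    field_simp
  have hx0 : 0 ≤ ε₁ * T := mul_nonneg hε₁0.le hT0.le
  -- the displacements
  have hg1 : ∀ l, 1 ≤ g l := fun l => by
    have := (hg l).1
    linarith only [this, sq_nonneg A']
  obtain ⟨ρ, hρ⟩ : ∃ ρ : Fin k → ℝ, ρ = fun l => tolD A' T (g l) := ⟨_, rfl⟩
  have hρ0 : ∀ l, 0 ≤ ρ l := fun l => by
    rw [hρ]
    exact mul_nonneg hA'0 (Real.sqrt_nonneg _)
  have hρx : ∀ l, ρ l ≤ g l := fun l => by
    rw [hρ]
    exact gsd_tol hA'0 (hg l).1 hlog0.le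
  obtain ⟨m, hm⟩ : ∃ m : Fin k × Bool → ℝ, m = fun p => if p.2 then g p.1 + ρ p.1 else g p.1 - ρ p.1 :=
    ⟨_, rfl⟩
  have hm0 : ∀ p, 0 ≤ m p := by
    intro p
    have a1 := hρ0 p.1
    have a2 := hρx p.1
    have a3 := hg1 p.1
    rw [hm]
    simp only []
    split_ifs <;> linarith
  have hmg : ∀ p, m p ≤ 2 * g p.1 := by
    intro p
    have a1 := hρ0 p.1
    have a2 := hρx p.1
    have a3 := hg1 p.1
    rw [hm]
    simp only []
    split_ifs <;> linarith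
  have hmC : ∀ p, m p ≤ 2 * C₁ * (T * Real.log T) := by
    intro p
    have a1 := hmg p
    have a2 := (hg p.1).2
    linarith
  have hmt : ∀ p, ∀ t, T ≤ t → m p ≤ 2 * C₁ * (t * Real.log t) := fun p t ht =>
    (hmC p).trans (gsd_mul h2C₁ (by linarith) ht)
  have hexp : ∀ p, ∀ x ∈ Icc T (C₃ * T), ∀ y ∈ Icc T (C₃ * T),
      1 / 2 * |x - y| ≤ |Ph (m p) x - Ph (m p) y| := fun p =>
    gsd_expand (hm0 p) hT20 fun t ht =>
      (hslp t (by linarith) (m p) t (hm0 p) (hmt p t ht) le_rfl (by linarith)).1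
  have hup : ∀ p, ∀ t, T ≤ t → t ≤ C₃ * T → Ph (m p) t ≤ C₂ * T := by
    intro p t ht ht3
    have a1 := hle t (by linarith) (m p) t (hm0 p) (hmt p t ht) le_rfl (by linarith)
    have a2 : C₂' * t ≤ C₂' * (C₃ * T) := mul_le_mul_of_nonneg_left ht3 (by linarith)
    have a3 : 0 ≤ 3 * C₃ * T := by positivity
    rw [hC₂d]
    linarith
  obtain ⟨u, hu⟩ : ∃ u : Fin k × Bool → ℝ, u = fun p => if g p.1 ≤ Real.log T then hT T * m p else 0 :=
    ⟨_, rfl⟩
  have hu0 : ∀ p, 0 ≤ u p ∧ u p ≤ 20 := by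
    intro p
    rw [hu]
    simp only []
    split_ifs with h10
    · refine ⟨mul_nonneg hh0.le (hm0 p), ?_⟩
      have a1 : m p ≤ 2 * Real.log T := by linarith [hmg p]
      have a2 : hT T * m p ≤ hT T * (2 * Real.log T) := mul_le_mul_of_nonneg_left a1 hh0.le
      have a3 : hT T * (2 * Real.log T) = 4 * Real.pi := by
        rw [show hT T * (2 * Real.log T) = 2 * (hT T * Real.log T) by ring, hhlog]
        ring
      have a4 := Real.pi_lt_d2
      linarith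
    · exact ⟨le_rfl, by norm_num⟩
  obtain ⟨G₁, hG₁m, hG₁s, hG₁v, hG₁⟩ := h3 T (by linarith)
  have v2 := h6 T (by linarith)
  have v3 := h7 T (by linarith)
  have v4 := h5 T (by linarith)
  have v5 := h8 T (by linarith)
  have v6 := h9 T (by linarith)
  obtain ⟨e, he⟩ : ∃ e : ENNReal, e = ENNReal.ofReal (ε₁ * T) := ⟨_, rfl⟩
  rw [← he] at hG₁v v2 v3 v4 v6
  have hex : ∀ p, ∀ Bs : Set ℝ, volume Bs ≤ e →
      volume (Icc T (C₃ * T) ∩ Ph (m p) ⁻¹' Bs) ≤ e + e := by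
    intro p Bs hBs
    refine (vol_expand (Ph (m p)) (Icc T (C₃ * T)) Bs (1 / 2) (by norm_num) (hexp p)).trans ?_
    have a1 : ENNReal.ofReal (1 / 2 : ℝ)⁻¹ = 2 := by
      rw [show ((1 / 2 : ℝ))⁻¹ = 2 by norm_num]
      exact ENNReal.ofReal_ofNat 2
    rw [a1, two_mul]
    exact add_le_add hBs hBs
  -- the bad sets
  obtain ⟨U1, hU1⟩ : ∃ U : Set ℝ, U = {t : ℝ | t ∈ Icc T (C₂ * T) ∧ ∃ s : ℝ,
      |s - t| ≤ L * hT T ∧ A₁ < |YY δ W T s - YY δ W T t|} := ⟨_, rfl⟩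
  obtain ⟨U2, hU2⟩ : ∃ U : Set ℝ, U = {t : ℝ | t ∈ Icc T (C₂ * T) ∧ ∃ s : ℝ,
      |s - t| ≤ L * hT T ∧
        A₂ < |YY δ W T s - ∑ j ∈ Finset.range (JJ T), YB δ' W T j s|} := ⟨_, rfl⟩
  obtain ⟨U3, hU3⟩ : ∃ U : Set ℝ, U = {t : ℝ | t ∈ Icc T (C₂ * T) ∧ ∃ s : ℝ,
      |s - t| ≤ L * hT T ∧
        ∃ j ∈ Finset.range (JJ T), (dd δ' j : ℝ) / (100 * ((k : ℝ) + 1)) < |YB δ' W T j s|} :=
    ⟨_, rfl⟩
  obtain ⟨U4, hU4⟩ : ∃ U : Set ℝ, U = {t : ℝ | t ∈ Icc T (C₂ * T) ∧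
      A₄ * Real.sqrt (Real.log (Real.log T)) < |YY δ W T t|} := ⟨_, rfl⟩
  rw [← hU1] at v2
  rw [← hU2] at v3
  rw [← hU3] at v4
  rw [← hU4] at v6
  obtain ⟨V, hV⟩ : ∃ V : Fin k × Bool → Set ℝ, V = fun p => {t : ℝ | t ∈ Icc T (C₂ * T) ∧
      A₃ * Real.sqrt (Real.log (2 + u p * Real.log T)) <
        |YY δ W T (t + u p) - YY δ W T t|} := ⟨_, rfl⟩
  have w5 : ∀ p, volume (V p) ≤ e := by
    intro p
    rw [hV, he]
    exact v5 _ (hu0 p).1 (hu0 p).2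
  obtain ⟨V', hV'⟩ : ∃ V' : Fin k × Bool → Set ℝ, V' = fun p => (fun t => t + u p) ⁻¹' U1 :=
    ⟨_, rfl⟩
  have w6 : ∀ p, volume (V' p) ≤ e := by
    intro p
    rw [hV']
    simp only []
    rw [measure_preimage_add_right]
    exact v2
  obtain ⟨X, hX⟩ : ∃ X : Fin k × Bool → Set ℝ, X = fun p =>
      Icc T (C₃ * T) ∩ Ph (m p) ⁻¹' (Icc T (C₂ * T) \ G₁) := ⟨_, rfl⟩
  have w7 : ∀ p, volume (X p) ≤ e + e := by
    intro p
    rw [hX]
    exact hex p _ hG₁v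
  obtain ⟨X', hX'⟩ : ∃ X' : Fin k × Bool → Set ℝ, X' = fun p =>
      Icc T (C₃ * T) ∩ Ph (m p) ⁻¹' U4 := ⟨_, rfl⟩
  have w8 : ∀ p, volume (X' p) ≤ e + e := by
    intro p
    rw [hX']
    exact hex p _ v6
  obtain ⟨U, hU⟩ : ∃ U : Set ℝ, U = ((U1 ∪ U2) ∪ (U3 ∪ U4)) ∪
      ⋃ p, ((V p ∪ V' p) ∪ (X p ∪ X' p)) := ⟨_, rfl⟩
  have hUv : volume U ≤ ((e + e) + (e + e)) +
      ∑ _p : Fin k × Bool, ((e + e) + ((e + e) + (e + e))) := by
    rw [hU]
    refine (measure_union_le _ _).trans (add_le_add ?_ ?_)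
    · refine (measure_union_le _ _).trans (add_le_add ?_ ?_)
      · exact (measure_union_le _ _).trans (add_le_add v2 v3)
      · exact (measure_union_le _ _).trans (add_le_add v4 v6)
    · refine (measure_iUnion_fintype_le _ _).trans (Finset.sum_le_sum fun p _ => ?_)
      refine (measure_union_le _ _).trans (add_le_add ?_ ?_)
      · exact (measure_union_le _ _).trans (add_le_add (w5 p) (w6 p))
      · exact (measure_union_le _ _).trans (add_le_add (w7 p) (w8 p))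
  have hnot : ∀ t, t ∉ toMeasurable volume U → t ∉ U := fun t ht h => ht (subset_toMeasurable _ _ h)
  refine ⟨G₁ \ toMeasurable volume U, hG₁m.diff (measurableSet_toMeasurable _ _), ?_, ?_, ?_⟩
  · -- the measure
    have hsub : Icc T (C₂ * T) \ (G₁ \ toMeasurable volume U) ⊆
        (Icc T (C₂ * T) \ G₁) ∪ toMeasurable volume U := by
      intro t ht
      by_cases h9 : t ∈ G₁
      · right
        by_contra h10
        exact ht.2 ⟨h9, h10⟩
      · left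
        exact ⟨ht.1, h9⟩
    refine (measure_mono hsub).trans ((measure_union_le _ _).trans ?_)
    rw [measure_toMeasurable]
    refine (add_le_add hG₁v hUv).trans ?_
    rw [Finset.sum_const, Finset.card_univ, Fintype.card_prod, Fintype.card_fin, Fintype.card_bool,
      he]
    have e2 : ENNReal.ofReal (ε₁ * T) + ENNReal.ofReal (ε₁ * T) = ENNReal.ofReal (2 * (ε₁ * T)) := by
      rw [← ENNReal.ofReal_add hx0 hx0]
      congr 1
      ring
    have e4 : ENNReal.ofReal (2 * (ε₁ * T)) + ENNReal.ofReal (2 * (ε₁ * T)) =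
        ENNReal.ofReal (4 * (ε₁ * T)) := by
      rw [← ENNReal.ofReal_add (by linarith) (by linarith)]
      congr 1
      ring
    have e6 : ENNReal.ofReal (2 * (ε₁ * T)) + ENNReal.ofReal (4 * (ε₁ * T)) =
        ENNReal.ofReal (6 * (ε₁ * T)) := by
      rw [← ENNReal.ofReal_add (by linarith) (by linarith)]
      congr 1
      ring
    rw [e2, e4, e6, nsmul_eq_mul, ← ENNReal.ofReal_natCast, ← ENNReal.ofReal_mul (Nat.cast_nonneg _),
      ← ENNReal.ofReal_add (by linarith) (mul_nonneg (Nat.cast_nonneg _) (by linarith)),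
      ← ENNReal.ofReal_add hx0 (add_nonneg (by linarith)
        (mul_nonneg (Nat.cast_nonneg _) (by linarith)))]
    apply ENNReal.ofReal_le_ofReal
    have e1 : ε * T = 40 * ((k : ℝ) + 1) * (ε₁ * T) := by
      rw [hε₁]
      field_simp
    rw [e1]
    push_cast
    linarith only [mul_nonneg hk0 hx0, hx0]
  · -- the good properties
    have hIcc : ∀ t ∈ G₁ \ toMeasurable volume U, t ∈ Icc T (C₂ * T) := fun t ht => hG₁s ht.1
    have hLh : (2 * B + 4) * hT T ≤ L * hT T := mul_le_mul_of_nonneg_right hL1 hh0.le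
    refine ⟨fun t ht => hG₁s ht.1, ?_, ?_, ?_, ?_⟩
    · intro t₁ ht₁ t₂ ht₂ h12
      refine (hG₁ t₁ ht₁.1 t₂ ht₂.1 h12).trans ?_
      rw [hA]
      linarith
    · intro t ht s hs
      by_contra h10
      apply hnot t ht.2
      rw [hU, hU1]
      refine Or.inl (Or.inl (Or.inl ⟨hIcc t ht, s, hs.trans hLh, ?_⟩))
      rw [hA] at h10
      linarith [not_le.1 h10]
    · intro t ht s hs
      by_contra h10
      apply hnot t ht.2
      rw [hU, hU2]
      refine Or.inl (Or.inl (Or.inr ⟨hIcc t ht, s, hs.trans hLh, ?_⟩))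
      rw [hA] at h10
      linarith [not_le.1 h10]
    · intro t ht s hs j hj
      by_contra h10
      apply hnot t ht.2
      rw [hU, hU3]
      exact Or.inl (Or.inr (Or.inl ⟨hIcc t ht, s, hs.trans hLh, j, hj, not_le.1 h10⟩))
  · -- the displacements
    intro t ht ht3 l s hs
    obtain ⟨b, hb⟩ : ∃ b : Bool, s = Ph (m (l, b)) t := by
      rcases hs with h10 | h10
      · exact ⟨true, by rw [h10, hm, hρ]; simp⟩
      · exact ⟨false, by rw [h10, hm, hρ]; simp⟩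
    have htG := hG₁s ht.1
    have hnU := hnot t ht.2
    have hts : t ≤ Ph (m (l, b)) t := ph_ge (hm0 _) (gsd_e (by linarith [htG.1]))
    have hsI : Ph (m (l, b)) t ∈ Icc T (C₂ * T) :=
      ⟨htG.1.trans hts, hup (l, b) t htG.1 ht3⟩
    have hnp : t ∉ ((V (l, b) ∪ V' (l, b)) ∪ (X (l, b) ∪ X' (l, b))) := by
      intro h10
      apply hnU
      rw [hU]
      exact Or.inr (Set.mem_iUnion.2 ⟨(l, b), h10⟩)
    rw [hb]
    constructor
    · have hmem : Ph (m (l, b)) t ∈ G₁ := by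
        by_contra h10
        apply hnp
        refine Or.inr (Or.inl ?_)
        rw [hX]
        exact ⟨⟨htG.1, ht3⟩, hsI, h10⟩
      refine (hG₁ t ht.1 _ hmem hts).trans ?_
      rw [hA]
      linarith
    · by_cases hgl : g l ≤ Real.log T
      · -- near gap
        have hum : u (l, b) = hT T * m (l, b) := by
          rw [hu]
          simp only []
          rw [if_pos hgl]
        have hc := hcon T (by linarith) (m (l, b)) t (hm0 _) (by linarith [hmg (l, b)]) htG.1 ht3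
        rw [← hum] at hc
        have hub := hu0 (l, b)
        have htu : t + u (l, b) ∈ Icc T (C₂ * T) := by
          refine ⟨by linarith [htG.1, hub.1], ?_⟩
          have a1 : t + u (l, b) ≤ C₃ * T + T := by linarith [hub.2]
          have a2 : C₃ * T + T ≤ 3 * C₃ * T := by
            have b1 : 1 * T ≤ C₃ * T := mul_le_mul_of_nonneg_right hC₃ hT0.le
            linarith only [b1, hT0]
          have a3 : 3 * C₃ * T ≤ C₂ * T := mul_le_mul_of_nonneg_right hC₂3 hT0.le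
          linarith
        have d1 : |YY δ W T (Ph (m (l, b)) t) - YY δ W T (t + u (l, b))| ≤ A₁ := by
          by_contra h10
          apply hnp
          refine Or.inl (Or.inr ?_)
          rw [hV', hU1]
          refine ⟨htu, Ph (m (l, b)) t, ?_, not_le.1 h10⟩
          have a1 : Ph (m (l, b)) t - (t + u (l, b)) = Ph (m (l, b)) t - t - u (l, b) := by ring
          rw [a1]
          refine hc.trans (mul_le_mul_of_nonneg_right (by linarith) hh0.le)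
        have d2 : |YY δ W T (t + u (l, b)) - YY δ W T t| ≤
            A₃ * Real.sqrt (Real.log (2 + u (l, b) * Real.log T)) := by
          by_contra h10
          apply hnp
          refine Or.inl (Or.inl ?_)
          rw [hV]
          exact ⟨htG, not_le.1 h10⟩
        have e1 : u (l, b) * Real.log T = 2 * Real.pi * m (l, b) := by
          rw [hum, ← hhlog]
          ring
        have e2 : u (l, b) * Real.log T ≤ 4 * Real.pi * g l := by
          rw [e1]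
          have a1 : 2 * Real.pi * m (l, b) ≤ 2 * Real.pi * (2 * g l) :=
            mul_le_mul_of_nonneg_left (hmg (l, b)) (by positivity)
          linarith
        have e3 := gsd_log (hg1 l) e2 (mul_nonneg hub.1 hlog0.le)
        have e4 := gsd_one (hg1 l)
        have e5 : tolD A' T (g l) = A' * Real.sqrt (Real.log (2 + g l)) := by
          unfold tolD
          rw [min_eq_left hgl]
        rw [e5]
        have d3 := abs_sub_le (YY δ W T (Ph (m (l, b)) t)) (YY δ W T (t + u (l, b))) (YY δ W T t)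
        have d4 : A₃ * Real.sqrt (Real.log (2 + u (l, b) * Real.log T)) ≤
            A₃ * (2 * Real.sqrt (Real.log (2 + g l))) := mul_le_mul_of_nonneg_left e3 (by linarith)
        have d5 : A₁ * 1 ≤ A₁ * Real.sqrt (Real.log (2 + g l)) :=
          mul_le_mul_of_nonneg_left e4 (by linarith)
        have d6 : 8 * (A₁ + 2 * A₃ + 2 * A₄) * Real.sqrt (Real.log (2 + g l)) ≤
            A' * Real.sqrt (Real.log (2 + g l)) := mul_le_mul_of_nonneg_right hA'3 (by linarith)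
        have d7 : 0 ≤ A₄ * Real.sqrt (Real.log (2 + g l)) := mul_nonneg (by linarith) (by linarith)
        have d8 : 0 ≤ A₃ * Real.sqrt (Real.log (2 + g l)) := mul_nonneg (by linarith) (by linarith)
        have d9 : 0 ≤ A₁ * Real.sqrt (Real.log (2 + g l)) := mul_nonneg (by linarith) (by linarith)
        linarith
      · -- far gap
        have d1 : |YY δ W T t| ≤ A₄ * Real.sqrt (Real.log (Real.log T)) := by
          by_contra h10
          apply hnU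
          rw [hU, hU4]
          exact Or.inl (Or.inr (Or.inr ⟨htG, not_le.1 h10⟩))
        have d2 : |YY δ W T (Ph (m (l, b)) t)| ≤ A₄ * Real.sqrt (Real.log (Real.log T)) := by
          by_contra h10
          apply hnp
          refine Or.inr (Or.inr ?_)
          rw [hX', hU4]
          exact ⟨⟨htG.1, ht3⟩, hsI, not_le.1 h10⟩
        have e5 : tolD A' T (g l) = A' * Real.sqrt (Real.log (2 + Real.log T)) := by
          unfold tolD
          rw [min_eq_right (not_le.1 hgl).le]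
        rw [e5]
        have d3 := abs_sub (YY δ W T (Ph (m (l, b)) t)) (YY δ W T t)
        have d4 : Real.sqrt (Real.log (Real.log T)) ≤ Real.sqrt (Real.log (2 + Real.log T)) :=
          Real.sqrt_le_sqrt (Real.log_le_log hlog0 (by linarith))
        have d0 : 0 ≤ Real.sqrt (Real.log (2 + Real.log T)) := Real.sqrt_nonneg _
        have d5 : A₄ * Real.sqrt (Real.log (Real.log T)) ≤
            A₄ * Real.sqrt (Real.log (2 + Real.log T)) := mul_le_mul_of_nonneg_left d4 (by linarith)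
        have d6 : 8 * (A₁ + 2 * A₃ + 2 * A₄) * Real.sqrt (Real.log (2 + Real.log T)) ≤
            A' * Real.sqrt (Real.log (2 + Real.log T)) := mul_le_mul_of_nonneg_right hA'3 d0
        have d7 : 0 ≤ A₄ * Real.sqrt (Real.log (2 + Real.log T)) := mul_nonneg (by linarith) d0
        have d8 : 0 ≤ A₃ * Real.sqrt (Real.log (2 + Real.log T)) := mul_nonneg (by linarith) d0
        have d9 : 0 ≤ A₁ * Real.sqrt (Real.log (2 + Real.log T)) := mul_nonneg (by linarith) d0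
        linarith

end Pool.Agent.Lib.MP_ec260d_ntD
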