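import Mathlib
import Pool.Agent.Lib.MP_ec260d_ntD.Q.DDefs
import Pool.Agent.Lib.MP_ec260d_ntD.P.PhB

/-!
# JOB Q/IntI: the data of a short interval (about 250 lines)

Notation: `κ₂ = 8 (k + 3)^2 κ ≤ 1/25`, `H = T^(2 κ₂)`, `T ≥ T₀` large.  Put `Λ c = slp (m c) a`, `al i = Ph (m i) a - Λ (cl i) * a`.
`al0`, `lm0`: `m 0 = 0`, `cl 0 = 0`, `ph_zero`, `slp_zero`.  `lm`: `slp_range`.  `ala`: definition.
`lin`: `|Ph (m i) t - Ph (m i) a - slp (m (cl i)) a (t - a)| ≤ (t - a)^2/T + |slp (m i) a - slp (m (cl i)) a| (t - a) ≤ (H + 1)^2/T + k T^(-3κ₂) (H + 1)` (`ph_lin`, `slp_diff`, `m i - m (cl i) ≤ k T^(1 - 3κ₂)`), and this is `≤ hT T/10` for large `T` (exponents `4 κ₂ - 1` and `-κ₂`; `hT T = 2π/log T`).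
`nr`: `NR` at `t₀` with `T^(-κ₂)`; `|slp (m c) a - slp (m c) t₀| ≤ H/T` (`slp_lip`) and `|log A c - log B c| ≤ κ log T`, so the sums differ by at most `(k + 1) κ log T * H/T ≤ T^(-κ₂)/2`.
`far`: for `cl i = cl i'` one has `al i - al i' = Ph (m i) a - Ph (m i') a`.  Let `m i ≤ m i'` (or exchange).  `u(t) = Ph (m i') t - Ph (m i) t`: `|u(a) - u(t₀)| ≤ 2 H^2/T + |slp (m i') a - slp (m i) a| H ≤ 2H^2/T + 2k T^(-3κ₂) H ≤ 1/200` (`ph_lin`, `slp_diff`; both are in one class).  So `5/2 ≤ u(t₀)` and `FarR η (log T) (1/100) (u t₀)` gives `FarR η (log T) (1/200) (u a)`.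
-/

namespace Pool.Agent.Lib.MP_ec260d_ntD

open Set MeasureTheory
open Pool.Agent.Lib.MP_ec260d_ntB

private theorem IntI_log (q M : ℝ) (hq : 0 < q) (hM : 0 < M) :
    ∃ T₀ : ℝ, 20 ≤ T₀ ∧ ∀ T : ℝ, T₀ ≤ T → M * Real.log T ≤ T ^ q := by
  have h1 := (isLittleO_log_rpow_atTop hq).def (inv_pos.2 hM)
  obtain ⟨T₁, hT₁⟩ := Filter.eventually_atTop.1 h1
  refine ⟨max 20 T₁, le_max_left _ _, fun T hT => ?_⟩
  have h2 : (20 : ℝ) ≤ T := (le_max_left _ _).trans hT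
  have h3 := hT₁ T ((le_max_right _ _).trans hT)
  have h4 : 0 ≤ Real.log T := Real.log_nonneg (by linarith)
  have h5 : 0 ≤ T ^ q := Real.rpow_nonneg (by linarith) q
  rw [Real.norm_of_nonneg h4, Real.norm_of_nonneg h5] at h3
  calc M * Real.log T ≤ M * (M⁻¹ * T ^ q) := mul_le_mul_of_nonneg_left h3 hM.le
    _ = T ^ q := by rw [← mul_assoc, mul_inv_cancel₀ hM.ne', one_mul]

private theorem IntI_num (k : ℕ) (κ q T : ℝ) (hκ1 : κ ≤ 1) (hq : 0 < q) (hq1 : q ≤ 1 / 25)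
    (hT20 : 20 ≤ T) (hM : 400 * ((k : ℝ) + 3) * Real.log T ≤ T ^ q) :
    (T ^ (2 * q) + 1) ^ 2 / T + k * T ^ (1 - 3 * q) / T * (T ^ (2 * q) + 1) ≤ Pool.Agent.Lib.MP_ec260d_ntB.hT T / 10 ∧
    ((k : ℝ) + 1) * (κ * Real.log T) * (T ^ (2 * q) / T) ≤ T ^ (-q) / 2 ∧
    2 * (T ^ (2 * q)) ^ 2 / T + k * T ^ (1 - 3 * q) / T * T ^ (2 * q) ≤ 1 / 200 := by
  have hT0 : 0 < T := by linarith
  have hL : 1 ≤ Real.log T := by
    rw [Real.le_log_iff_exp_le hT0]
    have := Real.exp_one_lt_d9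
    linarith
  obtain ⟨X, hX⟩ : ∃ X, X = T ^ q := ⟨_, rfl⟩
  obtain ⟨L, hLd⟩ : ∃ L, L = Real.log T := ⟨_, rfl⟩
  have hk : (0 : ℝ) ≤ k := Nat.cast_nonneg k
  have e1 : T ^ (2 * q) = X ^ 2 := by
    rw [hX, mul_comm, Real.rpow_mul hT0.le]
    exact_mod_cast rfl
  have e3 : T ^ (-q) = X⁻¹ := by
    rw [hX, Real.rpow_neg hT0.le]
  have e4 : T ^ (1 - 3 * q) = T / X ^ 3 := by
    rw [Real.rpow_sub hT0, Real.rpow_one, hX, mul_comm, Real.rpow_mul hT0.le]
    congr 1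
    exact_mod_cast rfl
  have e5 : X ^ 5 ≤ T := by
    have h1 : X ^ 5 = T ^ (q * 5) := by
      rw [hX, Real.rpow_mul hT0.le]
      exact_mod_cast rfl
    rw [h1]
    calc T ^ (q * 5) ≤ T ^ (1 : ℝ) := Real.rpow_le_rpow_of_exponent_le (by linarith) (by linarith)
      _ = T := Real.rpow_one T
  rw [← hX, ← hLd] at hM
  rw [← hLd] at hL
  have hXk : 400 * ((k : ℝ) + 3) ≤ X := by
    have h1 : 400 * ((k : ℝ) + 3) * 1 ≤ 400 * ((k : ℝ) + 3) * L :=
      mul_le_mul_of_nonneg_left hL (by linarith)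
    linarith
  have hX1 : 1 ≤ X := by linarith
  have hX0 : 0 < X := by linarith
  have hL0 : 0 < L := by linarith
  have hkL : 0 ≤ (k : ℝ) * L := mul_nonneg hk hL0.le
  have e6 : T / X ^ 3 / T = (X ^ 3)⁻¹ := by
    field_simp
  have e7 : (k : ℝ) * (T / X ^ 3) / T = k * (X ^ 3)⁻¹ := by
    rw [mul_div_assoc, e6]
  have hXX : X ≤ X ^ 2 := by nlinarith
  have hX2 : 1 ≤ X ^ 2 := by linarith
  rw [e1, e3, e4, e7]
  have f1 : X ^ 4 / T ≤ 1 / X := by
    rw [div_le_div_iff₀ hT0 hX0]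
    linarith [show X ^ 4 * X = X ^ 5 by ring]
  have f2 : (X ^ 3)⁻¹ * X ^ 2 = 1 / X := by
    field_simp
  refine ⟨?_, ?_, ?_⟩
  · have g1 : (X ^ 2 + 1) ^ 2 / T ≤ 4 * (1 / X) := by
      have g2 : (X ^ 2 + 1) ^ 2 ≤ 4 * X ^ 4 := by nlinarith
      calc (X ^ 2 + 1) ^ 2 / T ≤ 4 * X ^ 4 / T := div_le_div_of_nonneg_right g2 hT0.le
        _ = 4 * (X ^ 4 / T) := by ring
        _ ≤ 4 * (1 / X) := mul_le_mul_of_nonneg_left f1 (by norm_num)
    have g3 : (k : ℝ) * (X ^ 3)⁻¹ * (X ^ 2 + 1) ≤ 2 * k * (1 / X) := by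
      calc (k : ℝ) * (X ^ 3)⁻¹ * (X ^ 2 + 1) ≤ (k : ℝ) * (X ^ 3)⁻¹ * (2 * X ^ 2) :=
            mul_le_mul_of_nonneg_left (by linarith) (by positivity)
        _ = 2 * k * ((X ^ 3)⁻¹ * X ^ 2) := by ring
        _ = 2 * k * (1 / X) := by rw [f2]
    have g4 : (4 + 2 * (k : ℝ)) * (1 / X) ≤ hT T / 10 := by
      unfold Pool.Agent.Lib.MP_ec260d_ntB.hT
      rw [← hLd, mul_one_div, div_div, div_le_div_iff₀ hX0 (by positivity)]
      have g5 : 3 < Real.pi := Real.pi_gt_three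
      have g6 : 2 * 3 * X ≤ 2 * Real.pi * X :=
        mul_le_mul_of_nonneg_right (by linarith) hX0.le
      nlinarith
    linarith
  · have g1 : ((k : ℝ) + 1) * (κ * L) ≤ X / 2 := by
      have g2 : κ * L ≤ 1 * L := mul_le_mul_of_nonneg_right hκ1 hL0.le
      have g3 : ((k : ℝ) + 1) * (κ * L) ≤ ((k : ℝ) + 1) * (1 * L) :=
        mul_le_mul_of_nonneg_left g2 (by linarith)
      nlinarith
    have g4 : X ^ 2 / T ≤ 1 / X ^ 2 := by
      rw [div_le_div_iff₀ hT0 (by positivity)]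
      have g5 : X ^ 4 ≤ X ^ 5 := pow_le_pow_right₀ hX1 (by norm_num)
      linarith [show X ^ 2 * X ^ 2 = X ^ 4 by ring]
    rw [← hLd]
    calc ((k : ℝ) + 1) * (κ * L) * (X ^ 2 / T) ≤ X / 2 * (1 / X ^ 2) :=
          mul_le_mul g1 g4 (by positivity) (by positivity)
      _ = X⁻¹ / 2 := by
          field_simp
  · have g1 : 2 * (X ^ 2) ^ 2 / T ≤ 2 * (1 / X) := by
      calc 2 * (X ^ 2) ^ 2 / T = 2 * (X ^ 4 / T) := by ring
        _ ≤ 2 * (1 / X) := mul_le_mul_of_nonneg_left f1 (by norm_num)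
    have g3 : (k : ℝ) * (X ^ 3)⁻¹ * X ^ 2 = k * (1 / X) := by
      rw [mul_assoc, f2]
    have g4 : (2 + (k : ℝ)) * (1 / X) ≤ 1 / 200 := by
      rw [mul_one_div, div_le_div_iff₀ hX0 (by norm_num)]
      linarith
    rw [g3]
    linarith

theorem int_I (k : ℕ) (C₁ κ η : ℝ) (hC₁ : 0 ≤ C₁) (hκ : 0 < κ) (hκ1 : 200 * ((k : ℝ) + 3) ^ 2 * κ ≤ 1) :
    ∃ T₀ : ℝ, 20 ≤ T₀ ∧ ∀ T : ℝ, T₀ ≤ T → ∀ m : Fin (k + 1) → ℝ, m 0 = 0 → Monotone m →
      (∀ i, m i ≤ C₁ * (T * Real.log T)) → ∀ cl : Fin (k + 1) → Fin (k + 1),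
        (∀ i i' i'' : Fin (k + 1), i ≤ i' → i' ≤ i'' → cl i = cl i'' → cl i' = cl i) →
        (∀ i, cl (cl i) = cl i) → cl 0 = 0 →
        (∀ i, m (cl i) ≤ m i ∧ m i ≤ m (cl i) + k * T ^ (1 - 3 * (8 * ((k : ℝ) + 3) ^ 2 * κ))) →
        ∀ a t₀ : ℝ, T ≤ a → a + T ^ (2 * (8 * ((k : ℝ) + 3) ^ 2 * κ)) + 1 ≤ 2 * T → a ≤ t₀ →
          t₀ ≤ a + T ^ (2 * (8 * ((k : ℝ) + 3) ^ 2 * κ)) →
          NR k cl (fun c => slp (m c) t₀) (T ^ κ) (T ^ (-(8 * ((k : ℝ) + 3) ^ 2 * κ))) →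
          (∀ i i' : Fin (k + 1), cl i = cl i' → m i ≤ m i' → 5 / 2 ≤ Ph (m i') t₀ - Ph (m i) t₀ →
            FarR η (Real.log T) (1 / 100) (Ph (m i') t₀ - Ph (m i) t₀)) →
          ∃ Λ al : Fin (k + 1) → ℝ, IntD k T κ (T ^ (-(8 * ((k : ℝ) + 3) ^ 2 * κ)) / 2) η a
            (T ^ (2 * (8 * ((k : ℝ) + 3) ^ 2 * κ))) m cl Λ al := by
  have hk : (0 : ℝ) ≤ k := Nat.cast_nonneg k
  obtain ⟨q, hq⟩ : ∃ q, q = 8 * ((k : ℝ) + 3) ^ 2 * κ := ⟨_, rfl⟩
  have hq0 : 0 < q := by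
    rw [hq]
    positivity
  have hq1 : q ≤ 1 / 25 := by
    rw [hq]
    linarith
  have hκ2 : κ ≤ 1 := by
    have h1 : (1 : ℝ) ≤ 200 * ((k : ℝ) + 3) ^ 2 := by nlinarith
    have h2 : 1 * κ ≤ 200 * ((k : ℝ) + 3) ^ 2 * κ := mul_le_mul_of_nonneg_right h1 hκ.le
    linarith
  rw [← hq]
  obtain ⟨T₁, hT₁, hlog⟩ := IntI_log q (400 * ((k : ℝ) + 3)) hq0 (by positivity)
  obtain ⟨T₂, hT₂, hrange⟩ := slp_range C₁ hC₁
  obtain ⟨T₃, hT₃, hlip⟩ := slp_lip C₁ hC₁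
  obtain ⟨T₄, hT₄, hlin⟩ := ph_lin C₁ hC₁
  obtain ⟨T₅, hT₅, hdiff⟩ := slp_diff C₁ hC₁
  refine ⟨T₁ + T₂ + T₃ + T₄ + T₅, by linarith, ?_⟩
  intro T hTT m hm0 hmon hmC cl hcls hid hcl0 hwid a t₀ hTa haH hat ht0 hNR hFar
  have hT1 : T₁ ≤ T := by linarith
  have hT2 : T₂ ≤ T := by linarith
  have hT3 : T₃ ≤ T := by linarith
  have hT4 : T₄ ≤ T := by linarith
  have hT5 : T₅ ≤ T := by linarith
  have hT20 : 20 ≤ T := by linarith
  have hT0 : 0 < T := by linarith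
  obtain ⟨n1, n2, n3⟩ := IntI_num k κ q T hκ2 hq0 hq1 hT20 (hlog T hT1)
  obtain ⟨H, hH⟩ : ∃ H, H = T ^ (2 * q) := ⟨_, rfl⟩
  obtain ⟨D, hD⟩ : ∃ D, D = (k : ℝ) * T ^ (1 - 3 * q) := ⟨_, rfl⟩
  rw [← hH, ← hD] at n1 n3
  rw [← hH] at n2 haH ht0 ⊢
  rw [← hD] at hwid
  have hH0 : 0 ≤ H := by
    rw [hH]
    exact Real.rpow_nonneg hT0.le _
  have hD0 : 0 ≤ D := by
    rw [hD]
    exact mul_nonneg hk (Real.rpow_nonneg hT0.le _)
  have hm : ∀ i, 0 ≤ m i := fun i => by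
    rw [← hm0]
    exact hmon (Fin.zero_le i)
  have ha2 : a ≤ 2 * T := by linarith
  have hpe : 2 * Real.pi * Real.exp 1 ≤ a := by
    have h1 : Real.exp 1 < 2.7182818286 := Real.exp_one_lt_d9
    have h2 : Real.pi < 3.15 := Real.pi_lt_d2
    have h3 := Real.pi_pos
    have h4 := Real.exp_pos 1
    nlinarith
  -- members of one class
  have hsame : ∀ i i' : Fin (k + 1), cl i = cl i' → m i' - m i ≤ D := by
    intro i i' h
    have h1 := (hwid i).1
    have h2 := (hwid i').2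
    rw [← h] at h2
    linarith
  -- the slopes in one class
  have hsl : ∀ i, |slp (m (cl i)) a - slp (m i) a| ≤ D / T := by
    intro i
    refine (hdiff T hT5 (m (cl i)) (m i) a (hm _) (hwid i).1 (hmC i) hTa ha2).trans ?_
    exact div_le_div_of_nonneg_right (by linarith [(hwid i).2]) hT0.le
  refine ⟨fun c => slp (m c) a, fun i => Ph (m i) a - slp (m (cl i)) a * a, hcls, ?_, ?_, ?_, ?_, ?_, ?_, ?_⟩
  · show Ph (m 0) a - slp (m (cl 0)) a * a = 0
    rw [hcl0, hm0, ph_zero hpe, slp_zero hpe]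
    ring
  · show slp (m (cl 0)) a = 1
    rw [hcl0, hm0, slp_zero hpe]
  · intro i
    exact hrange T hT2 (m (cl i)) a (hm _) (hmC _) hTa ha2
  · intro i
    show Ph (m i) a - slp (m (cl i)) a * a + slp (m (cl i)) a * a = Ph (m i) a
    ring
  · intro t hat1 htH i
    show |Ph (m i) t - (Ph (m i) a - slp (m (cl i)) a * a + slp (m (cl i)) a * t)| ≤ hT T / 10
    have h1 := hlin T hT4 (m i) a t (hm i) (hmC i) hTa ha2 (by linarith) (by linarith)
    have h2 := hsl i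
    have h3 : (t - a) ^ 2 / T ≤ (H + 1) ^ 2 / T :=
      div_le_div_of_nonneg_right (pow_le_pow_left₀ (by linarith) (by linarith) 2) hT0.le
    have h4 : |(slp (m (cl i)) a - slp (m i) a) * (t - a)| ≤ D / T * (H + 1) := by
      rw [abs_mul, abs_of_nonneg (by linarith : 0 ≤ t - a)]
      exact mul_le_mul h2 (by linarith) (by linarith) (div_nonneg hD0 hT0.le)
    have h5 : Ph (m i) t - (Ph (m i) a - slp (m (cl i)) a * a + slp (m (cl i)) a * t) =
        (Ph (m i) t - (Ph (m i) a + slp (m i) a * (t - a))) -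
          (slp (m (cl i)) a - slp (m i) a) * (t - a) := by ring
    rw [h5]
    exact (abs_sub _ _).trans (by linarith)
  · intro A B hAB hout hne
    have h1 := hNR A B hAB hout hne
    have h2 : |∑ c, (Real.log (A c) - Real.log (B c)) * slp (m c) t₀ -
        ∑ c, (Real.log (A c) - Real.log (B c)) * slp (m c) a| ≤ T ^ (-q) / 2 := by
      rw [← Finset.sum_sub_distrib]
      have h3 : ∀ c : Fin (k + 1), |(Real.log (A c) - Real.log (B c)) * slp (m c) t₀ -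
          (Real.log (A c) - Real.log (B c)) * slp (m c) a| ≤ κ * Real.log T * (H / T) := by
        intro c
        obtain ⟨hA1, hB1, hA2, hB2⟩ := hAB c
        have hA1' : (1 : ℝ) ≤ A c := by exact_mod_cast hA1
        have hB1' : (1 : ℝ) ≤ B c := by exact_mod_cast hB1
        have a1 : 0 ≤ Real.log (A c) := Real.log_nonneg hA1'
        have b1 : 0 ≤ Real.log (B c) := Real.log_nonneg hB1'
        have a2 : Real.log (A c) ≤ κ * Real.log T := by
          rw [← Real.log_rpow hT0]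
          exact Real.log_le_log (by linarith) hA2
        have b2 : Real.log (B c) ≤ κ * Real.log T := by
          rw [← Real.log_rpow hT0]
          exact Real.log_le_log (by linarith) hB2
        have h4 : |Real.log (A c) - Real.log (B c)| ≤ κ * Real.log T := by
          rw [abs_le]
          constructor <;> linarith
        have h5 := hlip T hT3 (m c) t₀ a (hm c) (hmC c) (by linarith) (by linarith) hTa ha2
        have h6 : |t₀ - a| / T ≤ H / T := by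
          rw [abs_of_nonneg (by linarith : 0 ≤ t₀ - a)]
          exact div_le_div_of_nonneg_right (by linarith) hT0.le
        rw [← mul_sub, abs_mul]
        exact mul_le_mul h4 (h5.trans h6) (abs_nonneg _) ((abs_nonneg _).trans h4)
      refine (Finset.abs_sum_le_sum_abs _ _).trans ((Finset.sum_le_sum fun c _ => h3 c).trans ?_)
      rw [Finset.sum_const, Finset.card_univ, Fintype.card_fin, nsmul_eq_mul]
      push_cast
      calc ((k : ℝ) + 1) * (κ * Real.log T * (H / T)) = ((k : ℝ) + 1) * (κ * Real.log T) * (H / T) := by ring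
        _ ≤ T ^ (-q) / 2 := n2
    have h3 := abs_sub_abs_le_abs_sub (∑ c, (Real.log (A c) - Real.log (B c)) * slp (m c) t₀)
      (∑ c, (Real.log (A c) - Real.log (B c)) * slp (m c) a)
    show T ^ (-q) / 2 ≤ |∑ c, (Real.log (A c) - Real.log (B c)) * slp (m c) a|
    linarith
  · -- far pairs
    have key : ∀ i i' : Fin (k + 1), cl i = cl i' → m i ≤ m i' → 5 / 2 + 1 / 100 ≤ Ph (m i') a - Ph (m i) a →
        FarR η (Real.log T) (1 / 200) (Ph (m i') a - Ph (m i) a) := by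
      intro i i' hcl hmm hu
      have h1 := hlin T hT4 (m i) a t₀ (hm i) (hmC i) hTa ha2 (by linarith) (by linarith)
      have h2 := hlin T hT4 (m i') a t₀ (hm i') (hmC i') hTa ha2 (by linarith) (by linarith)
      have h3 : (t₀ - a) ^ 2 / T ≤ H ^ 2 / T :=
        div_le_div_of_nonneg_right (pow_le_pow_left₀ (by linarith) (by linarith) 2) hT0.le
      have h4 : |slp (m i) a - slp (m i') a| ≤ D / T :=
        (hdiff T hT5 (m i) (m i') a (hm i) hmm (hmC i') hTa ha2).trans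
          (div_le_div_of_nonneg_right (hsame i i' hcl) hT0.le)
      have h5 : |(slp (m i) a - slp (m i') a) * (t₀ - a)| ≤ D / T * H := by
        rw [abs_mul, abs_of_nonneg (by linarith : 0 ≤ t₀ - a)]
        exact mul_le_mul h4 (by linarith) (by linarith) (div_nonneg hD0 hT0.le)
      have h6 : |(Ph (m i') t₀ - Ph (m i) t₀) - (Ph (m i') a - Ph (m i) a)| ≤ 1 / 200 := by
        have h7 : (Ph (m i') t₀ - Ph (m i) t₀) - (Ph (m i') a - Ph (m i) a) =
            (Ph (m i') t₀ - (Ph (m i') a + slp (m i') a * (t₀ - a))) -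
            ((Ph (m i) t₀ - (Ph (m i) a + slp (m i) a * (t₀ - a))) +
              (slp (m i) a - slp (m i') a) * (t₀ - a)) := by ring
        rw [h7]
        have e1 := abs_le.1 h1
        have e2 := abs_le.1 h2
        have e3 := abs_le.1 h5
        have e4 : 2 * H ^ 2 / T = H ^ 2 / T + H ^ 2 / T := by ring
        rw [e4] at n3
        rw [abs_le]
        constructor
        · linarith [e1.1, e1.2, e2.1, e2.2, e3.1, e3.2]
        · linarith [e1.1, e1.2, e2.1, e2.2, e3.1, e3.2]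
      have h7 := abs_le.1 h6
      have h8 := hFar i i' hcl hmm (by linarith [h7.1])
      intro u' hu'
      refine h8 u' ?_
      have h9 := abs_le.1 hu'
      rw [abs_le]
      constructor
      · linarith [h7.1, h7.2, h9.1, h9.2]
      · linarith [h7.1, h7.2, h9.1, h9.2]
    intro i i' hcl
    have e1 : (Ph (m i) a - slp (m (cl i)) a * a) - (Ph (m i') a - slp (m (cl i')) a * a) =
        Ph (m i) a - Ph (m i') a := by
      rw [hcl]
      ring
    show 5 / 2 + 1 / 100 ≤ |(Ph (m i) a - slp (m (cl i)) a * a) - (Ph (m i') a - slp (m (cl i')) a * a)| →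
      FarR η (Real.log T) (1 / 200)
        |(Ph (m i) a - slp (m (cl i)) a * a) - (Ph (m i') a - slp (m (cl i')) a * a)|
    rw [e1]
    rcases le_total (m i) (m i') with h | h
    · have h1 := ph_mono_m (hm i) hpe h
      rw [abs_sub_comm, abs_of_nonneg (by linarith)]
      exact key i i' hcl h
    · have h1 := ph_mono_m (hm i') hpe h
      rw [abs_of_nonneg (by linarith)]
      exact key i' i hcl.symm h

end Pool.Agent.Lib.MP_ec260d_ntD
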