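import Mathlib
import Pool.Agent.Lib.MP_ec260d_ntB.Q.OrdF
import Pool.Agent.Lib.MP_ec260d_ntB.Q.QGood
import Pool.Agent.Lib.MP_ec260d_ntD.Q.DDefs

/-!
# JOB Q/MultD: few nice indices belong to the same base point (about 100 lines)

As `Mult.lean` of theorem B.  Let `n₁ ≤ n₂` be the smallest and the largest element of `F`, `τ₁, τ₂ ∈ G` the heights of `Nice` for `i = 0` (`m 0 = 0`).  If `τ₂ < τ₁` then `NN τ₂ ≤ NN τ₁` (`NN_mono`), so `n₂ - n₁ ≤ 2B`.  Otherwise `τ₂ - τ₁ ≤ (2B + 1) h` (`h = hT T`), so `|YY τ₂ - YY τ₁| ≤ A` (`osc`), `LL τ₂ - LL τ₁ ≤ 2 (2B + 1)` (hypothesis `hLL`), and `one` gives `n₂ - n₁ ≤ 2B + 2A + 2 (2B + 1)`.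
`F ⊆ [n₁, n₂]`: `card F ≤ n₂ - n₁ + 1`.
-/

namespace Pool.Agent.Lib.MP_ec260d_ntD

open Set
open Pool.Agent.Lib.MP_ec260d_ntB
open Pool.Agent.Lib.MP_ec260d_nt (ordinate)

theorem mult_D (k : ℕ) (δ δ' W T A B C₂ t : ℝ) (G : Set ℝ) (hG : GoodD k δ δ' W T A B C₂ G)
    (hA : 1 ≤ A) (hB : 1 ≤ B) (hh0 : 0 < hT T)
    (hLL : ∀ s s' : ℝ, s ∈ G → s' ∈ G → s ≤ s' → hT T * (LL s' - LL s) ≤ 2 * (s' - s))
    (m : Fin (k + 1) → ℕ) (hm : m 0 = 0) (F : Finset ℕ)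
    (hF : ∀ n ∈ F, Nice k T B m G n ∧ t ≤ ordinate n ∧ ordinate n ≤ t + hT T) :
    (F.card : ℝ) ≤ 6 * B + 2 * A + 3 := by
  rcases F.eq_empty_or_nonempty with hE | hne
  · rw [hE, Finset.card_empty, Nat.cast_zero]
    linarith
  set n₁ : ℕ := F.min' hne with hn₁
  set n₂ : ℕ := F.max' hne with hn₂
  obtain ⟨hN₁, ha₁, hb₁⟩ := hF n₁ (F.min'_mem hne)
  obtain ⟨hN₂, ha₂, hb₂⟩ := hF n₂ (F.max'_mem hne)
  obtain ⟨τ₁, hG₁, h1, h2⟩ := hN₁ 0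
  obtain ⟨τ₂, hG₂, h3, h4⟩ := hN₂ 0
  rw [hm, Nat.add_zero] at h1 h2 h3 h4
  have hle : n₁ ≤ n₂ := F.min'_le n₂ (F.max'_mem hne)
  have hcard : (F.card : ℝ) ≤ (n₂ : ℝ) - n₁ + 1 := by
    have hsub : F ⊆ Finset.Icc n₁ n₂ := fun n hn =>
      Finset.mem_Icc.2 ⟨F.min'_le n hn, F.le_max' n hn⟩
    have h5 := Finset.card_le_card hsub
    rw [Nat.card_Icc] at h5
    have h6 : F.card + n₁ ≤ n₂ + 1 := by omega
    have h7 : (F.card : ℝ) + n₁ ≤ n₂ + 1 := by exact_mod_cast h6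
    linarith
  rw [abs_le] at h1 h2 h3 h4
  have hmain : (n₂ : ℝ) - n₁ ≤ 6 * B + 2 * A + 2 := by
    rcases lt_or_ge τ₂ τ₁ with hτ | hτ
    · have h5 := NN_mono hτ.le
      linarith
    · have h5 : τ₂ - τ₁ ≤ (2 * B + 1) * hT T := by nlinarith
      have h6 : |τ₂ - τ₁| ≤ (2 * B + 4) * hT T := by
        rw [abs_of_nonneg (by linarith)]
        nlinarith
      have h7 := (abs_le.1 (hG.osc τ₁ hG₁ τ₂ h6)).2
      have h8 := hLL τ₁ τ₂ hG₁ hG₂ hτ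
      have h9 : LL τ₂ - LL τ₁ ≤ 2 * (2 * B + 1) := by
        have h10 : hT T * (LL τ₂ - LL τ₁) ≤ hT T * (2 * (2 * B + 1)) := by nlinarith
        exact le_of_mul_le_mul_left h10 hh0
      have h11 := (abs_le.1 (hG.one τ₁ hG₁ τ₂ hG₂ hτ)).2
      linarith
  linarith

end Pool.Agent.Lib.MP_ec260d_ntD
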