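import Mathlib
import Pool.Agent.Lib.MP_ec260d_ntD.I.CellsC
import Pool.Agent.Lib.MP_ec260d_ntB.Q.OrdF
import Pool.Agent.Lib.MP_ec260d_ntB.Q.QGood

/-!
# JOB Q/NotNice: few indices are not nice (about 150 lines)

Model: part (a), (b) of `block_n` in `Lib/MP_ec260d_ntB/Q/BlockN.lean`.  `ε₁ = ε/(2 (k + 1))`; `cells_C ε₁ C₃` gives `B, C', T₁`; `C = (k + 1) C'`.  Let `h = hT T = 2π/log T`.
(a) the `n ∈ F` with `ordinate n < T + B h`: by `ord_window` (`a = T`, `b = T + B h ≤ 4 T`) at most `B h log T + Cw √T = 2πB + Cw √T ≤ (ε/2) T log T` for large `T`.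
(b) the `n ∈ F` with `T + B h ≤ ordinate n` are not nice: for some `i` there is no `τ ∈ G` with `|τ - ordinate (n + m i)| ≤ B h` and `|NN τ - (n + m i)| ≤ B`.  For each `i` apply `cells_C` to the image of this part of `F` under the injective map `n ↦ n + m i`
(`T + B h ≤ ordinate n ≤ ordinate (n + m i) ≤ C₃ T`, `ord_mono`): at most `(ε₁ + C' η) (T/h)` and `T/h = T log T/(2π) ≤ T log T`.  Sum over `i`: `(ε/2 + C η) T log T`.
-/

namespace Pool.Agent.Lib.MP_ec260d_ntD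

open Set MeasureTheory
open Pool.Agent.Lib.MP_ec260d_ntB
open Pool.Agent.Lib.MP_ec260d_nt (ordinate)

private theorem NotNice_large (ε B Cw : ℝ) (hε : 0 < ε) (hB : 1 ≤ B) (hCw : 0 ≤ Cw) :
    ∀ᶠ T : ℝ in Filter.atTop, 7 ≤ Real.log T ∧ B + 1 ≤ T ∧ 20 ≤ T ∧
      2 * Real.pi * B + Cw * Real.sqrt T ≤ ε / 2 * (T * Real.log T) := by
  have e1 : ∀ᶠ T : ℝ in Filter.atTop, 7 ≤ Real.log T :=
    Real.tendsto_log_atTop.eventually_ge_atTop _
  have e2 : ∀ᶠ T : ℝ in Filter.atTop, max (B + 1) 20 ≤ T := Filter.eventually_ge_atTop _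
  have e3 : ∀ᶠ T : ℝ in Filter.atTop,
      max 1 ((2 * Real.pi * B + Cw) / (ε / 2)) ≤ Real.sqrt T :=
    Real.tendsto_sqrt_atTop.eventually_ge_atTop _
  filter_upwards [e1, e2, e3] with T h1 h2 h3
  have hT1 : 20 ≤ T := le_trans (le_max_right _ _) h2
  refine ⟨h1, le_trans (le_max_left _ _) h2, hT1, ?_⟩
  have h5 : 1 ≤ Real.sqrt T := le_trans (le_max_left _ _) h3
  have h6 : (2 * Real.pi * B + Cw) / (ε / 2) ≤ Real.sqrt T := le_trans (le_max_right _ _) h3
  rw [div_le_iff₀ (by positivity)] at h6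
  have h7 : Real.sqrt T * Real.sqrt T = T := Real.mul_self_sqrt (by linarith)
  have h8 : 0 ≤ 2 * Real.pi * B := by positivity
  have h9 : ε / 2 * T ≤ ε / 2 * (T * Real.log T) := by
    refine mul_le_mul_of_nonneg_left ?_ (by positivity)
    exact le_mul_of_one_le_right (by linarith) (by linarith)
  calc 2 * Real.pi * B + Cw * Real.sqrt T
      ≤ 2 * Real.pi * B * Real.sqrt T + Cw * Real.sqrt T := by
        have := le_mul_of_one_le_right h8 h5
        linarith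
    _ = (2 * Real.pi * B + Cw) * Real.sqrt T := by ring
    _ ≤ (Real.sqrt T * (ε / 2)) * Real.sqrt T := mul_le_mul_of_nonneg_right h6 (Real.sqrt_nonneg _)
    _ = ε / 2 * (Real.sqrt T * Real.sqrt T) := by ring
    _ = ε / 2 * T := by rw [h7]
    _ ≤ ε / 2 * (T * Real.log T) := h9

theorem not_nice (k : ℕ) (ε C₃ : ℝ) (hε : 0 < ε) (hC₃ : 1 ≤ C₃) : ∃ B C T₀ : ℝ, 1 ≤ B ∧ 0 ≤ C ∧ 20 ≤ T₀ ∧
    ∀ T : ℝ, T₀ ≤ T → ∀ (η : ℝ) (G : Set ℝ), 0 ≤ η → MeasurableSet G →
      volume (Icc T (3 * C₃ * T) \ G) ≤ ENNReal.ofReal (η * T) → ∀ (m : Fin (k + 1) → ℕ) (F : Finset ℕ),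
        (∀ n ∈ F, 1 ≤ n ∧ T ≤ ordinate n ∧ (∀ i, ordinate (n + m i) ≤ C₃ * T) ∧
          ¬ (T + B * hT T ≤ ordinate n ∧ Nice k T B m G n)) →
        (F.card : ℝ) ≤ (ε + C * η) * (T * Real.log T) := by
  classical
  have hk1 : (0 : ℝ) < (k : ℝ) + 1 := by positivity
  obtain ⟨ε₁, hε₁, hε₁k⟩ : ∃ ε₁ : ℝ, 0 < ε₁ ∧ ((k : ℝ) + 1) * ε₁ = ε / 2 :=
    ⟨ε / (2 * ((k : ℝ) + 1)), by positivity, by field_simp⟩
  obtain ⟨B, C', Tc, hB, hC', -, hcells⟩ := cells_C ε₁ C₃ hε₁ hC₃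
  obtain ⟨Cw, Tw, hCw, hTw, hwin⟩ := ord_window
  obtain ⟨T₀, hT₀⟩ := Filter.eventually_atTop.1 ((Filter.eventually_ge_atTop Tc).and
    ((Filter.eventually_ge_atTop Tw).and (NotNice_large ε B Cw hε hB hCw)))
  refine ⟨B, ((k : ℝ) + 1) * C', max T₀ 20, hB, by positivity, le_max_right _ _, ?_⟩
  intro T hTT η G hη hGm hGv m F hF
  obtain ⟨hTc', hTw', hlog, hBT, hT20, hsm⟩ := hT₀ T (le_trans (le_max_left _ _) hTT)
  have hT0 : 0 < T := by linarith
  have hhd : hT T = 2 * Real.pi / Real.log T := rfl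
  have hh0 : 0 < hT T := by rw [hhd]; positivity
  have hhlog : hT T * Real.log T = 2 * Real.pi := by
    rw [hhd, div_mul_cancel₀ _ (by linarith : Real.log T ≠ 0)]
  have hpi : 3 ≤ Real.pi := Real.pi_gt_three.le
  have hpi2 : Real.pi < 3.15 := Real.pi_lt_d2
  have hh2 : hT T ≤ 1 := by
    rw [hhd, div_le_one (by linarith)]
    linarith
  have hBh : 0 ≤ B * hT T := by positivity
  set Fa : Finset ℕ := F.filter fun n => ordinate n < T + B * hT T with hFa
  set Fb : Fin (k + 1) → Finset ℕ := fun i => F.filter fun n => T + B * hT T ≤ ordinate n ∧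
    ¬ ∃ τ ∈ G, |τ - ordinate (n + m i)| ≤ B * hT T ∧ |NN τ - ((n + m i : ℕ) : ℝ)| ≤ B with hFb
  have hsub : F ⊆ Fa ∪ (Finset.univ.biUnion Fb) := by
    intro n hn
    by_cases h1 : ordinate n < T + B * hT T
    · exact Finset.mem_union_left _ (Finset.mem_filter.2 ⟨hn, h1⟩)
    · refine Finset.mem_union_right _ ?_
      have h2 : ¬ Nice k T B m G n := fun h => (hF n hn).2.2.2 ⟨not_lt.1 h1, h⟩
      unfold Nice at h2
      rw [not_forall] at h2
      obtain ⟨i, hi⟩ := h2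
      exact Finset.mem_biUnion.2 ⟨i, Finset.mem_univ i, Finset.mem_filter.2 ⟨hn, not_lt.1 h1, hi⟩⟩
  have hcard : (F.card : ℝ) ≤ Fa.card + ∑ i, ((Fb i).card : ℝ) := by
    have h1 := Finset.card_le_card hsub
    have h2 := Finset.card_union_le Fa (Finset.univ.biUnion Fb)
    have h4 : (Finset.univ.biUnion Fb).card ≤ ∑ i, (Fb i).card := Finset.card_biUnion_le
    have h5 : F.card ≤ Fa.card + ∑ i, (Fb i).card := by omega
    exact_mod_cast h5
  -- part (a)
  have hca : (Fa.card : ℝ) ≤ ε / 2 * (T * Real.log T) := by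
    have hb4 : T + B * hT T ≤ 4 * T := by
      have : B * hT T ≤ B := mul_le_of_le_one_right (by linarith) hh2
      linarith
    have h1 := hwin T hTw' T (T + B * hT T) le_rfl (by linarith) hb4 Fa (fun n hn => by
        have h2 := Finset.mem_filter.1 hn
        obtain ⟨hn1, hn2, -, -⟩ := hF n h2.1
        exact ⟨hn1, hn2, h2.2.le⟩)
    have h3 : (T + B * hT T - T) * Real.log T = 2 * Real.pi * B := by
      rw [← hhlog]
      ring
    rw [h3] at h1
    linarith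
  -- part (b)
  have hcb : ∑ i, ((Fb i).card : ℝ) ≤ (ε / 2 + ((k : ℝ) + 1) * C' * η) * (T * Real.log T) := by
    have hTh : T / hT T ≤ T * Real.log T := by
      have h2 : T / hT T = T * Real.log T / (2 * Real.pi) := by
        rw [hhd]
        field_simp
      rw [h2]
      refine div_le_self ?_ (by linarith)
      exact mul_nonneg hT0.le (by linarith)
    have h1 : ∀ i, ((Fb i).card : ℝ) ≤ (ε₁ + C' * η) * (T * Real.log T) := by
      intro i
      have h2 := hcells T hTc' η G hη hGm hGv ((Fb i).image fun n => n + m i) (by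
        intro n' hn'
        obtain ⟨n, hn, rfl⟩ := Finset.mem_image.1 hn'
        have h3 := Finset.mem_filter.1 hn
        obtain ⟨hn1, hn2, hn3, -⟩ := hF n h3.1
        have h4 : ordinate n ≤ ordinate (n + m i) := ord_mono hn1 (Nat.le_add_right _ _)
        exact ⟨le_trans h3.2.1 h4, hn3 i, h3.2.2⟩)
      rw [Finset.card_image_of_injective _ (fun x y hxy => Nat.add_right_cancel hxy)] at h2
      exact le_trans h2 (mul_le_mul_of_nonneg_left hTh (by positivity))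
    calc ∑ i, ((Fb i).card : ℝ) ≤ ∑ _i : Fin (k + 1), (ε₁ + C' * η) * (T * Real.log T) :=
          Finset.sum_le_sum fun i _ => h1 i
      _ = (((k : ℝ) + 1) * ε₁ + ((k : ℝ) + 1) * C' * η) * (T * Real.log T) := by
          rw [Finset.sum_const, Finset.card_univ, Fintype.card_fin, nsmul_eq_mul]
          push_cast
          ring
      _ = (ε / 2 + ((k : ℝ) + 1) * C' * η) * (T * Real.log T) := by rw [hε₁k]
  calc (F.card : ℝ) ≤ Fa.card + ∑ i, ((Fb i).card : ℝ) := hcard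
    _ ≤ ε / 2 * (T * Real.log T) + (ε / 2 + ((k : ℝ) + 1) * C' * η) * (T * Real.log T) :=
        add_le_add hca hcb
    _ = (ε + ((k : ℝ) + 1) * C' * η) * (T * Real.log T) := by ring

end Pool.Agent.Lib.MP_ec260d_ntD
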