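import Mathlib
import Pool.Agent.Lib.MP_ec260d_ntB.Q.OrdF

/-!
# JOB Q/OrdC: the ordinates with far indices (about 150 lines)

`ord_C`: let `n` with `ordinate n ≤ 2T` and `m ≤ C₁ T log T`.  `total` with `a = 2T + 1`, `b = C₃ T` (in steps: `total` is stated for `b ≤ 4 T`; apply it with `T' = 2^j T`, `a = T'`, `b = 2T'`, sum over `j`; or apply `rvm` directly) gives `NN (C₃ T) - NN (2T + 1) ≥ C₁ T log T + 1` if `C₃` is large depending on `C₁` only, `T ≥ T₀`.
`zeroCount (2T + 1) ≥ n` by `ord_lt` (if `ordinate n < 2T + 1`), so `zeroCount (C₃ T) ≥ n + m + 1 > n + m`; if `C₃ T < ordinate (n + m)` then `zeroCount (C₃ T) < n + m` by `lt_ord`: contradiction.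
`ord_big`: `ordinate n ≥ T` implies `n ≥ T` for large `T`: `zeroCount T ≤ n`... use `ord_asym`: `7 n ≥ ordinate n log (ordinate n)` if `n ≥ n₀`; for `n < n₀` `ordinate n ≤ ordinate n₀ < T` for large `T`.
-/

namespace Pool.Agent.Lib.MP_ec260d_ntD

open Set
open Pool.Agent.Lib.MP_ec260d_ntB
open Pool.Agent.Lib.MP_ec260d_nt (ordinate)

private theorem OrdC_rvm : ∃ c C : ℝ, 0 ≤ C ∧ ∀ T : ℝ, 1 ≤ T →
    |NN T - T / (2 * Real.pi) * (Real.log T - c)| ≤ C * T := by
  obtain ⟨c, C, hC, hr⟩ := Pool.Agent.Lib.MP_ec260d_nt.rvm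
  refine ⟨c, C, hC, fun T hT => ?_⟩
  have h := hr T hT
  rw [← Pool.Agent.Lib.MP_ec260d_nt.zeroCount_eq, ← Real.sqrt_eq_rpow] at h
  have h2 : Real.sqrt T ≤ T := by
    rw [Real.sqrt_le_left (by linarith)]
    nlinarith
  exact h.trans (mul_le_mul_of_nonneg_left h2 hC)

private theorem OrdC_low : ∃ X : ℝ, 1 ≤ X ∧ ∀ x : ℝ, X ≤ x →
    x * Real.log x / (8 * Real.pi) ≤ NN x := by
  obtain ⟨c, C, hC, hr⟩ := OrdC_rvm
  have hπ := Real.pi_pos
  refine ⟨max 1 (Real.exp (8 * Real.pi / 3 * (c / (2 * Real.pi) + C))), le_max_left _ _,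
    fun x hx => ?_⟩
  have hx1 : 1 ≤ x := (le_max_left _ _).trans hx
  have hx0 : 0 < x := by linarith
  have hlog : 8 * Real.pi / 3 * (c / (2 * Real.pi) + C) ≤ Real.log x :=
    (Real.le_log_iff_exp_le hx0).2 ((le_max_right _ _).trans hx)
  have h1 := (abs_le.1 (hr x hx1)).1
  have h2 : c / (2 * Real.pi) + C ≤ 3 / (8 * Real.pi) * Real.log x := by
    have h3 := mul_le_mul_of_nonneg_left hlog (by positivity : 0 ≤ 3 / (8 * Real.pi))
    have h4 : 3 / (8 * Real.pi) * (8 * Real.pi / 3 * (c / (2 * Real.pi) + C)) =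
        c / (2 * Real.pi) + C := by
      field_simp
    linarith
  have h3 := mul_le_mul_of_nonneg_left h2 hx0.le
  have h4 : x / (2 * Real.pi) * (Real.log x - c) - x * (c / (2 * Real.pi) + C) + x * (c / (2 * Real.pi))
      + x * (c / (2 * Real.pi)) + x * C = x * Real.log x / (8 * Real.pi) +
        x * (3 / (8 * Real.pi) * Real.log x) := by
    field_simp
    ring
  linarith

private theorem OrdC_up : ∃ X : ℝ, 1 ≤ X ∧ ∀ x : ℝ, X ≤ x → NN x ≤ x * Real.log x / 4 := by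
  obtain ⟨c, C, hC, hr⟩ := OrdC_rvm
  have hπ := Real.pi_gt_three
  have hπ0 := Real.pi_pos
  refine ⟨max 1 (Real.exp (12 * (|c| + C))), le_max_left _ _, fun x hx => ?_⟩
  have hx1 : 1 ≤ x := (le_max_left _ _).trans hx
  have hx0 : 0 < x := by linarith
  have hlog : 12 * (|c| + C) ≤ Real.log x :=
    (Real.le_log_iff_exp_le hx0).2 ((le_max_right _ _).trans hx)
  have hc := abs_nonneg c
  have hl0 : 0 ≤ Real.log x := Real.log_nonneg hx1
  have h1 := (abs_le.1 (hr x hx1)).2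
  have h2 : x / (2 * Real.pi) * (Real.log x - c) ≤ x / 6 * (Real.log x + |c|) := by
    have h3 : x / (2 * Real.pi) * (Real.log x - c) ≤ x / (2 * Real.pi) * (Real.log x + |c|) :=
      mul_le_mul_of_nonneg_left (by linarith [neg_abs_le c]) (by positivity)
    refine h3.trans (mul_le_mul_of_nonneg_right ?_ (by linarith))
    exact div_le_div_of_nonneg_left hx0.le (by norm_num) (by linarith)
  have h3 := mul_le_mul_of_nonneg_left hlog hx0.le
  have h4 : 0 ≤ x * |c| := by positivity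
  linarith

theorem ord_C (C₁ : ℝ) (hC₁ : 0 ≤ C₁) : ∃ C₃ T₀ : ℝ, 3 ≤ C₃ ∧ 20 ≤ T₀ ∧ ∀ T : ℝ, T₀ ≤ T → ∀ n m : ℕ, 1 ≤ n →
    ordinate n ≤ 2 * T → (m : ℝ) ≤ C₁ * (T * Real.log T) → ordinate (n + m) ≤ C₃ * T := by
  obtain ⟨X, hX1, hX⟩ := OrdC_low
  obtain ⟨Y, hY1, hY⟩ := OrdC_up
  have hπ := Real.pi_pos
  refine ⟨8 * Real.pi * (C₁ + 1) + 3, max (max 20 X) (max Y (Real.exp (3 * Real.log 3))), ?_,
    (le_max_left _ _).trans (le_max_left _ _), fun T hT n m hn hord hm => ?_⟩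
  · have : 0 ≤ 8 * Real.pi * (C₁ + 1) := by positivity
    linarith
  have h20 : 20 ≤ T := ((le_max_left _ _).trans (le_max_left _ _)).trans hT
  have hXT : X ≤ T := ((le_max_right _ _).trans (le_max_left _ _)).trans hT
  have hYT : Y ≤ T := ((le_max_left _ _).trans (le_max_right _ _)).trans hT
  have hET : Real.exp (3 * Real.log 3) ≤ T := ((le_max_right _ _).trans (le_max_right _ _)).trans hT
  have hT0 : 0 < T := by linarith
  have hlog : 3 * Real.log 3 ≤ Real.log T := (Real.le_log_iff_exp_le hT0).2 hET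
  have hlog0 : 0 ≤ Real.log T := Real.log_nonneg (by linarith)
  have hC3 : 3 ≤ 8 * Real.pi * (C₁ + 1) + 3 := by
    have : 0 ≤ 8 * Real.pi * (C₁ + 1) := by positivity
    linarith
  obtain ⟨C₃, hC₃⟩ : ∃ C₃ : ℝ, C₃ = 8 * Real.pi * (C₁ + 1) + 3 := ⟨_, rfl⟩
  rw [← hC₃] at hC3 ⊢
  by_contra hcon
  rw [not_le] at hcon
  have h1 := lt_ord (m := n + m) (by omega) hcon
  have h2 : n ≤ Pool.Agent.Lib.MP_ec260d_nt.zeroCount (3 * T) := ord_lt hn (by linarith)
  have h3 : NN (C₃ * T) < NN (3 * T) + C₁ * (T * Real.log T) := by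
    have h4 : NN (C₃ * T) < (n : ℝ) + m := by
      unfold NN
      exact_mod_cast h1
    have h5 : (n : ℝ) ≤ NN (3 * T) := by
      unfold NN
      exact_mod_cast h2
    linarith
  have h4 := hY (3 * T) (by linarith)
  have h5 := hX (C₃ * T) (by nlinarith)
  have h6 : 3 * T * Real.log (3 * T) / 4 ≤ T * Real.log T := by
    rw [Real.log_mul (by norm_num) hT0.ne']
    have h7 := mul_le_mul_of_nonneg_left hlog hT0.le
    linarith
  have h7 : (C₁ + 1) * (T * Real.log T) ≤ C₃ * T * Real.log (C₃ * T) / (8 * Real.pi) := by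
    rw [le_div_iff₀ (by positivity)]
    have h8 : Real.log T ≤ Real.log (C₃ * T) := Real.log_le_log hT0 (by nlinarith)
    have h9 : C₃ * T * Real.log T ≤ C₃ * T * Real.log (C₃ * T) :=
      mul_le_mul_of_nonneg_left h8 (by positivity)
    have h10 : (C₁ + 1) * (T * Real.log T) * (8 * Real.pi) ≤ C₃ * T * Real.log T := by
      rw [hC₃]
      have : 0 ≤ T * Real.log T := by positivity
      nlinarith
    linarith
  linarith

theorem ord_big : ∃ T₀ : ℝ, 20 ≤ T₀ ∧ ∀ T : ℝ, T₀ ≤ T → ∀ n : ℕ, 1 ≤ n → T ≤ ordinate n → T ≤ (n : ℝ) := by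
  obtain ⟨X, hX1, hX⟩ := OrdC_low
  have hπ := Real.pi_pos
  refine ⟨max 20 (2 * (X + Real.exp (16 * Real.pi))), le_max_left _ _, fun T hT n hn hord => ?_⟩
  have h20 : 20 ≤ T := (le_max_left _ _).trans hT
  have hE : 2 * (X + Real.exp (16 * Real.pi)) ≤ T := (le_max_right _ _).trans hT
  have hE0 := Real.exp_pos (16 * Real.pi)
  have h1 := lt_ord hn (t := T / 2) (by linarith)
  have h2 : NN (T / 2) < n := by
    unfold NN
    exact_mod_cast h1
  have h3 := hX (T / 2) (by linarith)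
  have h4 : 16 * Real.pi ≤ Real.log (T / 2) := by
    rw [Real.le_log_iff_exp_le (by linarith)]
    linarith
  have h5 : T ≤ T / 2 * Real.log (T / 2) / (8 * Real.pi) := by
    rw [le_div_iff₀ (by positivity)]
    have h6 := mul_le_mul_of_nonneg_left h4 (by linarith : 0 ≤ T / 2)
    linarith
  linarith

end Pool.Agent.Lib.MP_ec260d_ntD
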