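import Mathlib
import Pool.Agent.Lib.MP_ec260d_ntD.Q.OrdC
import Pool.Agent.Lib.MP_ec260d_ntD.Q.Cls
import Pool.Agent.Lib.MP_ec260d_ntD.Q.IntI
import Pool.Agent.Lib.MP_ec260d_ntD.Q.GoodSetD
import Pool.Agent.Lib.MP_ec260d_ntD.Q.BlockI
import Pool.Agent.Lib.MP_ec260d_ntD.Q.MultD
import Pool.Agent.Lib.MP_ec260d_ntD.Q.BadS
import Pool.Agent.Lib.MP_ec260d_ntD.Q.CoverD
import Pool.Agent.Lib.MP_ec260d_ntD.Q.NotNice

/-!
# JOB Q/BlockND: the indices whose ordinate lies in `[T, 2T]`, for a scale `κ` (about 300 lines)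

Model: `block_n` in `Lib/MP_ec260d_ntB/Q/BlockN.lean` (copy its private lemma `BlockN_cover`).
Constants in this order.  `ord_C C₁` gives `C₃'`, `ph_le_C C₁` gives `C₃''`; `C₃ = max C₃' C₃'' + 1` (so `ordinate (n + m i) + 1 ≤ C₃ T`, `Ph (m i) t ≤ C₃ T` for `T ≤ t ≤ 2T`).  `not_nice k (ε/4) C₃` gives `B, Cn`.  `block_I k D κ` gives `δb`.
`good_setD k C₁ C₃ εg δb B` with `εg = ε/(4 (Cn + 1))` gives `C₂, δ, δ', W, A, A', M₁`.  `B₂ = 6B + 2A + 3`, `ε' = ε/(100 B₂)`.  `block_I` for `δ', δ, W, A, A', B, C₁, C₂, C₃, ε'` gives `ηF, M₂`.  `bad_set k C₁ κ ηF ε'`, `int_I k C₁ κ ηF`, `LL_h C₂`.  `M ≥ max 1 (max M₁ M₂)`.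
`κ₂ = 8 (k+3)^2 κ`, `H = T^(2 κ₂)`, `h = hT T`.  For large `T`: `H + 1 ≤ ε' T` (`2κ₂ ≤ 16/200`), the constant of `LL_h` is `≤ log T`, `log T ≥ 7`.
Given `T, m, P, F`: `m` is monotone, `m i ≤ C₁ T log T`; `G` from `good_setD` for `g l = m l.succ - m l.castSucc`.  `cl` from `cls_exists` with `X = T^(1 - 3κ₂)`, `Y = T^(1 - κ)`; so `T^(1-κ) ≤ |m c - m c'|` for `c ≠ c'`, `cl c = c`, `cl c' = c'`.
Let `F' = {n ∈ F : T + B h ≤ ordinate n ∧ Nice k T B m G n}`; `card (F \ F') ≤ (ε/4 + Cn εg) T log T ≤ (ε/2) T log T` by `not_nice` (`volume (Icc T (3 C₃ T) \ G) ≤ volume (Icc T (C₂ T) \ G)`).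
`S = {t ∈ Icc T (2T) : ∃ n ≥ 1, Nice n, t ≤ ordinate n ≤ t + h, ∀ i, ordinate (n + m i) + 1 ≤ C₃ T, P(..) = 0}`, `Bad` = the set of `bad_set`.  `cover_D` with `H`: if `t₀ ∈ [a, a + H]`, `t₀ ∉ Bad` (`t₀ ∈ Icc T (2T)`), then `int_I` gives `Λ, al` with `IntD`, and `block_I` bounds `volume (S ∩ Icc a (a + H))` by `ε' H`.  So `volume S ≤ 2 ε' T + H + 1 ≤ 3 ε' T`.
For `n ∈ F'`: `J n = Icc (ordinate n - h) (ordinate n) ⊆ S` (`ordinate n - h ≥ T` as `B ≥ 1`).  By `mult_D` (`hLL` from `LL_h C₂`, `G ⊆ Icc T (C₂ T)`) each `t` is in at most `B₂` of the `J n`: `card F' * h ≤ B₂ * 3 ε' T = (3ε/100) T` (`BlockN_cover`), and `h log T = 2π`.  Add up.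
-/

namespace Pool.Agent.Lib.MP_ec260d_ntD

open Set MeasureTheory
open Pool.Agent.Lib.MP_ec260d_ntB
open Pool.Agent.Lib.MP_ec260d_nt (ordinate)

private theorem BlockND_cover (F : Finset ℕ) (J : ℕ → Set ℝ) (hJ : ∀ n ∈ F, MeasurableSet (J n))
    (S : Set ℝ) (hS : ∀ n ∈ F, J n ⊆ S) (b : ℝ)
    (hb : ∀ t : ℝ, ∀ F' ⊆ F, (∀ n ∈ F', t ∈ J n) → (F'.card : ℝ) ≤ b) :
    ∑ n ∈ F, volume (J n) ≤ ENNReal.ofReal b * volume S := by
  classical
  have h1 : ∀ n ∈ F, volume (J n) = ∫⁻ t, (J n).indicator (fun _ => (1 : ENNReal)) t := by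
    intro n hn
    rw [lintegral_indicator (hJ n hn), lintegral_const, one_mul, Measure.restrict_apply_univ]
  rw [Finset.sum_congr rfl h1, ← lintegral_finsetSum F
    (fun n hn => (measurable_const.indicator (hJ n hn)))]
  calc ∫⁻ t, ∑ n ∈ F, (J n).indicator (fun _ => (1 : ENNReal)) t
      ≤ ∫⁻ t, (toMeasurable volume S).indicator (fun _ => ENNReal.ofReal b) t := by
        refine lintegral_mono fun t => ?_
        have h2 : ∑ n ∈ F, (J n).indicator (fun _ => (1 : ENNReal)) t =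
            ((F.filter fun n => t ∈ J n).card : ENNReal) := by
          rw [← Finset.sum_boole]
          refine Finset.sum_congr rfl fun n _ => ?_
          by_cases h : t ∈ J n
          · rw [Set.indicator_of_mem h, if_pos h]
          · rw [Set.indicator_of_notMem h, if_neg h]
        show ∑ n ∈ F, (J n).indicator (fun _ => (1 : ENNReal)) t ≤ _
        rw [h2]
        by_cases h3 : (F.filter fun n => t ∈ J n) = ∅
        · rw [h3, Finset.card_empty, Nat.cast_zero]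
          exact zero_le
        · obtain ⟨n, hn⟩ := Finset.nonempty_iff_ne_empty.2 h3
          rw [Finset.mem_filter] at hn
          rw [Set.indicator_of_mem (subset_toMeasurable volume S (hS n hn.1 hn.2)),
            ← ENNReal.ofReal_natCast]
          exact ENNReal.ofReal_le_ofReal (hb t _ (Finset.filter_subset _ _)
            (fun n' hn' => (Finset.mem_filter.1 hn').2))
    _ = ENNReal.ofReal b * volume S := by
        rw [lintegral_indicator (measurableSet_toMeasurable volume S), lintegral_const,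
          Measure.restrict_apply_univ, measure_toMeasurable]

private theorem BlockND_large (κ₂ ε' CL : ℝ) (hκ₂ : 2 * κ₂ ≤ 1 / 2) (hε' : 0 < ε') :
    ∃ T₀ : ℝ, 20 ≤ T₀ ∧ ∀ T : ℝ, T₀ ≤ T → 7 ≤ Real.log T ∧ CL ≤ Real.log T ∧ T ^ (2 * κ₂) + 1 ≤ ε' * T := by
  refine ⟨max 20 (max (Real.exp (max 7 CL)) ((2 / ε') ^ 2)), le_max_left _ _, fun T hT => ?_⟩
  have h20 : 20 ≤ T := (le_max_left _ _).trans hT
  have hT0 : 0 < T := by linarith
  have h1 : Real.exp (max 7 CL) ≤ T := ((le_max_left _ _).trans (le_max_right _ _)).trans hT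
  have h2 : (2 / ε') ^ 2 ≤ T := ((le_max_right _ _).trans (le_max_right _ _)).trans hT
  have h3 : max 7 CL ≤ Real.log T := (Real.le_log_iff_exp_le hT0).2 h1
  refine ⟨(le_max_left _ _).trans h3, (le_max_right _ _).trans h3, ?_⟩
  have h4 : 2 / ε' ≤ Real.sqrt T := Real.le_sqrt_of_sq_le h2
  have h5 : T ^ (2 * κ₂) ≤ Real.sqrt T := by
    rw [Real.sqrt_eq_rpow]
    exact Real.rpow_le_rpow_of_exponent_le (by linarith) hκ₂
  have h6 : (1 : ℝ) ≤ Real.sqrt T := by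
    rw [Real.one_le_sqrt]
    linarith
  have h7 : 2 ≤ ε' * Real.sqrt T := by
    rw [div_le_iff₀ hε'] at h4
    linarith
  have h8 : 2 * Real.sqrt T ≤ ε' * Real.sqrt T * Real.sqrt T :=
    mul_le_mul_of_nonneg_right h7 (Real.sqrt_nonneg _)
  have h9 : ε' * Real.sqrt T * Real.sqrt T = ε' * T := by
    rw [mul_assoc, Real.mul_self_sqrt hT0.le]
  linarith

theorem block_ND (k D : ℕ) (κ ε C₁ : ℝ) (hκ : 0 < κ) (hκ1 : 200 * ((k : ℝ) + 3) ^ 2 * κ ≤ 1) (hε : 0 < ε)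
    (hC₁ : 0 ≤ C₁) : ∃ (M : ℕ) (T₀ : ℝ), 1 ≤ M ∧ 20 ≤ T₀ ∧ ∀ T : ℝ, T₀ ≤ T →
      ∀ m : Fin (k + 1) → ℕ, m 0 = 0 → (∀ i : Fin k, m i.castSucc + M ≤ m i.succ) →
        (m (Fin.last k) : ℝ) ≤ C₁ * (T * Real.log T) →
        (∀ l : Fin k, (m l.succ : ℝ) - m l.castSucc ≤ T ^ (1 - 3 * (8 * ((k : ℝ) + 3) ^ 2 * κ)) ∨
          T ^ (1 - κ) ≤ (m l.succ : ℝ) - m l.castSucc) →
        ∀ P : MvPolynomial (Fin (k + 1)) ℂ, P ≠ 0 → P.totalDegree ≤ D →
          ∀ F : Finset ℕ, (∀ n ∈ F, 1 ≤ n ∧ T ≤ ordinate n ∧ ordinate n ≤ 2 * T ∧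
            MvPolynomial.eval (fun i => ((ordinate (n + m i) : ℝ) : ℂ)) P = 0) →
          (F.card : ℝ) ≤ ε * (T * Real.log T) := by
  classical
  obtain ⟨C3a, Ta, hC3a, hTa, hordC⟩ := ord_C C₁ hC₁
  obtain ⟨C3b, Tb, hC3b, hTb, hphC⟩ := ph_le_C C₁ hC₁
  obtain ⟨C₃, hC₃d⟩ : ∃ C₃ : ℝ, C₃ = max C3a C3b + 1 := ⟨_, rfl⟩
  have hC₃a : C3a + 1 ≤ C₃ := by rw [hC₃d]; linarith [le_max_left C3a C3b]
  have hC₃b : C3b ≤ C₃ := by rw [hC₃d]; linarith [le_max_right C3a C3b]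
  have hC₃1 : 1 ≤ C₃ := by linarith
  obtain ⟨B, Cn, Tn, hB, hCn, hTn, hnot⟩ := not_nice k (ε / 4) C₃ (by positivity) hC₃1
  obtain ⟨δb, hδb, hblock0⟩ := block_I k D κ hκ hκ1
  obtain ⟨εg, hεgd⟩ : ∃ εg : ℝ, εg = ε / (4 * (Cn + 1)) := ⟨_, rfl⟩
  have hεg : 0 < εg := by rw [hεgd]; positivity
  have hCnε : Cn * εg ≤ ε / 4 := by
    have h1 : (Cn + 1) * εg = ε / 4 := by
      rw [hεgd]
      field_simp
    linarith
  obtain ⟨C₂, δ, δ', W, A, A', M₁, Tg, hC₂, hδ, hδ', hδb', hW, hA, hA', hM₁, hTg, hgood⟩ :=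
    good_setD k C₁ C₃ εg δb B hC₁ hC₃1 hεg hδb hB
  obtain ⟨B₂, hB₂d⟩ : ∃ B₂ : ℝ, B₂ = 6 * B + 2 * A + 3 := ⟨_, rfl⟩
  have hB₂ : 0 < B₂ := by linarith
  obtain ⟨ε', hε'd⟩ : ∃ ε' : ℝ, ε' = ε / (100 * B₂) := ⟨_, rfl⟩
  have hε' : 0 < ε' := by rw [hε'd]; positivity
  have hBε : B₂ * ε' = ε / 100 := by
    rw [hε'd]
    field_simp
  obtain ⟨ηF, M₂, Ti, hηF, hηF1, hM₂, hTi, hblock⟩ := hblock0 δ' hδ' hδb' δ W A A' B C₁ C₂ C₃ ε' hW hA hB hA'
    hC₁ hC₃1 (by linarith) hε'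
  obtain ⟨Tbad, hTbad, hbad⟩ := bad_set k C₁ κ ηF ε' hC₁ hκ hηF hε'
  obtain ⟨Tint, hTint, hint⟩ := int_I k C₁ κ ηF hC₁ hκ hκ1
  obtain ⟨CL, TL, hCL, hTL, hLLh⟩ := LL_h C₂ (by linarith)
  have hκ₂ : 2 * (8 * ((k : ℝ) + 3) ^ 2 * κ) ≤ 1 / 2 := by
    have h1 : 0 ≤ ((k : ℝ) + 3) ^ 2 * κ := by positivity
    linarith
  obtain ⟨Tl, hTl, hlarge⟩ := BlockND_large (8 * ((k : ℝ) + 3) ^ 2 * κ) ε' CL hκ₂ hε'
  obtain ⟨M, hM⟩ := exists_nat_ge (max 1 (max M₁ M₂))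
  have hM1 : 1 ≤ M := by
    have h1 : (1 : ℝ) ≤ M := (le_max_left _ _).trans hM
    exact_mod_cast h1
  have hMM₁ : M₁ ≤ M := ((le_max_left _ _).trans (le_max_right _ _)).trans hM
  have hMM₂ : M₂ ≤ M := ((le_max_right _ _).trans (le_max_right _ _)).trans hM
  refine ⟨M, max (max (max Ta Tb) (max Tn Tg)) (max (max Ti Tbad) (max (max Tint TL) Tl)), hM1,
    hTa.trans ((le_max_left _ _).trans ((le_max_left _ _).trans (le_max_left _ _))), ?_⟩
  intro T hTT m hm0 hmM hmC hgap P hP hPD F hF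
  have hTT1 : max (max Ta Tb) (max Tn Tg) ≤ T := (le_max_left _ _).trans hTT
  have hTT2 : max (max Ti Tbad) (max (max Tint TL) Tl) ≤ T := (le_max_right _ _).trans hTT
  have hTa' : Ta ≤ T := ((le_max_left _ _).trans (le_max_left _ _)).trans hTT1
  have hTb' : Tb ≤ T := ((le_max_right _ _).trans (le_max_left _ _)).trans hTT1
  have hTn' : Tn ≤ T := ((le_max_left _ _).trans (le_max_right _ _)).trans hTT1
  have hTg' : Tg ≤ T := ((le_max_right _ _).trans (le_max_right _ _)).trans hTT1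
  have hTi' : Ti ≤ T := ((le_max_left _ _).trans (le_max_left _ _)).trans hTT2
  have hTbad' : Tbad ≤ T := ((le_max_right _ _).trans (le_max_left _ _)).trans hTT2
  have hTT3 : max (max Tint TL) Tl ≤ T := (le_max_right _ _).trans hTT2
  have hTint' : Tint ≤ T := ((le_max_left _ _).trans (le_max_left _ _)).trans hTT3
  have hTL' : TL ≤ T := ((le_max_right _ _).trans (le_max_left _ _)).trans hTT3
  have hTl' : Tl ≤ T := (le_max_right _ _).trans hTT3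
  obtain ⟨hlog, hlogC, hH⟩ := hlarge T hTl'
  have hT20 : 20 ≤ T := hTa.trans hTa'
  have hT0 : 0 < T := by linarith
  have hT1 : 1 ≤ T := by linarith
  have hhd : hT T = 2 * Real.pi / Real.log T := rfl
  have hh0 : 0 < hT T := by
    rw [hhd]
    exact div_pos (by positivity) (by linarith)
  have hhlog : hT T * Real.log T = 2 * Real.pi := by
    rw [hhd, div_mul_cancel₀ _ (by linarith : Real.log T ≠ 0)]
  have hpi : 3 ≤ Real.pi := Real.pi_gt_three.le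
  obtain ⟨H, hHd⟩ : ∃ H : ℝ, H = T ^ (2 * (8 * ((k : ℝ) + 3) ^ 2 * κ)) := ⟨_, rfl⟩
  have hH0 : 0 < H := by rw [hHd]; exact Real.rpow_pos_of_pos hT0 _
  -- the gaps
  have hmono : Monotone m := Fin.monotone_iff_le_succ.2 fun i => by
    have := hmM i
    omega
  have hmonoR : Monotone (fun i : Fin (k + 1) => (m i : ℝ)) := fun i j hij => by
    have h1 : ((m i : ℕ) : ℝ) ≤ (m j : ℝ) := by exact_mod_cast hmono hij
    exact h1
  have hmCi : ∀ i, (m i : ℝ) ≤ C₁ * (T * Real.log T) := by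
    intro i
    have h4 : ((m i : ℕ) : ℝ) ≤ m (Fin.last k) := by exact_mod_cast hmono (Fin.le_last _)
    exact h4.trans hmC
  have hm0R : ((m 0 : ℕ) : ℝ) = 0 := by rw [hm0]; simp
  have hgM : ∀ l : Fin k, (M : ℝ) ≤ (m l.succ : ℝ) - m l.castSucc := by
    intro l
    have h1 : ((m l.castSucc : ℕ) : ℝ) + M ≤ m l.succ := by exact_mod_cast hmM l
    linarith
  have hgC : ∀ l : Fin k, (m l.succ : ℝ) - m l.castSucc ≤ C₁ * (T * Real.log T) := by
    intro l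
    have h2 : (0 : ℝ) ≤ m l.castSucc := Nat.cast_nonneg _
    have h3 := hmCi l.succ
    linarith
  obtain ⟨G, hGm, hGv, hG, hGd⟩ := hgood T hTg' (fun l => (m l.succ : ℝ) - m l.castSucc)
    fun l => ⟨hMM₁.trans (hgM l), hgC l⟩
  obtain ⟨cl, hc1, hc2, hc0, hc3, hc4⟩ := cls_exists k (fun i => (m i : ℝ))
    (T ^ (1 - 3 * (8 * ((k : ℝ) + 3) ^ 2 * κ))) (T ^ (1 - κ)) (Real.rpow_nonneg hT0.le _) hmonoR hgap
  have hord : ∀ n ∈ F, ∀ i, ordinate (n + m i) + 1 ≤ C₃ * T := by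
    intro n hn i
    obtain ⟨hn1, hn2, hn3, -⟩ := hF n hn
    have h1 := hordC T hTa' n (m i) hn1 hn3 (hmCi i)
    have h2 : (C3a + 1) * T ≤ C₃ * T := mul_le_mul_of_nonneg_right hC₃a hT0.le
    linarith
  -- the indices which are not nice
  set F' : Finset ℕ := F.filter fun n => T + B * hT T ≤ ordinate n ∧ Nice k T B m G n with hF'
  set Fc : Finset ℕ := F.filter fun n => ¬ (T + B * hT T ≤ ordinate n ∧ Nice k T B m G n) with hFc
  have hcard : (F.card : ℝ) ≤ F'.card + Fc.card := by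
    have h1 : F ⊆ F' ∪ Fc := by
      intro n hn
      by_cases h : T + B * hT T ≤ ordinate n ∧ Nice k T B m G n
      · exact Finset.mem_union_left _ (Finset.mem_filter.2 ⟨hn, h⟩)
      · exact Finset.mem_union_right _ (Finset.mem_filter.2 ⟨hn, h⟩)
    have h2 := (Finset.card_le_card h1).trans (Finset.card_union_le _ _)
    exact_mod_cast h2
  have hcc : (Fc.card : ℝ) ≤ (ε / 4 + Cn * εg) * (T * Real.log T) := by
    refine hnot T hTn' εg G hεg.le hGm ?_ m Fc ?_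
    · refine le_trans (measure_mono (sdiff_subset_sdiff_left (Icc_subset_Icc_right ?_))) hGv
      exact mul_le_mul_of_nonneg_right hC₂ hT0.le
    · intro n hn
      obtain ⟨hn1, hn2⟩ := Finset.mem_filter.1 hn
      obtain ⟨hn3, hn4, hn5, -⟩ := hF n hn1
      exact ⟨hn3, hn4, fun i => by linarith [hord n hn1 i], hn2⟩
  -- the set of the base points
  set S : Set ℝ := {t : ℝ | t ∈ Icc T (2 * T) ∧ ∃ n : ℕ, 1 ≤ n ∧ Nice k T B m G n ∧ t ≤ ordinate n ∧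
    ordinate n ≤ t + hT T ∧ (∀ i, ordinate (n + m i) + 1 ≤ C₃ * T) ∧
    MvPolynomial.eval (fun i => ((ordinate (n + m i) : ℝ) : ℂ)) P = 0} with hS
  set Bad : Set ℝ := {t : ℝ | t ∈ Icc T (2 * T) ∧
    ¬ (NR k cl (fun c => slp ((fun i : Fin (k + 1) => (m i : ℝ)) c) t) (T ^ κ) (T ^ (-(8 * ((k : ℝ) + 3) ^ 2 * κ))) ∧
      ∀ i i' : Fin (k + 1), cl i = cl i' → (fun i : Fin (k + 1) => (m i : ℝ)) i ≤ (fun i : Fin (k + 1) => (m i : ℝ)) i' →
        5 / 2 ≤ Ph ((fun i : Fin (k + 1) => (m i : ℝ)) i') t - Ph ((fun i : Fin (k + 1) => (m i : ℝ)) i) t →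
        FarR ηF (Real.log T) (1 / 100) (Ph ((fun i : Fin (k + 1) => (m i : ℝ)) i') t -
          Ph ((fun i : Fin (k + 1) => (m i : ℝ)) i) t))} with hBad
  have hbadv : volume Bad ≤ ENNReal.ofReal (ε' * T) := by
    refine hbad T hTbad' (fun i => (m i : ℝ)) (fun i => ⟨Nat.cast_nonneg _, hmCi i⟩) cl hc2 ?_
    intro c c' h1 h2 h3
    exact hc4 c c' (by rw [h1, h2]; exact h3)
  have hSv : volume S ≤ ENNReal.ofReal (2 * ε' * T + H + 1) := by
    refine cover_D T H ε' hT1 hH0 hε'.le S Bad (fun t ht => ht.1) hbadv ?_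
    rintro a ha1 ha2 ⟨t₀, h1, h2, h3⟩
    have ht₀ : t₀ ∈ Icc T (2 * T) := ⟨by linarith, by linarith⟩
    have h4 : NR k cl (fun c => slp ((fun i : Fin (k + 1) => (m i : ℝ)) c) t₀) (T ^ κ)
        (T ^ (-(8 * ((k : ℝ) + 3) ^ 2 * κ))) ∧
      ∀ i i' : Fin (k + 1), cl i = cl i' → (fun i : Fin (k + 1) => (m i : ℝ)) i ≤ (fun i : Fin (k + 1) => (m i : ℝ)) i' →
        5 / 2 ≤ Ph ((fun i : Fin (k + 1) => (m i : ℝ)) i') t₀ - Ph ((fun i : Fin (k + 1) => (m i : ℝ)) i) t₀ →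
        FarR ηF (Real.log T) (1 / 100) (Ph ((fun i : Fin (k + 1) => (m i : ℝ)) i') t₀ -
          Ph ((fun i : Fin (k + 1) => (m i : ℝ)) i) t₀) := by
      by_contra hc
      exact h3 ⟨ht₀, hc⟩
    rw [hHd] at ha2 h2
    obtain ⟨Λ, al, hI⟩ := hint T hTint' (fun i => (m i : ℝ)) hm0R hmonoR hmCi cl hc1 hc2 hc0 hc3 a t₀ ha1 ha2
      h1 h2 h4.1 h4.2
    have h5 := hblock T hTi' m cl Λ al a ha1 ha2 hm0 (fun l => by linarith [hgM l]) hmCi ?_ hI G hG hGd P hP hPD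
    · rw [hHd]
      refine le_trans (measure_mono ?_) h5
      rintro t ⟨⟨-, n, hn⟩, hta⟩
      exact ⟨hta, n, hn⟩
    · intro t ht1 ht2 i
      have h6 := hphC T hTb' (m i) t (Nat.cast_nonneg _) (hmCi i) ht1 ht2
      exact h6.trans (mul_le_mul_of_nonneg_right hC₃b hT0.le)
  have hSv' : volume S ≤ ENNReal.ofReal (3 * ε' * T) := by
    refine hSv.trans (ENNReal.ofReal_le_ofReal ?_)
    rw [← hHd] at hH
    linarith
  -- the intervals
  have hJS : ∀ n ∈ F', Icc (ordinate n - hT T) (ordinate n) ⊆ S := by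
    intro n hn t ht
    obtain ⟨hnF, hn1, hn2⟩ := Finset.mem_filter.1 hn
    obtain ⟨hn3, hn4, hn5, hn6⟩ := hF n hnF
    have htT : T ≤ t := by
      have h1 := ht.1
      have h2 : hT T ≤ B * hT T := le_mul_of_one_le_left hh0.le hB
      linarith
    exact ⟨⟨htT, ht.2.trans hn5⟩, n, hn3, hn2, ht.2, by linarith [ht.1], hord n hnF, hn6⟩
  have hcov := BlockND_cover F' (fun n => Icc (ordinate n - hT T) (ordinate n))
    (fun n _ => measurableSet_Icc) S hJS B₂ (by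
      intro t F'' hF'' ht
      rw [hB₂d]
      refine mult_D k δ δ' W T A B C₂ t G hG hA hB hh0 ?_ m hm0 F'' fun n hn => ?_
      · intro s s' hs hs' hss
        have h1 := hG.sub hs
        have h2 := hG.sub hs'
        have h3 := hLLh T hTL' s s' h1.1 hss h2.2
        have h4 : CL / Real.log T * (s' - s) ≤ 1 * (s' - s) := by
          refine mul_le_mul_of_nonneg_right ?_ (by linarith)
          rw [div_le_one (by linarith)]
          exact hlogC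
        have h5 := (abs_le.1 h3).2
        linarith
      · have h1 := ht n hn
        have h2 := (Finset.mem_filter.1 (hF'' hn)).2.2
        exact ⟨h2, h1.2, by linarith [h1.1]⟩)
  have hsum : ∑ n ∈ F', volume (Icc (ordinate n - hT T) (ordinate n)) =
      ENNReal.ofReal (F'.card * hT T) := by
    have h1 : ∀ n ∈ F', volume (Icc (ordinate n - hT T) (ordinate n)) =
        ENNReal.ofReal (hT T) := by
      intro n _
      rw [Real.volume_Icc]
      congr 1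
      ring
    rw [Finset.sum_congr rfl h1, Finset.sum_const, nsmul_eq_mul, ENNReal.ofReal_mul
      (Nat.cast_nonneg _), ENNReal.ofReal_natCast]
  have hfinal : (F'.card : ℝ) * hT T ≤ B₂ * (3 * ε' * T) := by
    have h1 : ENNReal.ofReal ((F'.card : ℝ) * hT T) ≤ ENNReal.ofReal (B₂ * (3 * ε' * T)) := by
      rw [← hsum, ENNReal.ofReal_mul hB₂.le]
      refine le_trans hcov ?_
      exact mul_le_mul_right hSv' _
    exact (ENNReal.ofReal_le_ofReal_iff (by positivity)).1 h1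
  have h5 : (F'.card : ℝ) * hT T ≤ 3 * (ε / 100) * T := by
    have h6 : B₂ * (3 * ε' * T) = 3 * (B₂ * ε') * T := by ring
    rw [h6, hBε] at hfinal
    exact hfinal
  have h6 : (F'.card : ℝ) * (2 * Real.pi) ≤ 3 * (ε / 100) * T * Real.log T := by
    rw [← hhlog, ← mul_assoc]
    exact mul_le_mul_of_nonneg_right h5 (by linarith)
  have h7 : (F'.card : ℝ) * 6 ≤ (F'.card : ℝ) * (2 * Real.pi) :=
    mul_le_mul_of_nonneg_left (by linarith) (Nat.cast_nonneg _)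
  have hTl0 : 0 ≤ T * Real.log T := mul_nonneg hT0.le (by linarith)
  have h8 : 0 ≤ ε * (T * Real.log T) := mul_nonneg hε.le hTl0
  have h9 : (ε / 4 + Cn * εg) * (T * Real.log T) ≤ (ε / 4 + ε / 4) * (T * Real.log T) :=
    mul_le_mul_of_nonneg_right (by linarith) hTl0
  linarith

end Pool.Agent.Lib.MP_ec260d_ntD
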