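import Mathlib
import Pool.Agent.Lib.MP_ec260d_ntD.Q.FinalD

/-!
# JOB Q/LinRecD: linear recurrences fail for a positive proportion of the indices (about 200 lines)

`lin_dep`: let `a i₀ ≠ 0` and `a i = 0` for `i > i₀` (the last nonzero coefficient, e.g. `Finset.max'` of the support), `r = i₀`.  Define by strong recursion vectors `L j : Fin (r + 1) → ℂ`: `L j = e_j` for `j < r`, `L j = (a i₀)⁻¹ (b e_r - ∑_{i < r} a i L (j - r + i))` for `j ≥ r`.
If `x : ℕ → ℂ` satisfies `∑ i, a i * x (j + i) = b` for all `j ≤ k M'`, then `x j = ∑_{i<r} (L j)_i x i + (L j)_r` for all `j ≤ k M' + r` (strong induction).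
The `k + 2` vectors `e_r, L (0), L (M'), .., L (k M')` in the space `Fin (r + 1) → ℂ` of dimension `r + 1 ≤ k + 1` are linearly dependent (`exists_nontrivial_relation_of_finrank_lt_card`, or a family version through `Fintype.not_linearIndependent_iff`): this gives `c`, `c'`, not all zero.
`linrecD`: `M` from `finalD k 1 (1/2) 1`, `M' = M + 1`, `m i = i M'`, `m k = k M' ≤ N` for large `N`.  `P = C c' + ∑ C (c i) X_i ≠ 0` has total degree `≤ 1`.  `finalD` applied to the set of the `n ∈ [1, N]` such that the recurrence holds at `n, n + 1, .., n + k M'` (take `x j = ordinate (n + j)`): its cardinality is `≤ N/2`.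
So for at least `N/2` of the `n ∈ [1, N]` there is a `j ≤ k M'` such that the recurrence fails at `n + j ∈ [1, N + k M']`; hence at least `N/(2 (k M' + 1))` elements `n' ∈ [1, N + k M']` at which it fails, and at least `N/(2 (k M' + 1)) - k M' ≥ N/(4 (k M' + 1))` such elements `≤ N` for large `N`.
-/

namespace Pool.Agent.Lib.MP_ec260d_ntD

open Pool.Agent.Lib.MP_ec260d_nt (ordinate)

/-- the value of a vector on a solution of the recurrence -/
private noncomputable def LinRecD_ev (k : ℕ) (x : ℕ → ℂ) : (Fin (k + 1) → ℂ) →ₗ[ℂ] ℂ :=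
  ∑ i : Fin (k + 1), (if i = Fin.last k then 1 else x i) • LinearMap.proj (R := ℂ) (φ := fun _ : Fin (k + 1) => ℂ) i

private theorem LinRecD_ev_apply (k : ℕ) (x : ℕ → ℂ) (w : Fin (k + 1) → ℂ) :
    LinRecD_ev k x w = ∑ i : Fin (k + 1), (if i = Fin.last k then 1 else x i) * w i := by
  unfold LinRecD_ev
  rw [LinearMap.sum_apply]
  rfl

private theorem LinRecD_ev_single (k : ℕ) (x : ℕ → ℂ) (i : Fin (k + 1)) :
    LinRecD_ev k x (Pi.single i 1) = if i = Fin.last k then 1 else x i := by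
  rw [LinRecD_ev_apply, Finset.sum_eq_single i]
  · rw [Pi.single_eq_same, mul_one]
  · intro j _ hj
    rw [Pi.single_eq_of_ne hj, mul_zero]
  · intro h
    exact absurd (Finset.mem_univ i) h

private theorem LinRecD_vec (k K : ℕ) (a : Fin (k + 1) → ℂ) (b : ℂ) (r : Fin (k + 1)) (hr : a r ≠ 0)
    (h0 : ∀ i, r < i → a i = 0) : ∀ j : ℕ, ∃ w : Fin (k + 1) → ℂ, ∀ x : ℕ → ℂ,
      (∀ j ≤ K, ∑ i : Fin (k + 1), a i * x (j + i) = b) → j ≤ K + r → LinRecD_ev k x w = x j := by
  intro j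
  induction j using Nat.strong_induction_on with
  | _ j ih =>
    rcases Nat.lt_or_ge j r with hj | hj
    · have hjk : j < k + 1 := lt_trans hj r.2
      refine ⟨Pi.single ⟨j, hjk⟩ 1, fun x _ _ => ?_⟩
      rw [LinRecD_ev_single, if_neg]
      intro h
      have h1 := congrArg Fin.val h
      rw [Fin.val_last] at h1
      have h2 := r.2
      simp only at h1
      omega
    · obtain ⟨n, hn⟩ : ∃ n, n + (r : ℕ) = j := ⟨j - r, by omega⟩
      choose W hW using ih
      refine ⟨(a r)⁻¹ • (b • Pi.single (Fin.last k) 1 - ∑ i ∈ Finset.univ.erase r, a i •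
        (if h : n + (i : ℕ) < j then W (n + i) h else 0)), fun x hx hjK => ?_⟩
      have h1 := hx n (by omega)
      rw [← Finset.add_sum_erase _ _ (Finset.mem_univ r), hn] at h1
      rw [map_smul, map_sub, map_smul, LinRecD_ev_single, if_pos rfl, map_sum]
      have h2 : ∑ i ∈ Finset.univ.erase r, LinRecD_ev k x (a i • (if h : n + (i : ℕ) < j then W (n + i) h else 0)) =
          ∑ i ∈ Finset.univ.erase r, a i * x (n + i) := by
        refine Finset.sum_congr rfl fun i hi => ?_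
        have hir : i ≠ r := (Finset.mem_erase.1 hi).1
        rw [map_smul, smul_eq_mul]
        rcases lt_or_gt_of_ne hir with h3 | h3
        · have h4 : n + (i : ℕ) < j := by
            have h5 : (i : ℕ) < r := h3
            omega
          rw [dif_pos h4, hW (n + i) h4 x hx (by omega)]
        · rw [h0 i h3, zero_mul, zero_mul]
      rw [h2, smul_eq_mul, smul_eq_mul, mul_one, ← h1, add_sub_cancel_right, inv_mul_cancel_left₀ hr]

theorem lin_dep (k M' : ℕ) (a : Fin (k + 1) → ℂ) (b : ℂ) (ha : a ≠ 0) :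
    ∃ (c : Fin (k + 1) → ℂ) (c' : ℂ), (c ≠ 0 ∨ c' ≠ 0) ∧ ∀ x : ℕ → ℂ,
      (∀ j ≤ k * M', ∑ i : Fin (k + 1), a i * x (j + i) = b) →
        c' + ∑ i : Fin (k + 1), c i * x (i * M') = 0 := by
  classical
  obtain ⟨r, hr, h0⟩ : ∃ r : Fin (k + 1), a r ≠ 0 ∧ ∀ i, r < i → a i = 0 := by
    have hne : (Finset.univ.filter fun i => a i ≠ 0).Nonempty := by
      obtain ⟨i, hi⟩ := Function.ne_iff.1 ha
      exact ⟨i, Finset.mem_filter.2 ⟨Finset.mem_univ i, hi⟩⟩
    refine ⟨(Finset.univ.filter fun i => a i ≠ 0).max' hne, (Finset.mem_filter.1 (Finset.max'_mem _ hne)).2, ?_⟩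
    intro i hi
    by_contra h
    exact absurd (Finset.le_max' _ i (Finset.mem_filter.2 ⟨Finset.mem_univ i, h⟩)) (not_le.2 hi)
  choose L hL using LinRecD_vec k (k * M') a b r hr h0
  obtain ⟨v, hv⟩ : ∃ v : Option (Fin (k + 1)) → (Fin (k + 1) → ℂ), v = fun o =>
      match o with
      | none => Pi.single (Fin.last k) 1
      | some i => L (i * M') := ⟨_, rfl⟩
  have hdep : ¬ LinearIndependent ℂ v := by
    intro h
    have h1 := h.fintype_card_le_finrank
    rw [Fintype.card_option, Fintype.card_fin, Module.finrank_fin_fun] at h1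
    omega
  obtain ⟨g, hg, o, ho⟩ := Fintype.not_linearIndependent_iff.1 hdep
  refine ⟨fun i => g (some i), g none, ?_, fun x hx => ?_⟩
  · cases o with
    | none => exact Or.inr ho
    | some i => exact Or.inl fun h => ho (congrFun h i)
  · have h1 := congrArg (LinRecD_ev k x) hg
    rw [map_sum, map_zero, Fintype.sum_option] at h1
    rw [← h1, map_smul, smul_eq_mul]
    have e1 : v none = Pi.single (Fin.last k) 1 := by rw [hv]
    rw [e1, LinRecD_ev_single, if_pos rfl, mul_one]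
    congr 1
    refine Finset.sum_congr rfl fun i _ => ?_
    have e2 : v (some i) = L (i * M') := by rw [hv]
    rw [map_smul, smul_eq_mul, e2, hL _ x hx]
    have h2 : (i : ℕ) ≤ k := Nat.lt_succ_iff.1 i.2
    have h3 : (i : ℕ) * M' ≤ k * M' := Nat.mul_le_mul_right M' h2
    omega

private theorem LinRecD_deg (k : ℕ) (c : Fin (k + 1) → ℂ) (c' : ℂ) :
    (MvPolynomial.C c' + ∑ i : Fin (k + 1), MvPolynomial.C (c i) * MvPolynomial.X i :
      MvPolynomial (Fin (k + 1)) ℂ).totalDegree ≤ 1 := by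
  refine (MvPolynomial.totalDegree_add _ _).trans (max_le ?_ ?_)
  · rw [MvPolynomial.totalDegree_C]
    exact Nat.zero_le 1
  · refine MvPolynomial.totalDegree_finsetSum_le fun i _ => ?_
    refine (MvPolynomial.totalDegree_mul _ _).trans ?_
    rw [MvPolynomial.totalDegree_C, MvPolynomial.totalDegree_X]

private theorem LinRecD_eval (k : ℕ) (c : Fin (k + 1) → ℂ) (c' : ℂ) (y : Fin (k + 1) → ℂ) :
    MvPolynomial.eval y (MvPolynomial.C c' + ∑ i : Fin (k + 1), MvPolynomial.C (c i) * MvPolynomial.X i) =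
      c' + ∑ i : Fin (k + 1), c i * y i := by
  simp

private theorem LinRecD_ne (k : ℕ) (c : Fin (k + 1) → ℂ) (c' : ℂ) (h : c ≠ 0 ∨ c' ≠ 0) :
    (MvPolynomial.C c' + ∑ i : Fin (k + 1), MvPolynomial.C (c i) * MvPolynomial.X i :
      MvPolynomial (Fin (k + 1)) ℂ) ≠ 0 := by
  intro h0
  have h1 : ∀ y : Fin (k + 1) → ℂ, c' + ∑ i : Fin (k + 1), c i * y i = 0 := by
    intro y
    rw [← LinRecD_eval, h0, map_zero]
  have h2 : c' = 0 := by
    have h3 := h1 0
    simpa using h3
  rcases h with h | h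
  · obtain ⟨i, hi⟩ := Function.ne_iff.1 h
    apply hi
    have h3 := h1 (Pi.single i 1)
    rw [h2, zero_add, Finset.sum_eq_single i] at h3
    · rw [Pi.single_eq_same, mul_one] at h3
      exact h3
    · intro j _ hj
      rw [Pi.single_eq_of_ne hj, mul_zero]
    · intro h4
      exact absurd (Finset.mem_univ i) h4
  · exact h h2

theorem linrecD (k : ℕ) : ∃ c : ℝ, 0 < c ∧ ∃ N₀ : ℕ, ∀ N : ℕ, N₀ ≤ N →
    ∀ (a : Fin (k + 1) → ℂ) (b : ℂ), a ≠ 0 → ∃ F : Finset ℕ, (∀ n ∈ F, 1 ≤ n ∧ n ≤ N ∧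
      ∑ i : Fin (k + 1), a i * ((ordinate (n + i) : ℝ) : ℂ) ≠ b) ∧ c * N ≤ F.card := by
  classical
  obtain ⟨M, N₁, hfin⟩ := finalD k 1 (1 / 2) 1 (by norm_num) (by norm_num)
  obtain ⟨K, hK⟩ : ∃ K : ℕ, K = k * (M + 1) := ⟨_, rfl⟩
  have hK0 : (0 : ℝ) ≤ (K : ℝ) := Nat.cast_nonneg K
  refine ⟨1 / (4 * ((K : ℝ) + 1)), by positivity, max N₁ (max (4 * K * (K + 1)) K), ?_⟩
  intro N hN a b ha
  rw [max_le_iff, max_le_iff] at hN
  obtain ⟨hN1, hN2, hN3⟩ := hN
  have hlog : (K : ℝ) ≤ 1 * (N : ℝ) := by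
    rw [one_mul]
    exact_mod_cast hN3
  obtain ⟨c, c', hcc, hlin⟩ := lin_dep k (M + 1) a b ha
  obtain ⟨R, hR⟩ : ∃ R : ℕ → Prop, R = fun n => ∑ i : Fin (k + 1), a i * ((ordinate (n + i) : ℝ) : ℂ) = b := ⟨_, rfl⟩
  -- the set where the recurrence holds at all points of the window
  obtain ⟨G, hG⟩ : ∃ G : Finset ℕ, G = (Finset.Icc 1 N).filter fun n => ∀ j ≤ K, R (n + j) := ⟨_, rfl⟩
  have hGcard : (G.card : ℝ) ≤ 1 / 2 * N := by
    refine hfin N hN1 (fun i => (i : ℕ) * (M + 1)) (by simp) ?_ ?_ _ (LinRecD_ne k c c' hcc) (LinRecD_deg k c c') G ?_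
    · intro i
      simp only [Fin.val_castSucc, Fin.val_succ]
      ring_nf
      omega
    · simp only [Fin.val_last]
      rw [← hK]
      exact hlog
    · intro n hn
      rw [hG, Finset.mem_filter, Finset.mem_Icc] at hn
      refine ⟨hn.1.1, hn.1.2, ?_⟩
      rw [LinRecD_eval]
      refine hlin (fun j => ((ordinate (n + j) : ℝ) : ℂ)) fun j hj => ?_
      have h1 := hn.2 j (by rw [hK]; exact hj)
      rw [hR] at h1
      rw [← h1]
      refine Finset.sum_congr rfl fun i _ => ?_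
      rw [add_assoc]
  obtain ⟨H, hH⟩ : ∃ H : Finset ℕ, H = (Finset.Icc 1 N).filter fun n => ¬ ∀ j ≤ K, R (n + j) := ⟨_, rfl⟩
  have hGH : G.card + H.card = N := by
    rw [hG, hH, Finset.card_filter_add_card_filter_not, Nat.card_Icc]
    omega
  obtain ⟨B, hB⟩ : ∃ B : Finset ℕ, B = (Finset.Icc 1 N).filter fun n => ¬ R n := ⟨_, rfl⟩
  obtain ⟨B', hB'⟩ : ∃ B' : Finset ℕ, B' = (Finset.Icc 1 (N + K)).filter fun n => ¬ R n := ⟨_, rfl⟩
  have hHB : H ⊆ (Finset.range (K + 1)).biUnion fun j => B'.image fun n => n - j := by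
    intro n hn
    rw [hH, Finset.mem_filter, Finset.mem_Icc] at hn
    obtain ⟨⟨h1, h2⟩, h3⟩ := hn
    push Not at h3
    obtain ⟨j, hj, hRj⟩ := h3
    refine Finset.mem_biUnion.2 ⟨j, Finset.mem_range.2 (by omega), Finset.mem_image.2 ⟨n + j, ?_, by omega⟩⟩
    rw [hB', Finset.mem_filter, Finset.mem_Icc]
    exact ⟨⟨by omega, by omega⟩, hRj⟩
  have hHcard : H.card ≤ (K + 1) * B'.card := by
    refine (Finset.card_le_card hHB).trans (Finset.card_biUnion_le.trans ?_)
    refine (Finset.sum_le_card_nsmul _ _ B'.card fun j _ => Finset.card_image_le).trans ?_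
    rw [Finset.card_range, smul_eq_mul]
  have hBB : B' ⊆ B ∪ Finset.Icc (N + 1) (N + K) := by
    intro n hn
    rw [hB', Finset.mem_filter, Finset.mem_Icc] at hn
    rw [Finset.mem_union, hB, Finset.mem_filter, Finset.mem_Icc, Finset.mem_Icc]
    rcases Nat.lt_or_ge N n with h | h
    · exact Or.inr ⟨h, hn.1.2⟩
    · exact Or.inl ⟨⟨hn.1.1, h⟩, hn.2⟩
  have hBcard : B'.card ≤ B.card + K := by
    refine (Finset.card_le_card hBB).trans ((Finset.card_union_le _ _).trans ?_)
    rw [Nat.card_Icc]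
    omega
  refine ⟨B, fun n hn => ?_, ?_⟩
  · rw [hB, Finset.mem_filter, Finset.mem_Icc, hR] at hn
    exact ⟨hn.1.1, hn.1.2, hn.2⟩
  · have h1 : (G.card : ℝ) + H.card = N := by exact_mod_cast hGH
    have h2 : (H.card : ℝ) ≤ (K + 1) * B'.card := by exact_mod_cast hHcard
    have h3 : (B'.card : ℝ) ≤ B.card + K := by exact_mod_cast hBcard
    have h4 : 4 * (K : ℝ) * (K + 1) ≤ N := by exact_mod_cast hN2
    have h5 : (N : ℝ) / 2 ≤ (K + 1) * (B.card + K) := by
      have h6 : ((K : ℝ) + 1) * B'.card ≤ (K + 1) * (B.card + K) :=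
        mul_le_mul_of_nonneg_left h3 (by positivity)
      linarith
    rw [div_mul_eq_mul_div, one_mul, div_le_iff₀ (by positivity)]
    nlinarith

end Pool.Agent.Lib.MP_ec260d_ntD
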